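import Pool.Agent.H83JL.Corner

/-! Assembly: the product `B` clears all denominators. -/

namespace H83JL

open Finset Polynomial

variable {K : Type*} [Field K]

/-! ### operators -/

/-- product of a list of operators -/
noncomputable def opsE (k : K) (N : ℕ) (ops : List (K[X][X] × K[X])) : Module.End K (Lau K N) :=
  (ops.map fun op => TT k N (op.1.map (evalRingHom (N : K))) (op.2.eval (N : K))).prod

lemma opsE_cons (k : K) (N : ℕ) (op : K[X][X] × K[X]) (ops : List (K[X][X] × K[X]))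
    (f : Lau K N) : opsE k N (op :: ops) f =
      TT k N (op.1.map (evalRingHom (N : K))) (op.2.eval (N : K)) (opsE k N ops f) := by
  rw [opsE, List.map_cons, List.prod_cons, Module.End.mul_apply]; rfl

lemma ops_stable (k : K) (ops : List (K[X][X] × K[X])) (u : MvPolynomial ℤ K) :
    ∃ J : MvPolynomial ℤ K, ∀ N, opsE k N ops (phi K N u) = phi K N J := by
  induction ops with
  | nil => exact ⟨u, fun N => rfl⟩
  | cons op ops ih =>
    obtain ⟨J, hJ⟩ := ih
    obtain ⟨J', hJ'⟩ := TT_stable k op.1 op.2 J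
    exact ⟨J', fun N => by rw [opsE_cons, hJ, hJ']⟩

lemma TT_eig [CharZero K] {N : ℕ} {k : K} (hk : ∀ q : ℚ, (q : K) ≠ k) {χ : Fin N → ℤ}
    (hχ : Antitone χ) {f : Lau K N} (hf : f ∈ Eig k χ) (q : K[X]) (c : K) :
    TT k N q c f = (q.sum (fun n a => a * (k * ev k χ n)) + c) • f := by
  rw [TT_apply, add_smul, Polynomial.sum_def, Finset.sum_smul]
  congr 1
  refine Finset.sum_congr rfl fun n _ => ?_
  rw [II_eig hk hχ hf, smul_smul]
  congr 1
  ring

lemma TT_chi [CharZero K] {N : ℕ} {k : K} (hk : ∀ q : ℚ, (q : K) ≠ k) {L L' : ℕ}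
    {nu tau : ℕ → ℕ} (hν : Antitone nu) (hτ : Antitone tau)
    (hνL : ∀ i, L ≤ i → nu i = 0) (hτL : ∀ j, L' ≤ j → tau j = 0) (hN : L + L' + 1 ≤ N)
    {f : Lau K N} (hf : f ∈ Eig k (chi N nu tau)) (op : K[X][X] × K[X]) :
    TT k N (op.1.map (evalRingHom (N : K))) (op.2.eval (N : K)) f =
      ((Lam (blist (C k) X L L' nu tau) op.1 + op.2).eval (N : K)) • f := by
  rw [TT_eig hk (chi_antitone hν hτ) hf, ev_blist k hν hτ hνL hτL hN, eval_add]
  congr 2
  have h1 : blist k (N : K) L L' nu tau =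
      (blist (C k) X L L' nu tau).map (Prod.map (evalRingHom (N : K)) (evalRingHom (N : K))) := by
    rw [blist_map]; simp
  rw [h1, Lam_map, coe_evalRingHom]

lemma opsE_chi [CharZero K] {N : ℕ} {k : K} (hk : ∀ q : ℚ, (q : K) ≠ k) {L L' : ℕ}
    {nu tau : ℕ → ℕ} (hν : Antitone nu) (hτ : Antitone tau)
    (hνL : ∀ i, L ≤ i → nu i = 0) (hτL : ∀ j, L' ≤ j → tau j = 0) (hN : L + L' + 1 ≤ N)
    {f : Lau K N} (hf : f ∈ Eig k (chi N nu tau)) (ops : List (K[X][X] × K[X])) :
    opsE k N ops f =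
      ((ops.map fun op => Lam (blist (C k) X L L' nu tau) op.1 + op.2).prod.eval (N : K)) • f := by
  induction ops with
  | nil => simp [opsE]
  | cons op ops ih =>
    rw [opsE_cons, ih, map_smul, TT_chi hk hν hτ hνL hτL hN hf, List.map_cons, List.prod_cons,
      eval_mul, smul_smul, mul_comm]

/-! ### the weights below `chi N lam mu` -/

lemma small_rows {nu : ℕ → ℕ} (hν : Antitone nu) {N L : ℕ} (h : ∑ i ∈ range N, nu i ≤ L)
    (hN : ∀ i, N ≤ i → nu i = 0) : (∀ i, L ≤ i → nu i = 0) ∧ ∀ i, nu i ≤ L := by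
  constructor
  · intro i hi
    by_contra hne
    have hiN : i < N := by
      by_contra hcon
      exact hne (hN i (not_lt.1 hcon))
    have h1 : ∑ i' ∈ range (i + 1), 1 ≤ ∑ i' ∈ range (i + 1), nu i' := by
      refine Finset.sum_le_sum fun i' hi' => ?_
      rw [mem_range] at hi'
      have := hν (show i' ≤ i by omega)
      omega
    have h2 : ∑ i' ∈ range (i + 1), nu i' ≤ ∑ i' ∈ range N, nu i' :=
      Finset.sum_le_sum_of_subset (Finset.range_mono (by omega))
    simp only [Finset.sum_const, card_range, smul_eq_mul, mul_one] at h1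
    omega
  · intro i
    by_cases hiN : i < N
    · have : nu i ≤ ∑ i' ∈ range N, nu i' :=
        Finset.single_le_sum (f := nu) (fun _ _ => Nat.zero_le _) (mem_range.2 hiN)
      omega
    · rw [hN i (not_lt.1 hiN)]; omega

lemma sum_ext_range {f : ℕ → ℕ} {L N : ℕ} (hL : ∀ i, L ≤ i → f i = 0) (h : L ≤ N) :
    ∑ i ∈ range N, f i = ∑ i ∈ range L, f i := by
  symm
  apply Finset.sum_subset (Finset.range_mono h)
  intro i _ hi
  exact hL i (by simpa using hi)

lemma dominated_form {L L' N : ℕ} {lam mu : ℕ → ℕ}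
    (hlL : ∀ i, L ≤ i → lam i = 0) (hμL : ∀ j, L' ≤ j → mu j = 0)
    (hls : ∑ i ∈ range L, lam i ≤ L) (hms : ∑ i ∈ range L', mu i ≤ L')
    (hN : L ≤ N) (hN' : L' ≤ N) {ρ : Fin N → ℤ} (hρ : Antitone ρ)
    (hmem : ρ ∈ W (chi N lam mu)) :
    ∃ nu tau : ℕ → ℕ, Antitone nu ∧ Antitone tau ∧ (∀ i, L ≤ i → nu i = 0) ∧
      (∀ j, L' ≤ j → tau j = 0) ∧ (∀ i, nu i ≤ L) ∧ (∀ j, tau j ≤ L') ∧
      ∑ i ∈ range L, nu i ≤ ∑ i ∈ range L, lam i ∧ ρ = chi N nu tau := by
  classical
  set nu : ℕ → ℕ := fun i => if h : i < N then (ρ ⟨i, h⟩).toNat else 0 with hnu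
  set tau : ℕ → ℕ := fun j => if h : j < N then (-ρ ⟨N - 1 - j, by omega⟩).toNat else 0 with htau
  have hνa : Antitone nu := by
    intro a b hab
    simp only [hnu]
    split_ifs with h1 h2 h2
    · have := hρ (show (⟨a, h2⟩ : Fin N) ≤ ⟨b, h1⟩ from hab)
      omega
    · omega
    · omega
    · omega
  have hτa : Antitone tau := by
    intro a b hab
    simp only [htau]
    split_ifs with h1 h2 h2
    · have := hρ (show (⟨N - 1 - b, by omega⟩ : Fin N) ≤ ⟨N - 1 - a, by omega⟩ from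
        Nat.sub_le_sub_left hab _)
      omega
    · omega
    · omega
    · omega
  have hν0 : ∀ i, N ≤ i → nu i = 0 := by
    intro i hi; simp only [hnu]; rw [dif_neg (by omega)]
  have hτ0 : ∀ i, N ≤ i → tau i = 0 := by
    intro i hi; simp only [htau]; rw [dif_neg (by omega)]
  have hform : ρ = chi N nu tau := by
    ext i
    simp only [chi, hnu, htau]
    have hi := i.isLt
    rw [dif_pos hi, dif_pos (show N - 1 - (i : ℕ) < N by omega)]
    have e : (⟨N - 1 - (N - 1 - (i : ℕ)), by omega⟩ : Fin N) = i := by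
      ext; show N - 1 - (N - 1 - (i : ℕ)) = i; omega
    rw [e]
    have : (⟨(i : ℕ), hi⟩ : Fin N) = i := rfl
    rw [this]
    omega
  -- total size of nu
  have hνsum : ∑ i ∈ range N, nu i ≤ ∑ i ∈ range L, lam i := by
    have e1 : ((∑ i ∈ range N, nu i : ℕ) : ℤ) = ∑ i ∈ univ.filter (fun i => 0 < ρ i), ρ i := by
      rw [Finset.sum_range, Finset.sum_filter]
      push_cast
      refine Finset.sum_congr rfl fun i _ => ?_
      simp only [hnu]
      rw [dif_pos i.isLt]
      have : (⟨(i : ℕ), i.isLt⟩ : Fin N) = i := rfl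
      rw [this]
      split_ifs <;> omega
    have e2 := hmem.2 (univ.filter (fun i => 0 < ρ i))
    rw [← e1] at e2
    have e3 : csum (chi N lam mu) (univ.filter (fun i => 0 < ρ i)).card ≤
        ((∑ i ∈ range L, lam i : ℕ) : ℤ) := by
      rw [← sum_ext_range hlL hN, Finset.sum_range]
      push_cast
      unfold csum
      refine (Finset.sum_le_sum (g := fun i : Fin N => (lam i : ℤ)) fun i _ => ?_).trans ?_
      · simp only [chi]; omega
      · exact Finset.sum_le_sum_of_subset_of_nonneg (Finset.subset_univ _)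
          (fun _ _ _ => by positivity)
    exact_mod_cast e2.trans e3
  have hτsum : ∑ i ∈ range N, tau i ≤ ∑ i ∈ range L', mu i := by
    set S := univ.filter (fun i => ¬ (ρ i < 0)) with hS
    have e1 : ((∑ i ∈ range N, tau i : ℕ) : ℤ) = -∑ i ∈ univ.filter (fun i => ρ i < 0), ρ i := by
      rw [← Finset.sum_range_reflect, Finset.sum_range, Finset.sum_filter]
      push_cast
      rw [← Finset.sum_neg_distrib]
      refine Finset.sum_congr rfl fun i _ => ?_
      simp only [htau]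
      have hi := i.isLt
      rw [dif_pos (show N - 1 - (i : ℕ) < N by omega)]
      have e : (⟨N - 1 - (N - 1 - (i : ℕ)), by omega⟩ : Fin N) = i := by
        ext; show N - 1 - (N - 1 - (i : ℕ)) = i; omega
      rw [e]
      split_ifs <;> omega
    have e2 := hmem.2 S
    have e3 := Finset.sum_filter_add_sum_filter_not univ (fun i => ρ i < 0) ρ
    rw [hmem.1] at e3
    have e4 := Finset.sum_filter_add_sum_filter_not univ (fun i : Fin N => i.val < S.card)
      (chi N lam mu)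
    have e5 : -∑ i ∈ univ.filter (fun i : Fin N => ¬ (i.val < S.card)), chi N lam mu i ≤
        ((∑ i ∈ range L', mu i : ℕ) : ℤ) := by
      rw [← sum_ext_range hμL hN', ← Finset.sum_range_reflect, Finset.sum_range]
      push_cast
      rw [← Finset.sum_neg_distrib]
      refine (Finset.sum_le_sum (g := fun i : Fin N => (mu (N - 1 - i) : ℤ)) fun i _ => ?_).trans ?_
      · simp only [chi]; omega
      · exact Finset.sum_le_sum_of_subset_of_nonneg (Finset.subset_univ _)
          (fun _ _ _ => by positivity)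
    unfold csum at e2
    have : ((∑ i ∈ range N, tau i : ℕ) : ℤ) ≤ ((∑ i ∈ range L', mu i : ℕ) : ℤ) := by
      rw [e1]
      linarith
    exact_mod_cast this
  obtain ⟨a1, a2⟩ := small_rows hνa (hνsum.trans hls) hν0
  obtain ⟨b1, b2⟩ := small_rows hτa (hτsum.trans hms) hτ0
  refine ⟨nu, tau, hνa, hτa, a1, b1, a2, b2, ?_, hform⟩
  rw [← sum_ext_range a1 hN]
  exact hνsum

/-! ### the ideal -/

lemma ZZ_coeff {N : ℕ} {k : K} {χ : Fin N → ℤ} (hχ : Antitone χ) {z : Lau K N}
    (hz : z ∈ ZZ k χ) : z.coeff χ = 0 := by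
  have hle : ZZ k χ ≤ AddMonoidAlgebra.supported K K {η : Fin N → ℤ | η ≠ χ} := by
    refine iSup_le fun ρ => ?_
    intro f hf
    rw [AddMonoidAlgebra.mem_supported']
    intro m hm
    simp only [ne_eq, Set.mem_ofPred_eq, not_not] at hm
    subst hm
    by_contra hne
    have h1 : m ∈ W ρ.1 := by
      by_contra hcon
      exact hne (AddMonoidAlgebra.mem_supported'.1 hf.1.1 _ hcon)
    have h2 := cc_le ρ.2.1 hχ h1
    have h3 := cc_lt hχ ρ.2.1 ρ.2.2.1 ρ.2.2.2
    omega
  have := AddMonoidAlgebra.mem_supported'.1 (hle hz) χ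
  exact this (by simp)

/-- the ideal of admissible denominators -/
def Aid (k : K) (lam mu : ℕ → ℕ) : Ideal K[X] where
  carrier := {a | ∃ J : MvPolynomial ℤ K, ∃ N0 : ℕ, ∀ N ≥ N0,
    phi K N J ∈ Eig k (chi N lam mu) ∧ (phi K N J).coeff (chi N lam mu) = a.eval (N : K)}
  zero_mem' := ⟨0, 0, fun N _ => by simp⟩
  add_mem' := by
    rintro a b ⟨J, N0, hJ⟩ ⟨J', N0', hJ'⟩
    refine ⟨J + J', max N0 N0', fun N hN => ?_⟩
    have h1 := hJ N ((le_max_left _ _).trans hN)
    have h2 := hJ' N ((le_max_right _ _).trans hN)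
    rw [map_add]
    exact ⟨add_mem h1.1 h2.1, by
      rw [AddMonoidAlgebra.coeff_add, Finsupp.add_apply, h1.2, h2.2, eval_add]⟩
  smul_mem' := by
    rintro r a ⟨J, N0, hJ⟩
    refine ⟨sc K r * J, N0, fun N hN => ?_⟩
    have h1 := hJ N hN
    rw [phi_sc]
    exact ⟨Submodule.smul_mem _ _ h1.1, by
      rw [AddMonoidAlgebra.coeff_smul, Finsupp.smul_apply, h1.2, smul_eq_mul, smul_eq_mul,
        eval_mul]⟩

/-- If a list of operators kills every lower weight then its top eigenvalue is in the ideal. -/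
lemma mem_Aid [CharZero K] {k : K} (hk : ∀ q : ℚ, (q : K) ≠ k) {L L' : ℕ} {lam mu : ℕ → ℕ}
    (hla : Antitone lam) (hmu : Antitone mu)
    (hlL : ∀ i, L ≤ i → lam i = 0) (hμL : ∀ j, L' ≤ j → mu j = 0)
    (hls : ∑ i ∈ range L, lam i ≤ L) (hms : ∑ i ∈ range L', mu i ≤ L')
    (ops : List (K[X][X] × K[X]))
    (hops : ∀ nu tau : ℕ → ℕ, Antitone nu → Antitone tau → (∀ i, L ≤ i → nu i = 0) →
      (∀ j, L' ≤ j → tau j = 0) → (∀ i, nu i ≤ L) → (∀ j, tau j ≤ L') →
      ∑ i ∈ range L, nu i ≤ ∑ i ∈ range L, lam i → ¬ (nu = lam ∧ tau = mu) →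
      ∃ op ∈ ops, Lam (blist (C k) X L L' nu tau) op.1 + op.2 = 0) :
    (ops.map fun op => Lam (blist (C k) X L L' lam mu) op.1 + op.2).prod ∈ Aid k lam mu := by
  obtain ⟨u0, hu0⟩ := exists_lead (K := K) hla hmu hlL hμL
  obtain ⟨J, hJ⟩ := ops_stable k ops u0
  refine ⟨J, L + L' + 1, fun N hN => ?_⟩
  have hχ : Antitone (chi N lam mu) := chi_antitone hla hmu
  obtain ⟨h1, h2⟩ := hu0 N (by omega) (by omega)
  obtain ⟨f0, hf0, z, hz, hfz⟩ := Submodule.mem_sup.1 (VV_le hk _ _ hχ rfl h1)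
  have hz0 : opsE k N ops z = 0 := by
    have hle : ZZ k (chi N lam mu) ≤ LinearMap.ker (opsE k N ops) := by
      refine iSup_le fun ρ => ?_
      intro f hf
      rw [LinearMap.mem_ker]
      obtain ⟨nu, tau, c1, c2, c3, c4, c5, c6, c7, c8⟩ := dominated_form hlL hμL hls hms
        (by omega) (by omega) ρ.2.1 ρ.2.2.1
      have hne : ¬ (nu = lam ∧ tau = mu) := by
        rintro ⟨rfl, rfl⟩
        exact ρ.2.2.2 c8
      obtain ⟨op, hop, hop0⟩ := hops nu tau c1 c2 c3 c4 c5 c6 c7 hne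
      rw [c8] at hf
      rw [opsE_chi hk c1 c2 c3 c4 hN hf]
      have : (ops.map fun op => Lam (blist (C k) X L L' nu tau) op.1 + op.2).prod = 0 := by
        apply List.prod_eq_zero
        rw [List.mem_map]
        exact ⟨op, hop, hop0⟩
      rw [this]; simp
    exact hle hz
  have hfin : phi K N J = ((ops.map fun op =>
      Lam (blist (C k) X L L' lam mu) op.1 + op.2).prod.eval (N : K)) • f0 := by
    rw [← hJ, ← hfz, map_add, hz0, add_zero, opsE_chi hk hla hmu hlL hμL hN hf0]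
  rw [hfin]
  refine ⟨Submodule.smul_mem _ _ hf0, ?_⟩
  have h3 : f0.coeff (chi N lam mu) = 1 := by
    have := congrArg (fun f => AddMonoidAlgebra.coeff f (chi N lam mu)) hfz
    simp only [AddMonoidAlgebra.coeff_add, Finsupp.add_apply] at this
    rw [ZZ_coeff hχ hz, add_zero, h2] at this
    exact this
  rw [AddMonoidAlgebra.coeff_smul, Finsupp.smul_apply, h3, smul_eq_mul, mul_one]

/-- the product `B` -/
noncomputable def BB (k : K) (L L' : ℕ) (lam mu : ℕ → ℕ) : K[X] :=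
  ∏ i ∈ range (conj L lam 0), ∏ u ∈ range (mu 0), ff k L' lam mu i u

/-- extension by zero -/
def extz {L M : ℕ} (f : Fin L → Fin (M + 1)) : ℕ → ℕ := fun i => if h : i < L then f ⟨i, h⟩ else 0

lemma exists_extz {L M : ℕ} {nu : ℕ → ℕ} (h1 : ∀ i, L ≤ i → nu i = 0) (h2 : ∀ i, nu i ≤ M) :
    ∃ f : Fin L → Fin (M + 1), extz f = nu := by
  refine ⟨fun i => ⟨nu i, by have := h2 i; omega⟩, ?_⟩
  funext i
  unfold extz
  split_ifs with h
  · rfl
  · exact (h1 i (by omega)).symm

/-- local statement at a ring homomorphism to a field -/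
theorem local_main [CharZero K] {k : K} (hk : ∀ q : ℚ, (q : K) ≠ k) {L L' : ℕ} {lam mu : ℕ → ℕ}
    (hla : Antitone lam) (hmu : Antitone mu)
    (hlL : ∀ i, L ≤ i → lam i = 0) (hμL : ∀ j, L' ≤ j → mu j = 0)
    (hls : ∑ i ∈ range L, lam i ≤ L) (hms : ∑ i ∈ range L', mu i ≤ L')
    {κ : Type*} [Field κ] [CharZero κ] (φ : K[X] →+* κ) (hφ : ∀ q : ℚ, (q : κ) ≠ φ (C k)) :
    ∃ s : K[X], φ s ≠ 0 ∧ s * BB k L L' lam mu ∈ Aid k lam mu := by
  classical
  have hl := (small_rows hla hls hlL).2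
  have hμ := (small_rows hmu hms hμL).2
  set lt : (ℕ → ℕ) → (ℕ → ℕ) → List (K[X] × K[X]) := fun nu tau => blist (C k) X L L' nu tau
    with hlt
  -- index set of the bipartitions
  let P := (Fin L → Fin (L + 1)) × (Fin L' → Fin (L' + 1))
  let 𝒩 : Finset P := univ.filter (fun p => ∃ n : ℕ,
    φ (Lam (lt lam mu) (X ^ n) - Lam (lt (extz p.1) (extz p.2)) (X ^ n)) ≠ 0)
  have hch : ∀ p : P, ∃ n : ℕ, p ∈ 𝒩 →
      φ (Lam (lt lam mu) (X ^ n) - Lam (lt (extz p.1) (extz p.2)) (X ^ n)) ≠ 0 := by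
    intro p
    by_cases hp : p ∈ 𝒩
    · obtain ⟨n, hn⟩ := (mem_filter.1 hp).2
      exact ⟨n, fun _ => hn⟩
    · exact ⟨0, fun h => absurd h hp⟩
  choose nn hnn using hch
  let 𝒞 : Finset ℕ := (range L).filter (fun i0 => lam (i0 + 1) < lam i0 ∧
    ∃ i u, lam i = lam i0 ∧ u < mu 0 ∧ φ (ff k L' lam mu i u) = 0)
  have hch2 : ∀ i0 : ℕ, ∃ iu : ℕ × ℕ, i0 ∈ 𝒞 → lam iu.1 = lam i0 ∧ iu.2 < mu 0 ∧
      φ (ff k L' lam mu iu.1 iu.2) = 0 := by
    intro i0
    by_cases hp : i0 ∈ 𝒞
    · obtain ⟨_, i, u, h⟩ := (mem_filter.1 hp).2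
      exact ⟨(i, u), fun _ => h⟩
    · exact ⟨(0, 0), fun h => absurd h hp⟩
  choose iu hiu using hch2
  let ops : List (K[X][X] × K[X]) :=
    𝒩.toList.map (fun p => ((X : K[X][X]) ^ nn p, -Lam (lt (extz p.1) (extz p.2)) (X ^ nn p))) ++
      𝒞.toList.map (fun i0 => (qc k L L' L L' lam i0, (0 : K[X])))
  have hmem := mem_Aid hk hla hmu hlL hμL hls hms ops (by
    intro nu tau c1 c2 c3 c4 c5 c6 c7 hne
    obtain ⟨f, hf⟩ := exists_extz c3 c5
    obtain ⟨g, hg⟩ := exists_extz c4 c6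
    by_cases hN : (⟨f, g⟩ : P) ∈ 𝒩
    · refine ⟨_, List.mem_append_left _ (List.mem_map.2 ⟨(⟨f, g⟩ : P), Finset.mem_toList.2 hN,
        rfl⟩), ?_⟩
      simp only [hlt, hf, hg]
      exact add_neg_cancel _
    · have heq : ∀ n : ℕ, φ (Lam (lt nu tau) (X ^ n)) = φ (Lam (lt lam mu) (X ^ n)) := by
        intro n
        by_contra hcon
        apply hN
        rw [mem_filter]
        refine ⟨mem_univ _, n, ?_⟩
        rw [map_sub, hf, hg]
        exact sub_ne_zero.2 (Ne.symm hcon)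
      have hfun : ∀ q : κ[X], Lam (blist (φ (C k)) (φ X) L L' nu tau) q =
          Lam (blist (φ (C k)) (φ X) L L' lam mu) q := by
        intro q
        rw [Lam_eq_sum, Lam_eq_sum (blist (φ (C k)) (φ X) L L' lam mu)]
        have hb : ∀ (nu tau : ℕ → ℕ) (n : ℕ), Lam (blist (φ (C k)) (φ X) L L' nu tau) (X ^ n) =
            φ (Lam (lt nu tau) (X ^ n)) := by
          intro nu tau n
          rw [← Lam_map, hlt, blist_map]
          simp
        simp only [hb, heq]
      obtain ⟨i0, i, u, d1, d2, d3, d4, d5⟩ := comb hφ c1 c2 hla hmu c3 c4 hlL hμL c7 hne hfun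
      have hi0 : i0 < L := by
        by_contra hcon
        rw [hlL i0 (not_lt.1 hcon)] at d1
        omega
      have hC : i0 ∈ 𝒞 := by
        rw [mem_filter, mem_range]
        refine ⟨hi0, d1, i, u, d2, d3, ?_⟩
        rw [ff]
        simpa using d4
      refine ⟨_, List.mem_append_right _ (List.mem_map.2 ⟨i0, Finset.mem_toList.2 hC, rfl⟩), ?_⟩
      simp only [add_zero]
      exact Lam_kill _ (qc_kill k c5 c6 d5))
  have hprod : (ops.map fun op => Lam (blist (C k) X L L' lam mu) op.1 + op.2).prod =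
      (∏ p ∈ 𝒩, (Lam (lt lam mu) (X ^ nn p) - Lam (lt (extz p.1) (extz p.2)) (X ^ nn p))) *
        ∏ i0 ∈ 𝒞, Lam (lt lam mu) (qc k L L' L L' lam i0) := by
    simp only [ops, List.map_append, List.map_map, List.prod_append]
    congr 1
    · rw [← Finset.prod_map_toList]
      congr 1
    · rw [← Finset.prod_map_toList]
      congr 1
      apply List.map_congr_left
      intro a _
      simp [hlt]
  rw [hprod] at hmem
  -- the corners
  have hcor : ∀ i0 ∈ 𝒞, ∃ s : K[X], φ s ≠ 0 ∧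
      Lam (lt lam mu) (qc k L L' L L' lam i0) ∣ s * ff k L' lam mu (iu i0).1 (iu i0).2 := by
    intro i0 hi0
    obtain ⟨e1, e2, e3⟩ := hiu i0 hi0
    rw [mem_filter, mem_range] at hi0
    exact corner_main k φ hφ hla hmu hl hμ hμL hi0.1 hi0.2.1 e1 e2 e3
  choose! ss hss1 hss2 using hcor
  set s1 := ∏ p ∈ 𝒩, (Lam (lt lam mu) (X ^ nn p) - Lam (lt (extz p.1) (extz p.2)) (X ^ nn p))
    with hs1
  have hs1' : φ s1 ≠ 0 := by
    rw [hs1, map_prod, Finset.prod_ne_zero_iff]
    intro p hp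
    exact hnn p hp
  have hs2' : φ (∏ i0 ∈ 𝒞, ss i0) ≠ 0 := by
    rw [map_prod, Finset.prod_ne_zero_iff]
    intro p hp
    exact hss1 p hp
  have hBdvd : ∏ i0 ∈ 𝒞, ff k L' lam mu (iu i0).1 (iu i0).2 ∣ BB k L L' lam mu := by
    have e1 : ∏ i0 ∈ 𝒞, ff k L' lam mu (iu i0).1 (iu i0).2 =
        ∏ x ∈ 𝒞.image iu, ff k L' lam mu x.1 x.2 := by
      rw [Finset.prod_image]
      intro a ha b hb hab
      have ha' := hiu a ha
      have hb' := hiu b hb
      have ha2 := (mem_filter.1 ha).2.1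
      have hb2 := (mem_filter.1 hb).2.1
      have hlab : lam a = lam b := by rw [← ha'.1, ← hb'.1, hab]
      rcases lt_trichotomy a b with h | h | h
      · have := hla (show a + 1 ≤ b by omega); omega
      · exact h
      · have := hla (show b + 1 ≤ a by omega); omega
    rw [e1, BB, ← Finset.prod_product' (range (conj L lam 0)) (range (mu 0))
      (fun i u => ff k L' lam mu i u)]
    apply Finset.prod_dvd_prod_of_subset
    intro x hx
    rw [mem_image] at hx
    obtain ⟨i0, hi0, rfl⟩ := hx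
    obtain ⟨e1, e2, e3⟩ := hiu i0 hi0
    have hi0' := (mem_filter.1 hi0).2.1
    rw [mem_product, mem_range, mem_range, lt_conj hla hlL]
    exact ⟨by omega, e2⟩
  have hdvd : s1 * ∏ i0 ∈ 𝒞, Lam (lt lam mu) (qc k L L' L L' lam i0) ∣
      (s1 * ∏ i0 ∈ 𝒞, ss i0) * BB k L L' lam mu := by
    rw [mul_assoc]
    refine mul_dvd_mul_left _ ?_
    refine (Finset.prod_dvd_prod_of_dvd _ _ hss2).trans ?_
    rw [Finset.prod_mul_distrib]
    exact mul_dvd_mul_left _ hBdvd
  refine ⟨s1 * ∏ i0 ∈ 𝒞, ss i0, ?_, ?_⟩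
  · rw [map_mul]; exact mul_ne_zero hs1' hs2'
  · exact Ideal.mem_of_dvd _ hdvd hmem

/-- **Main theorem, ideal form**: `B` is an admissible denominator. -/
theorem BB_mem [CharZero K] {k : K} (hk : ∀ q : ℚ, (q : K) ≠ k) {L L' : ℕ} {lam mu : ℕ → ℕ}
    (hla : Antitone lam) (hmu : Antitone mu)
    (hlL : ∀ i, L ≤ i → lam i = 0) (hμL : ∀ j, L' ≤ j → mu j = 0)
    (hls : ∑ i ∈ range L, lam i ≤ L) (hms : ∑ i ∈ range L', mu i ≤ L') :
    BB k L L' lam mu ∈ Aid k lam mu := by
  let J : Ideal K[X] := {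
    carrier := {s | s * BB k L L' lam mu ∈ Aid k lam mu}
    zero_mem' := by simp
    add_mem' := by
      intro a b ha hb
      simp only [Set.mem_ofPred_eq, add_mul] at *
      exact add_mem ha hb
    smul_mem' := by
      intro r a ha
      simp only [Set.mem_ofPred_eq, smul_eq_mul, mul_assoc] at *
      exact Ideal.mul_mem_left _ _ ha }
  by_contra hcon
  have hJ : J ≠ ⊤ := by
    intro h
    have : (1 : K[X]) ∈ J := by rw [h]; trivial
    have h1 : (1 : K[X]) * BB k L L' lam mu ∈ Aid k lam mu := this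
    rw [one_mul] at h1
    exact hcon h1
  obtain ⟨m, hm, hJm⟩ := Ideal.exists_le_maximal J hJ
  let _ : Field (K[X] ⧸ m) := Ideal.Quotient.field m
  have hinj : Function.Injective ((Ideal.Quotient.mk m).comp (C : K →+* K[X])) :=
    RingHom.injective _
  have : CharZero (K[X] ⧸ m) := charZero_of_injective_ringHom hinj
  obtain ⟨s, hs, hsB⟩ := local_main hk hla hmu hlL hμL hls hms (Ideal.Quotient.mk m) (by
    intro q hq
    apply hk q
    apply hinj
    rw [map_ratCast]
    exact hq)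
  apply hs
  rw [Ideal.Quotient.eq_zero_iff_mem]
  exact hJm hsB

end H83JL
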