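import Mathlib

/-! Laurent polynomials, divided differences, Heckman-Dunkl operators. -/

namespace H83JL

open Finset AddMonoidAlgebra

/-- The ring `K[x₀^{±1},…,x_{N-1}^{±1}]` of Laurent polynomials; `x^η` is `single η 1`. -/
abbrev Lau (K : Type*) [Field K] (N : ℕ) : Type _ := AddMonoidAlgebra K (Fin N → ℤ)

variable {K : Type*} [Field K] {N : ℕ}

/-- The power `x_i ^ a` as a Laurent polynomial. -/
noncomputable def xp (K : Type*) [Field K] {N : ℕ} (i : Fin N) (a : ℤ) : Lau K N :=
  single (Pi.single i a) 1

/-- A linear map given on monomials. -/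
noncomputable def onMon (F : (Fin N → ℤ) → Lau K N) : Lau K N →ₗ[K] Lau K N :=
  (Finsupp.linearCombination K F) ∘ₗ (coeffLinearEquiv K).toLinearMap

lemma onMon_single (F : (Fin N → ℤ) → Lau K N) (η : Fin N → ℤ) (c : K) :
    onMon F (single η c) = c • F η := by
  simp [onMon]

lemma lin_ext {M : Type*} [AddCommMonoid M] [Module K M] {A B : Lau K N →ₗ[K] M}
    (h : ∀ η, A (single η 1) = B (single η 1)) : A = B := by
  apply LinearMap.ext
  intro f
  induction f using AddMonoidAlgebra.induction_linear with
  | zero => simp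
  | add f g hf hg => simp [hf, hg]
  | single η c =>
    have : (single η c : Lau K N) = c • single η 1 := by simp
    rw [this, map_smul, map_smul, h]

/-- The Euler operator `x_i ∂/∂x_i`. -/
noncomputable def euler (i : Fin N) : Lau K N →ₗ[K] Lau K N :=
  onMon (fun η => single η ((η i : ℤ) : K))

@[simp] lemma euler_single (i : Fin N) (η : Fin N → ℤ) (c : K) :
    euler i (single η c) = single η (c * (η i : K)) := by
  rw [euler, onMon_single]; simp

lemma euler_coeff (i : Fin N) (f : Lau K N) (η : Fin N → ℤ) :
    (euler i f).coeff η = (η i : K) * f.coeff η := by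
  induction f using AddMonoidAlgebra.induction_linear with
  | zero => simp
  | add f g hf hg => simp [hf, hg, mul_add]
  | single ζ c =>
    rw [euler_single]
    classical
    simp only [coeff_single, Finsupp.single_apply]
    split_ifs with h
    · rw [h]; ring
    · simp

lemma euler_mul (i : Fin N) (f g : Lau K N) :
    euler i (f * g) = euler i f * g + f * euler i g := by
  induction f using AddMonoidAlgebra.induction_linear with
  | zero => simp
  | add f f' hf hf' => simp only [add_mul, map_add, hf, hf']; ring
  | single ζ c =>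
    induction g using AddMonoidAlgebra.induction_linear with
    | zero => simp
    | add f f' hf hf' => simp only [mul_add, map_add, hf, hf']; ring
    | single η d =>
      simp only [euler_single, single_mul_single, ← single_add]
      congr 1
      simp only [Pi.add_apply, Int.cast_add]
      ring

/-- Reindexing of exponents. -/
def reidx (σ : Equiv.Perm (Fin N)) : (Fin N → ℤ) →+ (Fin N → ℤ) where
  toFun η := fun i => η (σ⁻¹ i)
  map_zero' := rfl
  map_add' _ _ := rfl

/-- The action of a permutation: `x_i ↦ x_{σ i}`. -/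
noncomputable def perm (σ : Equiv.Perm (Fin N)) : Lau K N →ₐ[K] Lau K N :=
  mapDomainAlgHom K K (reidx σ)

@[simp] lemma perm_single (σ : Equiv.Perm (Fin N)) (η : Fin N → ℤ) (c : K) :
    perm σ (single η c) = single (fun i => η (σ⁻¹ i)) c := by
  simp [perm, reidx]

lemma perm_mul (σ τ : Equiv.Perm (Fin N)) (f : Lau K N) :
    perm (σ * τ) f = perm σ (perm τ f) := by
  have : (perm (σ * τ)).toLinearMap = (perm σ).toLinearMap ∘ₗ (perm (K := K) τ).toLinearMap := by
    apply lin_ext
    intro η
    simp [mul_inv_rev]
  exact LinearMap.congr_fun this f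

lemma perm_one (f : Lau K N) : perm 1 f = f := by
  have : (perm 1).toLinearMap = (LinearMap.id : Lau K N →ₗ[K] Lau K N) := by
    apply lin_ext
    intro η
    simp
  exact LinearMap.congr_fun this f

lemma perm_coeff (σ : Equiv.Perm (Fin N)) (f : Lau K N) (η : Fin N → ℤ) :
    (perm σ f).coeff η = f.coeff (fun i => η (σ i)) := by
  induction f using AddMonoidAlgebra.induction_linear with
  | zero => simp
  | add f g hf hg => simp [hf, hg]
  | single ζ c =>
    classical
    rw [perm_single]
    simp only [coeff_single, Finsupp.single_apply]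
    have : ((fun i => ζ (σ⁻¹ i)) = η) ↔ (ζ = fun i => η (σ i)) := by
      constructor
      · rintro rfl; ext i; simp
      · rintro rfl; ext i; simp
    simp only [this]

lemma perm_xp (σ : Equiv.Perm (Fin N)) (i : Fin N) (a : ℤ) :
    perm σ (xp K i a) = xp K (σ i) a := by
  rw [xp, perm_single, xp]
  congr 1
  ext j
  by_cases h : j = σ i
  · subst h; simp
  · have : σ⁻¹ j ≠ i := by
      intro h'; apply h; rw [← h']; simp
    rw [Pi.single_eq_of_ne this, Pi.single_eq_of_ne h]

lemma perm_euler (σ : Equiv.Perm (Fin N)) (i : Fin N) (f : Lau K N) :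
    perm σ (euler i f) = euler (σ i) (perm σ f) := by
  have : (perm σ).toLinearMap ∘ₗ euler i = euler (σ i) ∘ₗ (perm (K := K) σ).toLinearMap := by
    apply lin_ext
    intro η
    simp
  exact LinearMap.congr_fun this f

lemma perm_swap_swap (i j : Fin N) (f : Lau K N) :
    perm (Equiv.swap i j) (perm (Equiv.swap i j) f) = f := by
  rw [← perm_mul, Equiv.swap_mul_self, perm_one]

/-- The exponent `η - s (e_i - e_j)`. -/
def stp (i j : Fin N) (s : ℤ) (η : Fin N → ℤ) : Fin N → ℤ :=
  η - Pi.single i s + Pi.single j s

lemma stp_apply (i j : Fin N) (s : ℤ) (η : Fin N → ℤ) (l : Fin N) :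
    stp i j s η l = η l - (if l = i then s else 0) + (if l = j then s else 0) := by
  simp [stp, Pi.single_apply]

/-- the swapped exponent -/
def swp (i j : Fin N) (η : Fin N → ℤ) : Fin N → ℤ := fun l => η (Equiv.swap i j l)

/-- The divided difference of a monomial. -/
noncomputable def DDmon (K : Type*) [Field K] {N : ℕ} (i j : Fin N) (η : Fin N → ℤ) : Lau K N :=
  if η j ≤ η i then ∑ s ∈ range (η i - η j).toNat, single (stp i j s η) 1
  else - ∑ s ∈ range (η j - η i).toNat, single (stp i j s (swp i j η)) 1

/-- The divided difference operator `f ↦ x_i (f - s_ij f)/(x_i - x_j)`. -/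
noncomputable def DD (i j : Fin N) : Lau K N →ₗ[K] Lau K N := onMon (DDmon K i j)

@[simp] lemma DD_single (i j : Fin N) (η : Fin N → ℤ) :
    DD i j (single η 1 : Lau K N) = DDmon K i j η := by
  rw [DD, onMon_single, one_smul]

lemma xp_mul_stp (i j : Fin N) (s : ℤ) (η : Fin N → ℤ) :
    xp K j 1 * single (stp i j s η) 1 = xp K i 1 * single (stp i j (s + 1) η) 1 := by
  rw [xp, xp, single_mul_single, single_mul_single]
  congr 1
  ext l
  simp only [Pi.add_apply, stp_apply, Pi.single_apply]
  split_ifs <;> ring

lemma tele (i j : Fin N) (η : Fin N → ℤ) (n : ℕ) :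
    (xp K i 1 - xp K j 1) * ∑ s ∈ range n, single (stp i j s η) 1 =
      xp K i 1 * (single η 1 - single (stp i j n η) 1) := by
  induction n with
  | zero => simp [stp]
  | succ n ih =>
    rw [sum_range_succ, mul_add, ih, sub_mul, xp_mul_stp]
    push_cast
    ring

lemma DDmon_spec {i j : Fin N} (hij : i ≠ j) (η : Fin N → ℤ) :
    (xp K i 1 - xp K j 1) * DDmon K i j η =
      xp K i 1 * (single η 1 - perm (Equiv.swap i j) (single η 1)) := by
  rw [perm_single, Equiv.swap_inv]
  unfold DDmon
  split_ifs with h
  · rw [tele]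
    congr 3
    ext l
    have h1 : ((η i - η j).toNat : ℤ) = η i - η j := Int.toNat_of_nonneg (by omega)
    rw [stp_apply, h1, Equiv.swap_apply_def]
    split_ifs with h2 h3 h4
    · exact absurd (h2.symm.trans h3) hij
    · subst h2; ring
    · subst h4; ring
    · ring
  · rw [mul_neg, tele, ← mul_neg]
    congr 1
    rw [neg_sub]
    congr 2
    ext l
    have h1 : ((η j - η i).toNat : ℤ) = η j - η i := Int.toNat_of_nonneg (by omega)
    rw [stp_apply, h1, swp, Equiv.swap_apply_def]
    split_ifs with h2 h3 h4
    · exact absurd (h2.symm.trans h3) hij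
    · subst h2; ring
    · subst h4; ring
    · ring

lemma DD_spec {i j : Fin N} (hij : i ≠ j) (f : Lau K N) :
    (xp K i 1 - xp K j 1) * DD i j f = xp K i 1 * (f - perm (Equiv.swap i j) f) := by
  have : (LinearMap.mulLeft K (xp K i 1 - xp K j 1)) ∘ₗ DD i j =
      (LinearMap.mulLeft K (xp K i 1)) ∘ₗ
        (LinearMap.id - (perm (K := K) (Equiv.swap i j)).toLinearMap) := by
    apply lin_ext
    intro η
    simp only [LinearMap.coe_comp, Function.comp_apply, LinearMap.mulLeft_apply, DD_single,
      DDmon_spec hij, LinearMap.sub_apply, LinearMap.id_apply, AlgHom.toLinearMap_apply]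
  exact LinearMap.congr_fun this f

lemma xp_sub_ne {i j : Fin N} (hij : i ≠ j) : (xp K i 1 - xp K j 1 : Lau K N) ≠ 0 := by
  intro h
  have h1 := congrArg (fun f : Lau K N => f.coeff (Pi.single i 1)) h
  classical
  have h2 : (Pi.single j 1 : Fin N → ℤ) ≠ Pi.single i 1 := by
    intro h3
    have := congrFun h3 i
    simp [hij] at this
  simp [xp, coeff_single, h2] at h1

lemma cancel {i j : Fin N} (hij : i ≠ j) {f g : Lau K N}
    (h : (xp K i 1 - xp K j 1) * f = (xp K i 1 - xp K j 1) * g) : f = g :=
  mul_left_cancel₀ (xp_sub_ne hij) h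

end H83JL
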