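import Pool.Agent.H83JL.Stab

/-! Injectivity of the specialisation for large `N`. -/

namespace H83JL

open Finset

variable {K : Type*} [Field K]

/-- number of ways to write `η` -/
def cnt {N : ℕ} : List ℤ → (Fin N → ℤ) → ℕ
  | [] => fun η => if η = 0 then 1 else 0
  | b :: l => fun η => ∑ i, cnt l (η - Pi.single i b)

/-- multiset of nonzero coordinates -/
def nz {N : ℕ} (η : Fin N → ℤ) : Multiset ℤ := ∑ i, (if η i = 0 then 0 else {η i})

lemma coeff_xp_mul {N : ℕ} (i : Fin N) (b : ℤ) (f : Lau K N) (η : Fin N → ℤ) :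
    (xp K i b * f).coeff η = f.coeff (η - Pi.single i b) := by
  rw [xp, AddMonoidAlgebra.coeff_single_mul_apply, one_mul]
  congr 1
  ext l; simp; ring

lemma coeff_prod {N : ℕ} (l : List ℤ) (η : Fin N → ℤ) :
    ((l.map (psum K N)).prod).coeff η = (cnt l η : K) := by
  induction l generalizing η with
  | nil =>
    simp only [List.map_nil, List.prod_nil, cnt]
    rw [AddMonoidAlgebra.one_def, AddMonoidAlgebra.coeff_single, Finsupp.single_apply]
    simp only [eq_comm]
    split_ifs <;> simp
  | cons b l ih =>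
    rw [List.map_cons, List.prod_cons, psum, Finset.sum_mul, AddMonoidAlgebra.coeff_sum,
      Finset.sum_apply', cnt]
    push_cast
    exact Finset.sum_congr rfl fun i _ => by rw [coeff_xp_mul, ih]

lemma nz_split {N : ℕ} (η : Fin N → ℤ) (i : Fin N) (b : ℤ) :
    ∃ R : Multiset ℤ, nz η = (if η i = 0 then 0 else {η i}) + R ∧
      nz (η - Pi.single i b) = (if η i - b = 0 then 0 else {η i - b}) + R := by
  classical
  refine ⟨∑ j ∈ univ.erase i, (if η j = 0 then 0 else {η j}), ?_, ?_⟩
  · exact (Finset.add_sum_erase univ (fun j => if η j = 0 then (0 : Multiset ℤ) else {η j})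
      (mem_univ i)).symm
  · rw [nz, ← Finset.add_sum_erase univ _ (mem_univ i)]
    congr 1
    · simp
    · refine Finset.sum_congr rfl fun j hj => ?_
      simp only [mem_erase, mem_univ, and_true] at hj
      rw [Pi.sub_apply, Pi.single_eq_of_ne hj, sub_zero]

lemma cnt_ne {N : ℕ} (l : List ℤ) (hl : ∀ b ∈ l, b ≠ 0) (η : Fin N → ℤ) (h : cnt l η ≠ 0) :
    (nz η).card ≤ l.length ∧ ((nz η).card = l.length → nz η = (l : Multiset ℤ)) := by
  induction l generalizing η with
  | nil =>
    simp only [cnt] at h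
    have : η = 0 := by by_contra hc; simp [hc] at h
    subst this
    simp [nz]
  | cons b l ih =>
    simp only [cnt] at h
    obtain ⟨i, _, hi⟩ := Finset.exists_ne_zero_of_sum_ne_zero h
    have hb : b ≠ 0 := hl b (by simp)
    obtain ⟨h1, h2⟩ := ih (fun c hc => hl c (by simp [hc])) _ hi
    obtain ⟨R, hR1, hR2⟩ := nz_split η i b
    rw [hR2] at h1 h2
    rw [hR1]
    by_cases hz : η i - b = 0
    · have hne : η i ≠ 0 := by omega
      rw [if_pos hz, zero_add] at h1 h2
      rw [if_neg hne]
      have hib : η i = b := by omega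
      simp only [Multiset.card_add, Multiset.card_singleton, List.length_cons]
      refine ⟨by omega, fun hcard => ?_⟩
      rw [h2 (by omega), hib]
      rfl
    · rw [if_neg hz] at h1 h2
      simp only [Multiset.card_add, Multiset.card_singleton] at h1
      have : ((if η i = 0 then (0 : Multiset ℤ) else {η i}) + R).card ≤ 1 + R.card := by
        split_ifs <;> simp
      simp only [List.length_cons]
      exact ⟨by omega, fun hcard => by omega⟩

lemma cnt_pos {N : ℕ} (l : List ℤ) (hl : ∀ b ∈ l, b ≠ 0) (η : Fin N → ℤ)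
    (h : nz η = (l : Multiset ℤ)) : 0 < cnt l η := by
  induction l generalizing η with
  | nil =>
    simp only [cnt]
    have : η = 0 := by
      funext i
      by_contra hc
      have hmem : η i ∈ nz η := by
        rw [nz, Multiset.mem_sum]
        exact ⟨i, mem_univ _, by simp only [Pi.zero_apply] at hc; rw [if_neg hc]; simp⟩
      rw [h] at hmem
      simp at hmem
    simp [this]
  | cons b l ih =>
    have hb : b ≠ 0 := hl b (by simp)
    have hmem : b ∈ nz η := by rw [h]; simp
    rw [nz, Multiset.mem_sum] at hmem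
    obtain ⟨i, _, hi⟩ := hmem
    have hib : η i = b := by
      by_cases h0 : η i = 0
      · rw [if_pos h0] at hi; simp at hi
      · rw [if_neg h0] at hi; simp at hi; exact hi.symm
    simp only [cnt]
    obtain ⟨R, hR1, hR2⟩ := nz_split η i b
    rw [if_pos (by omega), zero_add] at hR2
    rw [if_neg (by omega), h, hib] at hR1
    have hR : R = (l : Multiset ℤ) := by
      have : b ::ₘ (l : Multiset ℤ) = b ::ₘ R := by
        rw [Multiset.cons_coe, hR1]; rfl
      exact ((Multiset.cons_inj_right b).1 this).symm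
    have := ih (fun c hc => hl c (by simp [hc])) (η - Pi.single i b) (by rw [hR2, hR])
    exact Finset.sum_pos' (fun _ _ => Nat.zero_le _) ⟨i, mem_univ _, this⟩

lemma exists_nz {N : ℕ} (l : List ℤ) (hl : ∀ b ∈ l, b ≠ 0) (hN : l.length ≤ N) :
    ∃ η : Fin N → ℤ, nz η = (l : Multiset ℤ) := by
  induction l with
  | nil => exact ⟨0, by simp [nz]⟩
  | cons b l ih =>
    have hb : b ≠ 0 := hl b (by simp)
    simp only [List.length_cons] at hN
    obtain ⟨η, hη⟩ := ih (fun c hc => hl c (by simp [hc])) (by omega)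
    obtain ⟨i, hi⟩ : ∃ i, η i = 0 := by
      by_contra hcon
      push Not at hcon
      have h1 : (nz η).card = N := by
        rw [nz, Multiset.card_sum]
        simp only [hcon, if_false, Multiset.card_singleton]
        simp
      rw [hη] at h1
      simp at h1
      omega
    refine ⟨η + Pi.single i b, ?_⟩
    obtain ⟨R, hR1, hR2⟩ := nz_split (η + Pi.single i b) i b
    simp only [Pi.add_apply, hi, Pi.single_eq_same, zero_add] at hR1
    rw [if_neg hb] at hR1
    rw [add_sub_cancel_right] at hR2
    simp only [Pi.add_apply, hi, Pi.single_eq_same, zero_add, sub_self, if_true] at hR2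
    rw [hR1, ← hR2, hη]
    rfl

/-- the specialisation on `K[p_a : a ≠ 0]` -/
noncomputable def phi' (K : Type*) [Field K] (N : ℕ) :
    MvPolynomial {a : ℤ // a ≠ 0} K →ₐ[K] Lau K N :=
  MvPolynomial.aeval (fun a => psum K N a.1)

/-- exponents of a monomial as a list of integers -/
noncomputable def mlist (m : {a : ℤ // a ≠ 0} →₀ ℕ) : List ℤ :=
  (m.toMultiset.map Subtype.val).toList

lemma mlist_ne (m : {a : ℤ // a ≠ 0} →₀ ℕ) : ∀ b ∈ mlist m, b ≠ 0 := by
  intro b hb
  rw [mlist, Multiset.mem_toList, Multiset.mem_map] at hb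
  obtain ⟨a, _, rfl⟩ := hb
  exact a.2

lemma mlist_inj {m m' : {a : ℤ // a ≠ 0} →₀ ℕ}
    (h : (mlist m : Multiset ℤ) = (mlist m' : Multiset ℤ)) : m = m' := by
  rw [mlist, mlist, Multiset.coe_toList, Multiset.coe_toList] at h
  have h' := Multiset.map_injective Subtype.val_injective h
  classical
  exact Finsupp.ext fun a => by rw [← Finsupp.count_toMultiset m, ← Finsupp.count_toMultiset m', h']

lemma mlist_length (m : {a : ℤ // a ≠ 0} →₀ ℕ) : (mlist m).length = m.degree := by
  rw [mlist, Multiset.length_toList, Multiset.card_map, Finsupp.card_toMultiset]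
  rfl

lemma mlist_prod (N : ℕ) (m : {a : ℤ // a ≠ 0} →₀ ℕ) :
    ((mlist m).map (psum K N)).prod = m.prod fun a e => psum K N a.1 ^ e := by
  rw [← Multiset.prod_coe, ← Multiset.map_coe, mlist, Multiset.coe_toList, Multiset.map_map,
    Finsupp.toMultiset_map, Finsupp.prod_toMultiset, Finsupp.prod_mapDomain_index]
  · rfl
  · intro a; exact pow_zero a
  · intro a m n; exact pow_add a m n

lemma phi'_eq (N : ℕ) (F : MvPolynomial {a : ℤ // a ≠ 0} K) :
    phi' K N F = ∑ m ∈ F.support, F.coeff m • m.prod fun a e => psum K N a.1 ^ e := by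
  rw [phi', MvPolynomial.aeval_def, MvPolynomial.eval₂_eq]
  refine Finset.sum_congr rfl fun m _ => ?_
  rw [Algebra.smul_def]
  rfl

lemma phi'_coeff (N : ℕ) (F : MvPolynomial {a : ℤ // a ≠ 0} K) (η : Fin N → ℤ) :
    (phi' K N F).coeff η = ∑ m ∈ F.support, F.coeff m * (cnt (mlist m) η : K) := by
  rw [phi'_eq, AddMonoidAlgebra.coeff_sum, Finset.sum_apply']
  refine Finset.sum_congr rfl fun m _ => ?_
  rw [← mlist_prod, AddMonoidAlgebra.coeff_smul, Finsupp.smul_apply, coeff_prod, smul_eq_mul]

/-- injectivity for large `N` -/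
theorem phi'_ne_zero [CharZero K] {N : ℕ} {F : MvPolynomial {a : ℤ // a ≠ 0} K} (hF : F ≠ 0)
    (hN : F.totalDegree ≤ N) : phi' K N F ≠ 0 := by
  classical
  have hne : F.support.Nonempty := MvPolynomial.support_nonempty.2 hF
  obtain ⟨m, hm, hmax⟩ := Finset.exists_max_image F.support (fun m => m.degree) hne
  have hdeg : ∀ m' ∈ F.support, m'.degree ≤ F.totalDegree := fun m' hm' =>
    MvPolynomial.le_totalDegree hm'
  obtain ⟨η, hη⟩ := exists_nz (N := N) (mlist m) (mlist_ne m)
    (by rw [mlist_length]; exact (hdeg m hm).trans hN)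
  intro h0
  have h1 : (phi' K N F).coeff η = 0 := by rw [h0]; rfl
  rw [phi'_coeff, Finset.sum_eq_single m] at h1
  · have h2 := cnt_pos (mlist m) (mlist_ne m) η hη
    rcases mul_eq_zero.1 h1 with h3 | h3
    · exact (MvPolynomial.mem_support_iff.1 hm) h3
    · have : cnt (mlist m) η = 0 := by exact_mod_cast h3
      omega
  · intro m' hm' hne'
    by_cases hc : cnt (mlist m') η = 0
    · rw [hc]; simp
    · exfalso
      obtain ⟨h3, h4⟩ := cnt_ne (mlist m') (mlist_ne m') η hc
      rw [hη, Multiset.coe_card] at h3 h4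
      have h5 := hmax m' hm'
      rw [mlist_length, mlist_length] at h3 h4
      exact hne' (mlist_inj (h4 (le_antisymm h3 h5)).symm)
  · intro h; exact absurd hm h

end H83JL
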