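import Pool.Agent.H83JL.Asm
import Pool.Agent.H83JL.Uniq

/-! The second integral is the Calogero-Moser-Sutherland operator. -/

namespace H83JL

open Finset AddMonoidAlgebra

variable {K : Type*} [Field K] {N : ℕ}

/-- eigenfunction of the CMS operator -/
def CMSrel (k : K) (E : K) (P : Lau K N) : Prop :=
  ∃ h : Fin N → Fin N → Lau K N,
    (∀ i j, (xp K i 1 - xp K j 1) * h i j =
      (xp K i 1 + xp K j 1) * (euler i P - euler j P)) ∧
    ∑ i, euler i (euler i P) - k • ∑ i, ∑ j ∈ Ioi i, h i j = E • P

lemma DD_sym_zero {i j : Fin N} (hij : i ≠ j) {f : Lau K N} (hf : Sym f) : DD i j f = 0 := by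
  apply cancel hij
  rw [DD_spec hij, hf, sub_self, mul_zero, mul_zero]

lemma dun_sym (k : K) (i : Fin N) {f : Lau K N} (hf : Sym f) : dun k i f = euler i f := by
  rw [dun_apply, Finset.sum_eq_zero, smul_zero, sub_zero]
  intro j hj
  simp only [mem_erase, mem_univ, and_true] at hj
  exact DD_sym_zero (Ne.symm hj) hf

/-- the symmetrised quotient -/
noncomputable def hh (f : Lau K N) (i j : Fin N) : Lau K N :=
  DD i j (euler i f) + DD j i (euler j f)

lemma hh_spec {i j : Fin N} (hij : i ≠ j) {f : Lau K N} (hf : Sym f) :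
    (xp K i 1 - xp K j 1) * hh f i j = (xp K i 1 + xp K j 1) * (euler i f - euler j f) := by
  have h1 := DD_spec hij (euler i f)
  have h2 := DD_spec hij.symm (euler j f)
  rw [perm_euler, Equiv.swap_apply_left, hf] at h1
  rw [perm_euler, Equiv.swap_apply_left, hf] at h2
  rw [hh]
  linear_combination h1 - h2

lemma sum_offdiag (F : Fin N → Fin N → Lau K N) :
    ∑ i, ∑ j ∈ univ.erase i, F i j = ∑ i, ∑ j ∈ Ioi i, (F i j + F j i) := by
  have h1 : ∀ i : Fin N, ∑ j ∈ univ.erase i, F i j =
      ∑ j, (if i < j then F i j else 0) + ∑ j, (if j < i then F i j else 0) := by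
    intro i
    rw [← Finset.sum_add_distrib, ← Finset.add_sum_erase univ _ (mem_univ i)]
    simp only [lt_irrefl, if_false, add_zero, zero_add]
    refine Finset.sum_congr rfl fun j hj => ?_
    simp only [mem_erase, mem_univ, and_true] at hj
    rcases lt_or_gt_of_ne hj with h | h
    · simp [h, not_lt.2 h.le]
    · simp [h, not_lt.2 h.le]
  simp only [h1, Finset.sum_add_distrib]
  congr 1
  · refine Finset.sum_congr rfl fun i _ => ?_
    rw [← Finset.sum_filter]
    congr 1
    ext j; simp
  · rw [Finset.sum_comm]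
    refine Finset.sum_congr rfl fun i _ => ?_
    rw [← Finset.sum_filter]
    apply Finset.sum_congr _ (fun _ _ => rfl)
    ext j; simp

lemma II_two (k : K) {f : Lau K N} (hf : Sym f) :
    II k N 2 f = ∑ i, euler i (euler i f) - k • ∑ i, ∑ j ∈ Ioi i, hh f i j := by
  rw [II, LinearMap.sum_apply]
  have h1 : ∀ i : Fin N, (dun k i ^ 2) f =
      euler i (euler i f) - k • ∑ j ∈ univ.erase i, DD i j (euler i f) := by
    intro i
    rw [pow_two, Module.End.mul_apply, dun_sym k i hf, dun_apply]
  simp only [h1, Finset.sum_sub_distrib, ← Finset.smul_sum]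
  rw [sum_offdiag (fun i j => DD i j (euler i f))]
  rfl

lemma CMSrel_iff (k E : K) {f : Lau K N} (hf : Sym f) : CMSrel k E f ↔ II k N 2 f = E • f := by
  rw [II_two k hf]
  constructor
  · rintro ⟨h, h1, h2⟩
    rw [← h2]
    congr 2
    refine Finset.sum_congr rfl fun i _ => Finset.sum_congr rfl fun j hj => ?_
    rw [mem_Ioi] at hj
    apply cancel hj.ne
    rw [h1, hh_spec hj.ne hf]
  · intro h
    refine ⟨fun i j => if i = j then 0 else hh f i j, ?_, ?_⟩
    · intro i j
      by_cases hij : i = j
      · subst hij; simp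
      · simp only [if_neg hij]; exact hh_spec hij hf
    · rw [← h]
      congr 2
      refine Finset.sum_congr rfl fun i _ => Finset.sum_congr rfl fun j hj => ?_
      rw [mem_Ioi] at hj
      simp only [if_neg hj.ne]

/-- `(x_1 ⋯ x_N)^a` -/
noncomputable def shf (K : Type*) [Field K] (N : ℕ) (a : ℤ) : Lau K N := single (fun _ => a) 1

lemma shf_coeff (a : ℤ) (f : Lau K N) (η : Fin N → ℤ) :
    (shf K N a * f).coeff η = f.coeff (fun i => η i - a) := by
  rw [shf, coeff_single_mul_apply, one_mul]
  congr 1
  ext l; simp; ring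

lemma shf_ne (a : ℤ) : shf K N a ≠ 0 := by
  rw [shf]; simp

lemma euler_shf (i : Fin N) (a : ℤ) (f : Lau K N) :
    euler i (shf K N a * f) = shf K N a * (euler i f + (a : K) • f) := by
  rw [euler_mul]
  have : euler i (shf K N a) = (a : K) • shf K N a := by
    rw [shf, euler_single]; simp
  rw [this, mul_add, smul_mul_assoc, mul_smul_comm, add_comm]

lemma Sym_shf (a : ℤ) {f : Lau K N} (hf : Sym f) : Sym (shf K N a * f) := by
  intro σ
  rw [map_mul, hf, shf, perm_single]

lemma CMSrel_shf (k E : K) (a : ℤ) (s : ℤ) {f : Lau K N}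
    (hs : ∀ η, f.coeff η ≠ 0 → ∑ i, η i = s) :
    CMSrel k (E + 2 * a * s + N * a ^ 2) (shf K N a * f) ↔ CMSrel k E f := by
  have hsum : ∑ i, euler i f = (s : K) • f := by
    apply AddMonoidAlgebra.ext
    ext η
    rw [coeff_sum, Finset.sum_apply']
    simp only [euler_coeff, coeff_smul, Finsupp.smul_apply, smul_eq_mul]
    rw [← Finset.sum_mul]
    by_cases h0 : f.coeff η = 0
    · rw [h0]; simp
    · rw [← hs η h0]; push_cast; rfl
  have key : ∑ i, euler i (euler i (shf K N a * f)) =
      shf K N a * (∑ i, euler i (euler i f) + (2 * a * s + N * a ^ 2 : K) • f) := by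
    have h1 : ∀ i : Fin N, euler i (euler i (shf K N a * f)) =
        shf K N a * (euler i (euler i f) + (2 * a : K) • euler i f + ((a : K) ^ 2) • f) := by
      intro i
      rw [euler_shf, euler_shf]
      congr 1
      rw [map_add, map_smul, smul_add, smul_smul]
      module
    simp only [h1]
    rw [← Finset.mul_sum]
    congr 1
    rw [Finset.sum_add_distrib, Finset.sum_add_distrib, ← Finset.smul_sum, hsum, Finset.sum_const,
      Finset.card_univ, Fintype.card_fin, ← Nat.cast_smul_eq_nsmul K, smul_smul, smul_smul]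
    module
  have hdiff : ∀ i j : Fin N, euler i (shf K N a * f) - euler j (shf K N a * f) =
      shf K N a * (euler i f - euler j f) := by
    intro i j
    rw [euler_shf, euler_shf]
    ring
  constructor
  · rintro ⟨h, h1, h2⟩
    -- divide by the monomial
    have hinv : shf K N (-a) * shf K N a = 1 := by
      rw [shf, shf, single_mul_single, mul_one, one_def]
      congr 1
      ext i; simp
    refine ⟨fun i j => shf K N (-a) * h i j, ?_, ?_⟩
    · intro i j
      have := h1 i j
      rw [hdiff] at this
      calc (xp K i 1 - xp K j 1) * (shf K N (-a) * h i j)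
          = shf K N (-a) * ((xp K i 1 - xp K j 1) * h i j) := by ring
        _ = (shf K N (-a) * shf K N a) * ((xp K i 1 + xp K j 1) * (euler i f - euler j f)) := by
          rw [this]; ring
        _ = _ := by rw [hinv, one_mul]
    · rw [key] at h2
      have h3 := congrArg (fun x => shf K N (-a) * x) h2
      simp only [mul_sub, mul_smul_comm, ← mul_assoc, hinv, one_mul] at h3
      have h4 : k • ∑ i, ∑ j ∈ Ioi i, shf K N (-a) * h i j =
          k • (shf K N (-a) * ∑ i, ∑ j ∈ Ioi i, h i j) := by
        rw [Finset.mul_sum]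
        congr 1
        exact Finset.sum_congr rfl fun i _ => (Finset.mul_sum _ _ _).symm
      rw [h4]
      rw [add_smul, add_smul] at h3
      rw [add_smul] at h3
      linear_combination (exp := 1) h3
  · rintro ⟨h, h1, h2⟩
    refine ⟨fun i j => shf K N a * h i j, ?_, ?_⟩
    · intro i j
      rw [hdiff, mul_left_comm, h1]
      ring
    · rw [key]
      have h4 : k • ∑ i, ∑ j ∈ Ioi i, shf K N a * h i j =
          shf K N a * (k • ∑ i, ∑ j ∈ Ioi i, h i j) := by
        rw [mul_smul_comm, Finset.mul_sum]
        congr 1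
        exact Finset.sum_congr rfl fun i _ => (Finset.mul_sum _ _ _).symm
      have h5 : ∑ i, euler i (euler i f) = E • f + k • ∑ i, ∑ j ∈ Ioi i, h i j := by
        rw [← h2]; abel
      rw [h4, h5, ← mul_sub, ← mul_smul_comm]
      congr 1
      module

end H83JL
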