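import Pool.Agent.H83JL.Elem

/-! The combinatorial lemma on equivalent bipartitions over a field. -/

namespace H83JL

open Finset Polynomial

variable {κ : Type*} [Field κ] [CharZero κ]

lemma periodic_zero (g : κ →₀ ℤ) {c : κ} (hc : c ≠ 0) (h : ∀ x, g (x + c) = g x) : g = 0 := by
  by_contra hne
  obtain ⟨x, hx⟩ : ∃ x, g x ≠ 0 := by
    by_contra hcon
    push Not at hcon
    exact hne (Finsupp.ext hcon)
  have h1 : ∀ n : ℕ, g (x + n * c) = g x := by
    intro n
    induction n with
    | zero => simp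
    | succ n ih => rw [← ih, ← h (x + n * c)]; congr 1; push_cast; ring
  have h2 : Set.Infinite (g.support : Set κ) := by
    refine Set.infinite_of_injective_forall_mem (f := fun n : ℕ => x + n * c) ?_ ?_
    · intro a b hab
      simp only [add_right_inj] at hab
      exact_mod_cast mul_right_cancel₀ hc hab
    · intro n
      simp only [Finset.mem_coe, Finsupp.mem_support_iff]
      rw [h1]; exact hx
  exact h2 g.support.finite_toSet

lemma rootMult_prod {ι : Type*} (s : Finset ι) (a : ι → κ) (x : κ) [DecidableEq κ] :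
    (∏ i ∈ s, (X - C (a i))).rootMultiplicity x = ∑ i ∈ s, if x = a i then 1 else 0 := by
  classical
  induction s using Finset.induction_on with
  | empty => simp
  | insert i s hi ih =>
    rw [Finset.prod_insert hi, Finset.sum_insert hi, rootMultiplicity_mul, ih,
      rootMultiplicity_X_sub_C]
    exact mul_ne_zero (X_sub_C_ne_zero _) (Finset.prod_ne_zero_iff.2 fun j _ => X_sub_C_ne_zero _)

/-- integrality: `a + k b = 0` with integers forces `a = b = 0` -/
lemma irr {k : κ} (hk : ∀ q : ℚ, (q : κ) ≠ k) {a b : ℤ} (h : (a : κ) + k * b = 0) :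
    a = 0 ∧ b = 0 := by
  have hb : b = 0 := by
    by_contra hb
    apply hk (-(a : ℚ) / (b : ℚ))
    have hb' : (b : κ) ≠ 0 := Int.cast_ne_zero.2 hb
    push_cast
    rw [div_eq_iff hb']
    linear_combination -h
  subst hb
  simp at h
  exact ⟨h, rfl⟩

/-- content multiset of `ν` -/
noncomputable def bx (k θ : κ) (L : ℕ) (nu : ℕ → ℕ) : κ →₀ ℤ :=
  ∑ i ∈ range L, ∑ u ∈ range (nu i), Finsupp.single ((u : κ) - k * (θ - 1 - i)) 1

/-- dual content multiset of `τ` -/
noncomputable def bx' (k : κ) (L' : ℕ) (tau : ℕ → ℕ) : κ →₀ ℤ :=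
  ∑ j ∈ range L', ∑ u ∈ range (tau j), Finsupp.single (-(u : κ) - 1 - k * j) 1

/-- root multiset -/
noncomputable def cY (k θ : κ) (L L' : ℕ) (nu tau : ℕ → ℕ) : κ →₀ ℤ :=
  (∑ i ∈ range L, Finsupp.single ((nu i : κ) - k * (θ - 1 - i)) 1) +
    ∑ j ∈ range L', Finsupp.single (-(tau j : κ) - k * j) 1

lemma cY_eq_of_Lam {k θ : κ} (hk : k ≠ 0) {L L' : ℕ} {nu tau lam mu : ℕ → ℕ}
    (h : ∀ q, Lam (blist k θ L L' nu tau) q = Lam (blist k θ L L' lam mu) q) :
    cY k θ L L' nu tau = cY k θ L L' lam mu := by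
  classical
  rw [← sub_eq_zero]
  apply periodic_zero _ hk
  have h1 := Lam_eq_imp _ _ h
  have hne : ∀ {ι : Type} (s : Finset ι) (a : ι → κ), (∏ i ∈ s, (X - C (a i))) ≠ 0 :=
    fun s a => Finset.prod_ne_zero_iff.2 fun j _ => X_sub_C_ne_zero _
  have hD : ∀ nu tau : ℕ → ℕ, Dl (blist k θ L L' nu tau) ≠ 0 := by
    intro nu tau
    rw [Dl_blist]
    exact mul_ne_zero (hne _ _) (mul_ne_zero (X_sub_C_ne_zero _) (hne _ _))
  have hN : ∀ nu tau : ℕ → ℕ, Nl (blist k θ L L' nu tau) ≠ 0 := by
    intro nu tau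
    rw [Nl_blist]
    exact mul_ne_zero (hne _ _) (mul_ne_zero (X_sub_C_ne_zero _) (hne _ _))
  have hDr : ∀ (nu tau : ℕ → ℕ) (x : κ), ((Dl (blist k θ L L' nu tau)).rootMultiplicity x : ℤ) =
      cY k θ L L' nu tau x + (if x = -(k * L') then 1 else 0) := by
    intro nu tau x
    rw [Dl_blist, rootMultiplicity_mul (by rw [← Dl_blist]; exact hD _ _),
      rootMultiplicity_mul (mul_ne_zero (X_sub_C_ne_zero _) (hne _ _)), rootMult_prod,
      rootMult_prod, rootMultiplicity_X_sub_C, cY]
    simp only [Finsupp.add_apply, Finsupp.finsetSum_apply, Finsupp.single_apply, eq_comm (b := x)]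
    push_cast
    ring
  have hNr : ∀ (nu tau : ℕ → ℕ) (x : κ), ((Nl (blist k θ L L' nu tau)).rootMultiplicity x : ℤ) =
      cY k θ L L' nu tau (x + k) + (if x = -(k * (θ - L)) then 1 else 0) := by
    intro nu tau x
    rw [Nl_blist, rootMultiplicity_mul (by rw [← Nl_blist]; exact hN _ _),
      rootMultiplicity_mul (mul_ne_zero (X_sub_C_ne_zero _) (hne _ _)), rootMult_prod,
      rootMult_prod, rootMultiplicity_X_sub_C, cY]
    simp only [Finsupp.add_apply, Finsupp.finsetSum_apply, Finsupp.single_apply]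
    have e1 : ∀ i : ℕ, ((nu i : κ) - k * (θ - 1 - i) = x + k) ↔ (x = (nu i : κ) - k * (θ - i)) := by
      intro i
      constructor
      · intro h; linear_combination -h
      · intro h; linear_combination -h
    have e2 : ∀ i : ℕ, (-(tau i : κ) - k * i = x + k) ↔ (x = -(tau i : κ) - k * (i + 1)) := by
      intro i
      constructor
      · intro h; linear_combination -h
      · intro h; linear_combination -h
    simp only [e1, e2]
    push_cast
    ring
  intro x
  have h2 : ((Nl (blist k θ L L' nu tau) * Dl (blist k θ L L' lam mu)).rootMultiplicity x : ℤ) =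
      (Nl (blist k θ L L' lam mu) * Dl (blist k θ L L' nu tau)).rootMultiplicity x := by rw [h1]
  rw [rootMultiplicity_mul (mul_ne_zero (hN _ _) (hD _ _)),
    rootMultiplicity_mul (mul_ne_zero (hN _ _) (hD _ _))] at h2
  push_cast at h2
  rw [hNr, hNr, hDr, hDr] at h2
  simp only [Finsupp.sub_apply]
  linarith

lemma cY_bx (k θ : κ) (L L' : ℕ) (nu tau : ℕ → ℕ) (x : κ) :
    cY k θ L L' nu tau x = cY k θ L L' 0 0 x + (bx k θ L nu (x - 1) - bx k θ L nu x) -
      (bx' k L' tau (x - 1) - bx' k L' tau x) := by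
  classical
  simp only [cY, bx, bx', Finsupp.add_apply, Finsupp.finsetSum_apply, Finsupp.single_apply,
    Pi.zero_apply, Nat.cast_zero]
  have e1 : ∀ i : ℕ, (if (nu i : κ) - k * (θ - 1 - i) = x then (1 : ℤ) else 0) =
      (if (0 : κ) - k * (θ - 1 - i) = x then (1 : ℤ) else 0) +
      ((∑ u ∈ range (nu i), if (u : κ) - k * (θ - 1 - i) = x - 1 then (1 : ℤ) else 0) -
      (∑ u ∈ range (nu i), if (u : κ) - k * (θ - 1 - i) = x then (1 : ℤ) else 0)) := by
    intro i
    induction (nu i) with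
    | zero => simp
    | succ n ih =>
      rw [Finset.sum_range_succ, Finset.sum_range_succ]
      have : (n : κ) - k * (θ - 1 - i) = x - 1 ↔ ((n + 1 : ℕ) : κ) - k * (θ - 1 - i) = x := by
        push_cast
        constructor
        · intro h; linear_combination h
        · intro h; linear_combination h
      simp only [this]
      linarith
  have e2 : ∀ j : ℕ, (if -(tau j : κ) - k * j = x then (1 : ℤ) else 0) =
      (if -(0 : κ) - k * j = x then (1 : ℤ) else 0) -
      ((∑ u ∈ range (tau j), if -(u : κ) - 1 - k * j = x - 1 then (1 : ℤ) else 0) -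
      (∑ u ∈ range (tau j), if -(u : κ) - 1 - k * j = x then (1 : ℤ) else 0)) := by
    intro i
    induction (tau i) with
    | zero => simp
    | succ n ih =>
      rw [Finset.sum_range_succ, Finset.sum_range_succ]
      have h1 : -((n + 1 : ℕ) : κ) - k * i = x ↔ -(n : κ) - 1 - k * i = x := by
        push_cast
        constructor
        · intro h; linear_combination h
        · intro h; linear_combination h
      have h2 : -(n : κ) - 1 - k * i = x - 1 ↔ -(n : κ) - k * i = x := by
        constructor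
        · intro h; linear_combination h
        · intro h; linear_combination h
      simp only [h1, h2]
      linarith
  simp only [e1, e2, Finset.sum_add_distrib, Finset.sum_sub_distrib]
  ring

lemma bx_eq_of_Lam {k θ : κ} (hk : k ≠ 0) {L L' : ℕ} {nu tau lam mu : ℕ → ℕ}
    (h : ∀ q, Lam (blist k θ L L' nu tau) q = Lam (blist k θ L L' lam mu) q) :
    bx k θ L nu + bx' k L' mu = bx k θ L lam + bx' k L' tau := by
  have h1 := cY_eq_of_Lam hk h
  have : (bx k θ L nu + bx' k L' mu) - (bx k θ L lam + bx' k L' tau) = 0 := by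
    apply periodic_zero _ (one_ne_zero (α := κ))
    intro x
    have h2 := DFunLike.congr_fun h1 (x + 1)
    rw [cY_bx, cY_bx k θ L L' lam mu] at h2
    simp only [add_sub_cancel_right] at h2
    simp only [Finsupp.sub_apply, Finsupp.add_apply]
    linarith
  exact sub_eq_zero.1 this

lemma bx_apply {k : κ} (hk : ∀ q : ℚ, (q : κ) ≠ k) (θ : κ) {L : ℕ} {nu : ℕ → ℕ}
    (hL : ∀ i, L ≤ i → nu i = 0) (i u : ℕ) :
    bx k θ L nu ((u : κ) - k * (θ - 1 - i)) = if u < nu i then 1 else 0 := by
  classical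
  simp only [bx, Finsupp.finsetSum_apply, Finsupp.single_apply]
  have e : ∀ i' u' : ℕ, (u' : κ) - k * (θ - 1 - i') = (u : κ) - k * (θ - 1 - i) ↔
      (i' = i ∧ u' = u) := by
    intro i' u'
    constructor
    · intro h
      have := irr hk (a := (u' : ℤ) - u) (b := (i' : ℤ) - i) (by push_cast; linear_combination h)
      omega
    · rintro ⟨rfl, rfl⟩; rfl
  simp only [e]
  have e2 : ∀ i' ∈ range L, (∑ u' ∈ range (nu i'), if (i' = i ∧ u' = u) then (1 : ℤ) else 0) =
      if i' = i then (if u < nu i then 1 else 0) else 0 := by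
    intro i' _
    by_cases h : i' = i
    · subst h
      simp only [true_and, if_true]
      rw [Finset.sum_ite_eq']
      simp
    · simp [h]
  rw [Finset.sum_congr rfl e2, Finset.sum_ite_eq']
  by_cases hi : i < L
  · simp [hi]
  · simp [hi, hL i (not_lt.1 hi)]

lemma bx'_apply {k : κ} (hk : ∀ q : ℚ, (q : κ) ≠ k) {L' : ℕ} {tau : ℕ → ℕ}
    (hL : ∀ i, L' ≤ i → tau i = 0) (j u : ℕ) :
    bx' k L' tau (-(u : κ) - 1 - k * j) = if u < tau j then 1 else 0 := by
  classical
  simp only [bx', Finsupp.finsetSum_apply, Finsupp.single_apply]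
  have e : ∀ i' u' : ℕ, -(u' : κ) - 1 - k * i' = -(u : κ) - 1 - k * j ↔
      (i' = j ∧ u' = u) := by
    intro i' u'
    constructor
    · intro h
      have := irr hk (a := (u' : ℤ) - u) (b := (i' : ℤ) - j) (by push_cast; linear_combination -h)
      omega
    · rintro ⟨rfl, rfl⟩; rfl
  simp only [e]
  have e2 : ∀ i' ∈ range L', (∑ u' ∈ range (tau i'), if (i' = j ∧ u' = u) then (1 : ℤ) else 0) =
      if i' = j then (if u < tau j then 1 else 0) else 0 := by
    intro i' _
    by_cases h : i' = j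
    · subst h
      simp only [true_and, if_true]
      rw [Finset.sum_ite_eq']
      simp
    · simp [h]
  rw [Finset.sum_congr rfl e2, Finset.sum_ite_eq']
  by_cases hi : j < L'
  · simp [hi]
  · simp [hi, hL j (not_lt.1 hi)]

omit [CharZero κ] in
lemma bx_ne_zero {k θ : κ} {L : ℕ} {nu : ℕ → ℕ} {x : κ} (h : bx k θ L nu x ≠ 0) :
    ∃ i u : ℕ, u < nu i ∧ x = (u : κ) - k * (θ - 1 - i) := by
  classical
  simp only [bx, Finsupp.finsetSum_apply, Finsupp.single_apply] at h
  obtain ⟨i, _, hi⟩ := Finset.exists_ne_zero_of_sum_ne_zero h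
  obtain ⟨u, hu, hu'⟩ := Finset.exists_ne_zero_of_sum_ne_zero hi
  refine ⟨i, u, Finset.mem_range.1 hu, ?_⟩
  by_contra hcon
  exact hu' (if_neg fun h => hcon h.symm)

omit [CharZero κ] in
lemma bx'_ne_zero {k : κ} {L' : ℕ} {tau : ℕ → ℕ} {x : κ} (h : bx' k L' tau x ≠ 0) :
    ∃ j u : ℕ, u < tau j ∧ x = -(u : κ) - 1 - k * j := by
  classical
  simp only [bx', Finsupp.finsetSum_apply, Finsupp.single_apply] at h
  obtain ⟨i, _, hi⟩ := Finset.exists_ne_zero_of_sum_ne_zero h
  obtain ⟨u, hu, hu'⟩ := Finset.exists_ne_zero_of_sum_ne_zero hi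
  refine ⟨i, u, Finset.mem_range.1 hu, ?_⟩
  by_contra hcon
  exact hu' (if_neg fun h => hcon h.symm)

/-- The combinatorial lemma. -/
theorem comb {k θ : κ} (hk : ∀ q : ℚ, (q : κ) ≠ k) {L L' : ℕ} {nu tau lam mu : ℕ → ℕ}
    (hν : Antitone nu) (hτ : Antitone tau) (hl : Antitone lam) (hμ : Antitone mu)
    (hνL : ∀ i, L ≤ i → nu i = 0) (hτL : ∀ j, L' ≤ j → tau j = 0)
    (hlL : ∀ i, L ≤ i → lam i = 0) (hμL : ∀ j, L' ≤ j → mu j = 0)
    (hsize : ∑ i ∈ range L, nu i ≤ ∑ i ∈ range L, lam i)
    (hne : ¬ (nu = lam ∧ tau = mu))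
    (h : ∀ q, Lam (blist k θ L L' nu tau) q = Lam (blist k θ L L' lam mu) q) :
    ∃ i0 i u : ℕ, lam (i0 + 1) < lam i0 ∧ lam i = lam i0 ∧ u < mu 0 ∧
      ((lam i : κ) + u + k * (i + conj L' mu u - θ) = 0) ∧ nu i0 ≠ lam i0 := by
  have hk0 : k ≠ 0 := fun h0 => hk 0 (by simp [h0])
  have hbx := bx_eq_of_Lam hk0 h
  have hbx' : ∀ x, bx k θ L nu x + bx' k L' mu x = bx k θ L lam x + bx' k L' tau x := fun x => by
    have := DFunLike.congr_fun hbx x
    simpa using this
  -- some row of ν is shorter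
  have hex : ∃ i, nu i < lam i := by
    by_contra hcon
    push Not at hcon
    apply hne
    have hnl : nu = lam := by
      funext i
      by_cases hi : i < L
      · have h1 : ∑ i ∈ range L, lam i ≤ ∑ i ∈ range L, nu i :=
          Finset.sum_le_sum fun i _ => hcon i
        have h2 := (Finset.sum_eq_sum_iff_of_le (fun i _ => hcon i)).1 (le_antisymm h1 hsize)
        exact (h2 i (mem_range.2 hi)).symm
      · rw [hνL i (not_lt.1 hi), hlL i (not_lt.1 hi)]
    refine ⟨hnl, ?_⟩
    have h3 : ∀ j u, (u < tau j ↔ u < mu j) := by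
      intro j u
      have := hbx' (-(u : κ) - 1 - k * j)
      rw [hnl, bx'_apply hk hτL, bx'_apply hk hμL] at this
      by_cases h1 : u < tau j <;> by_cases h2 : u < mu j <;> simp [h1, h2] at this ⊢
    funext j
    apply le_antisymm
    · by_contra hc
      exact absurd ((h3 j (mu j)).1 (not_le.1 hc)) (lt_irrefl _)
    · by_contra hc
      exact absurd ((h3 j (tau j)).2 (not_le.1 hc)) (lt_irrefl _)
  classical
  obtain ⟨i, hi, hmin⟩ : ∃ i, nu i < lam i ∧ ∀ i' < i, ¬ (nu i' < lam i') :=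
    ⟨Nat.find hex, Nat.find_spec hex, fun i' hi' => Nat.find_min hex hi'⟩
  have hpos : 0 < lam i := by omega
  set x : κ := ((lam i - 1 : ℕ) : κ) - k * (θ - 1 - i) with hx
  have h1 : bx k θ L lam x = 1 := by
    rw [hx, bx_apply hk θ hlL, if_pos (by omega)]
  have h2 : bx k θ L nu x = 0 := by
    rw [hx, bx_apply hk θ hνL, if_neg (by omega)]
  have h3 := hbx' x
  have hτ0 : ∀ y, 0 ≤ bx' k L' tau y := by
    intro y
    simp only [bx', Finsupp.finsetSum_apply, Finsupp.single_apply]
    exact Finset.sum_nonneg fun _ _ => Finset.sum_nonneg fun _ _ => by split_ifs <;> norm_num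
  have h4 : bx' k L' mu x ≠ 0 := by
    have := hτ0 x
    rw [h1, h2] at h3
    omega
  obtain ⟨j, u, hu, hxu⟩ := bx'_ne_zero h4
  have h5 : bx' k L' mu x = 1 := by rw [hxu, bx'_apply hk hμL, if_pos hu]
  have h6 : bx' k L' tau x = 0 := by rw [h1, h2, h5] at h3; omega
  have h7 : ¬ (u < tau j) := by
    intro hlt
    rw [hxu, bx'_apply hk hτL, if_pos hlt] at h6
    exact one_ne_zero h6
  have hcast : ((lam i - 1 : ℕ) : κ) = (lam i : κ) - 1 := by
    rw [Nat.cast_sub (by omega), Nat.cast_one]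
  have heq : (lam i : κ) - 1 - k * (θ - 1 - i) = -(u : κ) - 1 - k * j := by
    rw [← hxu, hx, hcast]
  have h8 : ¬ (u < mu (j + 1)) := by
    intro hlt
    set y : κ := -(u : κ) - 1 - k * ((j + 1 : ℕ) : κ) with hy
    have g1 : bx' k L' mu y = 1 := by rw [hy, bx'_apply hk hμL, if_pos hlt]
    have g2 : bx' k L' tau y = 0 := by
      rw [hy, bx'_apply hk hτL, if_neg]
      have := hτ (Nat.le_succ j)
      simp only [Nat.succ_eq_add_one] at this
      omega
    have g3 := hbx' y
    have hν0 : 0 ≤ bx k θ L nu y := by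
      simp only [bx, Finsupp.finsetSum_apply, Finsupp.single_apply]
      exact Finset.sum_nonneg fun _ _ => Finset.sum_nonneg fun _ _ => by split_ifs <;> norm_num
    have g4 : bx k θ L lam y ≠ 0 := by
      rw [g1, g2] at g3
      omega
    obtain ⟨i', u', hu', hyu⟩ := bx_ne_zero g4
    have g5 : bx k θ L lam y = 1 := by rw [hyu, bx_apply hk θ hlL, if_pos hu']
    have g6 : bx k θ L nu y = 0 := by rw [g1, g2, g5] at g3; omega
    have g7 : ¬ (u' < nu i') := by
      intro hlt
      rw [hyu, bx_apply hk θ hνL, if_pos hlt] at g6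
      exact one_ne_zero g6
    have g8 := irr hk (a := (u' : ℤ) - (lam i - 1)) (b := (i' : ℤ) + 1 - i) (by
      push_cast
      have e1 : (u' : κ) - k * (θ - 1 - i') = -(u : κ) - 1 - k * ((j + 1 : ℕ) : κ) := by
        rw [← hyu, hy]
      push_cast at e1
      linear_combination e1 - heq)
    exact hmin i' (by omega) (by omega)
  have hconj : conj L' mu u = j + 1 := by
    have a1 := lt_conj hμ hμL j u
    have a2 := lt_conj hμ hμL (j + 1) u
    have a3 := a1.2 hu
    have a4 := fun hh => h8 (a2.1 hh)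
    omega
  -- the corner
  have hcorner : ∃ i0, lam (i0 + 1) < lam i0 ∧ lam i = lam i0 ∧ i ≤ i0 := by
    have hex2 : ∃ m, lam (i + m + 1) < lam i := ⟨L, by rw [hlL _ (by omega)]; exact hpos⟩
    refine ⟨i + Nat.find hex2, ?_⟩
    have hs := Nat.find_spec hex2
    have hm : lam (i + Nat.find hex2) = lam i := by
      rcases Nat.eq_zero_or_pos (Nat.find hex2) with h0 | h0
      · rw [h0]; rfl
      · have := Nat.find_min hex2 (m := Nat.find hex2 - 1) (by omega)
        have e : i + (Nat.find hex2 - 1) + 1 = i + Nat.find hex2 := by omega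
        rw [e] at this
        exact le_antisymm (hl (by omega)) (not_lt.1 this)
    exact ⟨by rw [hm]; exact hs, hm.symm, by omega⟩
  obtain ⟨i0, hc1, hc2, hc3⟩ := hcorner
  refine ⟨i0, i, u, hc1, hc2, ?_, ?_, ?_⟩
  · exact lt_of_lt_of_le hu (hμ (Nat.zero_le j))
  · rw [hconj]
    push_cast
    linear_combination heq
  · have := hν hc3
    rw [← hc2]
    omega

end H83JL
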