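import Pool.Agent.H83JL.Comb

/-! The corner operators. -/

namespace H83JL

open Finset Polynomial

variable {K : Type*} [Field K]

/-- root attached to the cell `(i,v)` of the first kind -/
noncomputable def Fr (k : K) (x : ℕ × ℕ) : K[X] := (x.2 : K[X]) - C k * (X - 1 - (x.1 : K[X]))

/-- root attached to the cell `(j,v)` of the second kind -/
noncomputable def Fc (k : K) (x : ℕ × ℕ) : K[X] := -(x.2 : K[X]) - C k * (x.1 : K[X])

/-- corner polynomial -/
noncomputable def qc (k : K) (L L' M M' : ℕ) (lam : ℕ → ℕ) (i0 : ℕ) : K[X][X] :=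
  (∏ x ∈ (range L ×ˢ range (M + 1)).erase (i0, lam i0), (X - C (Fr k x))) *
    ((X - C (-(C k * (L' : K[X])))) *
      ∏ x ∈ range L' ×ˢ range (M' + 1), (X - C (Fc k x)))

lemma prod_graph {A : Type*} [CommMonoid A] (L : ℕ) (nu : ℕ → ℕ) (G : ℕ × ℕ → A) :
    ∏ i ∈ range L, G (i, nu i) = ∏ x ∈ (range L).image (fun i => (i, nu i)), G x := by
  rw [Finset.prod_image]
  intro a _ b _ h
  exact (Prod.ext_iff.1 h).1

lemma qc_kill (k : K) {L L' M M' : ℕ} {lam nu tau : ℕ → ℕ} {i0 : ℕ}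
    (hν : ∀ i, nu i ≤ M) (hτ : ∀ i, tau i ≤ M') (hne : nu i0 ≠ lam i0) :
    Dl (blist (C k) X L L' nu tau) ∣ qc k L L' M M' lam i0 := by
  classical
  rw [Dl_blist, qc]
  refine mul_dvd_mul ?_ (mul_dvd_mul (dvd_refl _) ?_)
  · have := prod_graph L nu (fun x => (X - C (Fr k x) : K[X][X]))
    have e : ∏ i ∈ range L, (X - C ((nu i : K[X]) - C k * (X - 1 - (i : K[X]))) : K[X][X]) =
      ∏ i ∈ range L, (X - C (Fr k (i, nu i))) := rfl
    rw [e, this]
    apply Finset.prod_dvd_prod_of_subset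
    intro x hx
    rw [mem_image] at hx
    obtain ⟨i, hi, rfl⟩ := hx
    rw [mem_range] at hi
    simp only [mem_erase, ne_eq, Prod.mk.injEq, not_and, mem_product, mem_range]
    refine ⟨?_, hi, by have := hν i; omega⟩
    rintro rfl
    exact hne
  · have := prod_graph L' tau (fun x => (X - C (Fc k x) : K[X][X]))
    have e : ∏ i ∈ range L', (X - C (-(tau i : K[X]) - C k * (i : K[X])) : K[X][X]) =
      ∏ i ∈ range L', (X - C (Fc k (i, tau i))) := rfl
    rw [e, this]
    apply Finset.prod_dvd_prod_of_subset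
    intro x hx
    rw [mem_image] at hx
    obtain ⟨i, hi, rfl⟩ := hx
    rw [mem_range] at hi
    simp only [mem_product, mem_range]
    exact ⟨hi, by have := hτ i; omega⟩

/-- cofactor -/
noncomputable def gg (k : K) (L L' M M' : ℕ) (lam mu : ℕ → ℕ) : K[X][X] :=
  (∏ x ∈ (range L ×ˢ range (M + 1)).filter (fun x => x.2 ≠ lam x.1), (X - C (Fr k x))) *
    ∏ x ∈ (range L' ×ˢ range (M' + 1)).filter (fun x => x.2 ≠ mu x.1), (X - C (Fc k x))

lemma prod_split {A : Type*} [CommMonoid A] (L M : ℕ) (nu : ℕ → ℕ) (hν : ∀ i, nu i ≤ M)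
    (G : ℕ × ℕ → A) :
    ∏ x ∈ range L ×ˢ range (M + 1), G x =
      (∏ i ∈ range L, G (i, nu i)) *
        ∏ x ∈ (range L ×ˢ range (M + 1)).filter (fun x => x.2 ≠ nu x.1), G x := by
  classical
  rw [← Finset.prod_filter_mul_prod_filter_not _ (fun x : ℕ × ℕ => x.2 = nu x.1), prod_graph]
  congr 1
  apply Finset.prod_congr _ (fun _ _ => rfl)
  ext ⟨a, b⟩
  simp only [mem_filter, mem_product, mem_range, mem_image, Prod.mk.injEq]
  constructor
  · rintro ⟨⟨h1, h2⟩, h3⟩
    exact ⟨a, h1, rfl, h3.symm⟩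
  · rintro ⟨c, h1, rfl, h3⟩
    have := hν c
    exact ⟨⟨h1, by omega⟩, h3.symm⟩

lemma qc_top (k : K) {L L' M M' : ℕ} {lam mu : ℕ → ℕ} {i0 : ℕ}
    (hl : ∀ i, lam i ≤ M) (hμ : ∀ i, mu i ≤ M') (hi0 : i0 < L) :
    (X - C (Fr k (i0, lam i0))) * qc k L L' M M' lam i0 =
      Dl (blist (C k) X L L' lam mu) * gg k L L' M M' lam mu := by
  classical
  have hmem : (i0, lam i0) ∈ range L ×ˢ range (M + 1) := by
    simp only [mem_product, mem_range]
    exact ⟨hi0, by have := hl i0; omega⟩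
  rw [qc, ← mul_assoc, Finset.mul_prod_erase _ (fun x => (X - C (Fr k x) : K[X][X])) hmem,
    prod_split L M lam hl, prod_split L' M' mu hμ, Dl_blist, gg]
  simp only [Fr, Fc]
  ring

lemma qc_val (k : K) {L L' M M' : ℕ} {lam mu : ℕ → ℕ} {i0 : ℕ}
    (hl : ∀ i, lam i ≤ M) (hμ : ∀ i, mu i ≤ M') (hi0 : i0 < L) :
    Lam (blist (C k) X L L' lam mu) (qc k L L' M M' lam i0) =
      (((∏ i ∈ range L, (Fr k (i0, lam i0) - ((lam i : K[X]) - C k * (X - (i : K[X]))))) *
        ((Fr k (i0, lam i0) - (-(C k * (X - (L : K[X]))))) *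
          ∏ j ∈ range L', (Fr k (i0, lam i0) - (-(mu j : K[X]) - C k * ((j : K[X]) + 1))))) *
      (∏ x ∈ (range L ×ˢ range (M + 1)).filter (fun x => x.2 ≠ lam x.1),
        (Fr k (i0, lam i0) - Fr k x))) *
      ∏ x ∈ (range L' ×ˢ range (M' + 1)).filter (fun x => x.2 ≠ mu x.1),
        (Fr k (i0, lam i0) - Fc k x) := by
  rw [Lam_top _ (qc_top k hl hμ hi0), Nl_blist, gg]
  simp only [eval_mul, eval_prod, eval_sub, eval_X, eval_C]
  ring

lemma prod_exc {R κ ι : Type*} [CommRing R] [Field κ] (φ : R →+* κ) (s : Finset ι) (F : ι → R)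
    (x0 : ι) (f : R) (h : ∀ x ∈ s, φ (F x) = 0 → x = x0 ∧ F x = f) :
    ∃ a : R, φ a ≠ 0 ∧ ∏ x ∈ s, F x ∣ a * f := by
  classical
  by_cases hx : ∃ x ∈ s, φ (F x) = 0
  · obtain ⟨x, hxs, hx0⟩ := hx
    obtain ⟨rfl, hf⟩ := h x hxs hx0
    refine ⟨∏ y ∈ s.erase x, F y, ?_, ?_⟩
    · rw [map_prod, Finset.prod_ne_zero_iff]
      intro y hy h0
      rw [mem_erase] at hy
      exact hy.1 (h y hy.2 h0).1
    · rw [← hf, Finset.prod_erase_mul _ _ hxs]
  · push Not at hx
    refine ⟨∏ x ∈ s, F x, ?_, dvd_mul_right _ _⟩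
    rw [map_prod, Finset.prod_ne_zero_iff]
    exact hx

/-- the linear forms in `B` -/
noncomputable def ff (k : K) (L' : ℕ) (lam mu : ℕ → ℕ) (i u : ℕ) : K[X] :=
  (lam i : K[X]) + (u : K[X]) + C k * ((i : K[X]) + (conj L' mu u : K[X]) - X)

theorem corner_main {κ : Type*} [Field κ] [CharZero κ] (k : K) (φ : K[X] →+* κ)
    (hk : ∀ q : ℚ, (q : κ) ≠ φ (C k)) {L L' M M' : ℕ} {lam mu : ℕ → ℕ}
    (hla : Antitone lam) (hmu : Antitone mu)
    (hl : ∀ i, lam i ≤ M) (hμ : ∀ i, mu i ≤ M')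
    (hμL : ∀ j, L' ≤ j → mu j = 0) {i0 i u : ℕ} (hi0 : i0 < L)
    (hcor : lam (i0 + 1) < lam i0) (hii : lam i = lam i0) (hu : u < mu 0)
    (hf : φ (ff k L' lam mu i u) = 0) :
    ∃ s : K[X], φ s ≠ 0 ∧
      Lam (blist (C k) X L L' lam mu) (qc k L L' M M' lam i0) ∣ s * ff k L' lam mu i u := by
  have hii0 : i ≤ i0 := by
    by_contra hcon
    have := hla (show i0 + 1 ≤ i by omega)
    omega
  have hconj : ∀ m, m < conj L' mu u ↔ u < mu m := fun m => lt_conj hmu hμL m u
  have hc1 : 1 ≤ conj L' mu u := (hconj 0).2 hu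
  set k' := φ (C k) with hk'
  set θ := φ X with hθ
  have hf' : (lam i : κ) + u + k' * (i + conj L' mu u - θ) = 0 := by
    rw [ff] at hf
    simpa using hf
  rw [qc_val k hl hμ hi0]
  obtain ⟨s, hs, hdvd⟩ := prod_exc φ ((range L' ×ˢ range (M' + 1)).filter (fun x => x.2 ≠ mu x.1))
    (fun x => Fr k (i0, lam i0) - Fc k x) (i + conj L' mu u - i0 - 1, u) (ff k L' lam mu i u) (by
      rintro ⟨j, v⟩ _ h0
      simp only [Fr, Fc, map_sub, map_mul, map_neg, map_natCast, map_one, ← hk', ← hθ] at h0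
      have h1 := irr hk (a := (v : ℤ) - u) (b := (j : ℤ) + i0 + 1 - (i + conj L' mu u)) (by
        push_cast
        rw [hii] at hf'
        linear_combination h0 - hf')
      have hv : v = u := by omega
      have hj : j + i0 + 1 = i + conj L' mu u := by omega
      refine ⟨?_, ?_⟩
      · rw [hv]; congr 1; omega
      · have hj' : ((j : K[X]) + i0 + 1) = i + conj L' mu u := by
          have := congrArg (Nat.cast : ℕ → K[X]) hj
          push_cast at this
          exact this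
        simp only [Fr, Fc, ff]
        rw [hii, hv]
        linear_combination C k * hj')
  refine ⟨_, ?_, mul_dvd_mul_left _ hdvd |>.trans (dvd_of_eq (mul_assoc _ _ _).symm)⟩
  rw [map_mul]
  refine mul_ne_zero ?_ hs
  rw [map_mul, map_mul, map_mul, map_prod, map_prod, map_prod]
  refine mul_ne_zero (mul_ne_zero ?_ (mul_ne_zero ?_ ?_)) ?_
  · rw [Finset.prod_ne_zero_iff]
    intro a _ h0
    simp only [Fr, map_sub, map_mul, map_natCast, map_one, ← hk', ← hθ] at h0
    have h1 := irr hk (a := (lam i0 : ℤ) - lam a) (b := (i0 : ℤ) + 1 - a) (by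
      push_cast
      linear_combination h0)
    have : a = i0 + 1 := by omega
    rw [this] at h1
    omega
  · intro h0
    simp only [Fr, map_sub, map_mul, map_neg, map_natCast, map_one, ← hk', ← hθ] at h0
    have h1 := irr hk (a := (lam i0 : ℤ)) (b := (i0 : ℤ) + 1 - L) (by
      push_cast
      linear_combination h0)
    omega
  · rw [Finset.prod_ne_zero_iff]
    intro j _ h0
    simp only [Fr, map_sub, map_add, map_mul, map_neg, map_natCast, map_one, ← hk', ← hθ] at h0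
    have h1 := irr hk (a := (mu j : ℤ) - u) (b := (j : ℤ) + i0 + 2 - (i + conj L' mu u)) (by
      push_cast
      rw [hii] at hf'
      linear_combination h0 - hf')
    have hj : j < conj L' mu u := by omega
    have := (hconj j).1 hj
    omega
  · rw [Finset.prod_ne_zero_iff]
    rintro ⟨a, v⟩ hx h0
    rw [mem_filter] at hx
    simp only [Fr, map_sub, map_mul, map_natCast, map_one, ← hk', ← hθ] at h0
    have h1 := irr hk (a := (lam i0 : ℤ) - v) (b := (i0 : ℤ) - a) (by
      push_cast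
      linear_combination h0)
    apply hx.2
    simp only
    have : a = i0 := by omega
    rw [this]; omega

end H83JL
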