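import Pool.Agent.H83JL.Diag

/-! Decomposition into joint eigenvectors. -/

namespace H83JL

open Finset AddMonoidAlgebra

variable {K : Type*} [Field K] {N : ℕ}

/-- for antitone `ρ` initial segments have the largest sums -/
lemma top_sum {ρ : Fin N → ℤ} (hρ : Antitone ρ) (S : Finset (Fin N)) :
    ∑ i ∈ S, ρ i ≤ csum ρ S.card := by
  classical
  unfold csum
  set T := univ.filter (fun i : Fin N => i.val < S.card) with hT
  have hSN : S.card ≤ N := by simpa using S.card_le_univ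
  have hc : T.card = S.card := by
    rw [hT, Fin.card_filter_val_lt]; exact min_eq_right hSN
  rcases Nat.eq_zero_or_pos S.card with h0 | hpos
  · have : S = ∅ := Finset.card_eq_zero.1 h0
    have hT' : T = ∅ := Finset.card_eq_zero.1 (hc.trans h0)
    rw [this, hT']
  · obtain ⟨a, ha⟩ : ∃ a : Fin N, a.val = S.card - 1 := ⟨⟨S.card - 1, by omega⟩, rfl⟩
    have h1 : ∑ i ∈ S \ T, ρ i ≤ (S \ T).card • ρ a := by
      refine Finset.sum_le_card_nsmul _ _ _ fun i hi => hρ ?_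
      simp only [hT, mem_sdiff, mem_filter, mem_univ, true_and, not_lt] at hi
      rw [Fin.le_def]; omega
    have h2 : (T \ S).card • ρ a ≤ ∑ i ∈ T \ S, ρ i := by
      refine Finset.card_nsmul_le_sum _ _ _ fun i hi => hρ ?_
      simp only [hT, mem_sdiff, mem_filter, mem_univ, true_and] at hi
      rw [Fin.le_def]; omega
    have h3 : (S \ T).card = (T \ S).card := Finset.card_sdiff_comm hc.symm
    rw [h3] at h1
    have h4 := Finset.sum_inter_add_sum_sdiff S T ρ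
    have h5 := Finset.sum_inter_add_sum_sdiff T S ρ
    rw [Finset.inter_comm] at h5
    linarith

lemma mem_W_self {ρ : Fin N → ℤ} (hρ : Antitone ρ) : ρ ∈ W ρ := ⟨rfl, top_sum hρ⟩

lemma W_mono {χ ρ : Fin N → ℤ} (h : ρ ∈ W χ) : W ρ ⊆ W χ := by
  rintro η ⟨h1, h2⟩
  refine ⟨h1.trans h.1, fun S => (h2 S).trans (csum_le_of_mem h ?_)⟩
  simpa using S.card_le_univ

lemma VV_mono {χ ρ : Fin N → ℤ} (h : ρ ∈ W χ) : VV K ρ ≤ VV K χ := by
  rintro f ⟨h1, h2⟩
  exact ⟨supported_mono (W_mono h) h1, h2⟩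

lemma exists_sort (η : Fin N → ℤ) : ∃ σ : Equiv.Perm (Fin N), Antitone (fun i => η (σ i)) := by
  refine ⟨Tuple.sort (fun i => OrderDual.toDual (η i)), ?_⟩
  have := Tuple.monotone_sort (fun i => OrderDual.toDual (η i))
  intro a b hab
  exact this hab

/-- eigenvectors of the second integral -/
def Eig (k : K) (χ : Fin N → ℤ) : Submodule K (Lau K N) where
  carrier := {f | f ∈ VV K χ ∧ II k N 2 f = ev k χ 2 • f}
  zero_mem' := ⟨zero_mem _, by simp⟩
  add_mem' := by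
    rintro f g ⟨h1, h2⟩ ⟨h3, h4⟩
    exact ⟨add_mem h1 h3, by rw [map_add, h2, h4, smul_add]⟩
  smul_mem' := by
    rintro c f ⟨h1, h2⟩
    exact ⟨Submodule.smul_mem _ _ h1, by rw [map_smul, h2, smul_comm]⟩

/-- the orbit part -/
noncomputable def orb (ρ : Fin N → ℤ) (g : Lau K N) : Lau K N :=
  open Classical in
  .ofCoeff (g.coeff.filter (fun η => ∃ σ : Equiv.Perm (Fin N), (fun i => η (σ i)) = ρ))

lemma orb_coeff (ρ : Fin N → ℤ) (g : Lau K N) (η : Fin N → ℤ)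
    [Decidable (∃ σ : Equiv.Perm (Fin N), (fun i => η (σ i)) = ρ)] :
    (orb ρ g).coeff η = if (∃ σ : Equiv.Perm (Fin N), (fun i => η (σ i)) = ρ)
      then g.coeff η else 0 := by
  classical
  rw [orb, coeff_ofCoeff, Finsupp.filter_apply]
  congr

lemma orb_sym (ρ : Fin N → ℤ) {g : Lau K N} (hg : Sym g) : Sym (orb ρ g) := by
  classical
  intro σ
  apply AddMonoidAlgebra.ext
  ext η
  rw [perm_coeff, orb_coeff, orb_coeff]
  have h1 : g.coeff (fun i => η (σ i)) = g.coeff η := by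
    rw [← perm_coeff, hg]
  rw [h1]
  have h2 : (∃ τ : Equiv.Perm (Fin N), (fun i => η (σ (τ i))) = ρ) ↔
      (∃ τ : Equiv.Perm (Fin N), (fun i => η (τ i)) = ρ) := by
    constructor
    · rintro ⟨τ, h⟩; exact ⟨σ * τ, h⟩
    · rintro ⟨τ, h⟩; exact ⟨σ⁻¹ * τ, by simpa using h⟩
  simp only [h2]

lemma orb_mem (ρ : Fin N → ℤ) (hρ : Antitone ρ) {g : Lau K N} (hg : Sym g) :
    orb ρ g ∈ VV K ρ := by
  classical
  refine ⟨?_, orb_sym ρ hg⟩
  rw [mem_supported']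
  intro η hη
  rw [orb_coeff, if_neg]
  rintro ⟨σ, h⟩
  apply hη
  have := (clo_W ρ).perm σ⁻¹ _ (mem_W_self hρ)
  have e : (fun i => ρ (σ⁻¹ i)) = η := by
    rw [← h]; ext i; simp
  rwa [e] at this

/-- sum of the lower eigenspaces -/
noncomputable def ZZ (k : K) (χ : Fin N → ℤ) : Submodule K (Lau K N) :=
  ⨆ ρ : {ρ : Fin N → ℤ // Antitone ρ ∧ ρ ∈ W χ ∧ ρ ≠ χ}, Eig k ρ.1

lemma cc_nonneg (χ : Fin N → ℤ) : 0 ≤ cc χ := by
  unfold cc
  refine Finset.sum_nonneg fun b _ => Finset.sum_nonneg fun c hc => ?_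
  rw [mem_filter] at hc
  linarith [hc.2]

lemma ZZ_le (k : K) (χ : Fin N → ℤ) : ZZ k χ ≤ VV K χ := by
  refine iSup_le fun ρ => ?_
  intro f hf
  exact VV_mono ρ.2.2.1 hf.1

/-- lower part lies in `ZZ` -/
lemma low_mem (k : K) {χ : Fin N → ℤ} (hχ : Antitone χ)
    (IH : ∀ ρ : Fin N → ℤ, Antitone ρ → cc ρ < cc χ → VV K ρ ≤ Eig k ρ ⊔ ZZ k ρ) :
    ∀ (n : ℕ) (g : Lau K N), g.coeff.support.card = n → g ∈ VV K χ → g.coeff χ = 0 →
      g ∈ ZZ k χ := by
  classical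
  intro n
  induction n using Nat.strong_induction_on with
  | _ n ihn =>
  intro g hn hg hgχ
  by_cases hg0 : g = 0
  · rw [hg0]; exact zero_mem _
  have hne : g.coeff.support.Nonempty := by
    rw [Finset.nonempty_iff_ne_empty]
    intro h
    rw [Finsupp.support_eq_empty] at h
    exact hg0 (by simpa using h)
  obtain ⟨η, hη⟩ := hne
  obtain ⟨σ, hσ⟩ := exists_sort η
  set ρ : Fin N → ℤ := fun i => η (σ i) with hρdef
  have hgρ : g.coeff ρ ≠ 0 := by
    rw [hρdef, ← perm_coeff, hg.2]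
    exact Finsupp.mem_support_iff.1 hη
  have hρW : ρ ∈ W χ := by
    by_contra h
    exact hgρ (mem_supported'.1 hg.1 ρ h)
  have hρχ : ρ ≠ χ := by
    intro h; rw [h] at hgρ; exact hgρ hgχ
  have hlt := cc_lt hχ hσ hρW hρχ
  -- the orbit part
  have h1 : orb ρ g ∈ ZZ k χ := by
    have h2 := IH ρ hσ hlt (orb_mem ρ hσ hg.2)
    refine (sup_le ?_ ?_ : Eig k ρ ⊔ ZZ k ρ ≤ ZZ k χ) h2
    · exact le_iSup (fun ρ : {ρ : Fin N → ℤ // Antitone ρ ∧ ρ ∈ W χ ∧ ρ ≠ χ} => Eig k ρ.1)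
        ⟨ρ, hσ, hρW, hρχ⟩
    · refine iSup_le fun τ => ?_
      refine le_iSup (fun ρ : {ρ : Fin N → ℤ // Antitone ρ ∧ ρ ∈ W χ ∧ ρ ≠ χ} => Eig k ρ.1)
        ⟨τ.1, τ.2.1, W_mono hρW τ.2.2.1, ?_⟩
      intro h
      have := cc_le hσ τ.2.1 τ.2.2.1
      rw [h] at this
      omega
  have h2 : g - orb ρ g ∈ ZZ k χ := by
    refine ihn _ ?_ (g - orb ρ g) rfl (sub_mem hg (VV_mono hρW (orb_mem ρ hσ hg.2))) ?_
    · rw [← hn]
      apply Finset.card_lt_card
      refine ⟨?_, ?_⟩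
      · intro ζ hζ
        rw [Finsupp.mem_support_iff, coeff_sub, Finsupp.sub_apply, orb_coeff] at hζ
        rw [Finsupp.mem_support_iff]
        intro h
        apply hζ
        rw [h]; simp
      · intro hsub
        have := hsub hη
        rw [Finsupp.mem_support_iff, coeff_sub, Finsupp.sub_apply, orb_coeff,
          if_pos ⟨σ, rfl⟩, sub_self] at this
        exact this rfl
    · rw [coeff_sub, Finsupp.sub_apply, orb_coeff, hgχ]; simp
  have := add_mem h1 h2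
  rwa [add_sub_cancel] at this

lemma ZZ_surj [CharZero K] {k : K} (hk : ∀ q : ℚ, (q : K) ≠ k) {χ : Fin N → ℤ}
    (hχ : Antitone χ) {g : Lau K N} (hg : g ∈ ZZ k χ) :
    ∃ z ∈ ZZ k χ, II k N 2 z - ev k χ 2 • z = g := by
  have hle : ZZ k χ ≤ (ZZ k χ).map (II k N 2 - ev k χ 2 • LinearMap.id) := by
    conv_lhs => unfold ZZ
    refine iSup_le fun ρ => ?_
    intro f hf
    have hne := sub_ne_zero.2 (ev_ne hk hχ ρ.2.1 ρ.2.2.1 ρ.2.2.2)
    refine ⟨(ev k ρ.1 2 - ev k χ 2)⁻¹ • f, ?_, ?_⟩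
    · refine Submodule.smul_mem _ _ ?_
      exact (le_iSup (fun ρ : {ρ : Fin N → ℤ // Antitone ρ ∧ ρ ∈ W χ ∧ ρ ≠ χ} => Eig k ρ.1) ρ) hf
    · rw [map_smul, LinearMap.sub_apply, LinearMap.smul_apply, LinearMap.id_apply, hf.2,
        ← sub_smul, smul_smul, inv_mul_cancel₀ hne, one_smul]
  obtain ⟨z, hz, hz'⟩ := hle hg
  exact ⟨z, hz, hz'⟩

/-- Decomposition of `VV χ`. -/
theorem VV_le [CharZero K] {k : K} (hk : ∀ q : ℚ, (q : K) ≠ k) :
    ∀ (n : ℕ) (χ : Fin N → ℤ), Antitone χ → (cc χ).toNat = n → VV K χ ≤ Eig k χ ⊔ ZZ k χ := by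
  intro n
  induction n using Nat.strong_induction_on with
  | _ n ihn =>
  intro χ hχ hn f hf
  have IH : ∀ ρ : Fin N → ℤ, Antitone ρ → cc ρ < cc χ → VV K ρ ≤ Eig k ρ ⊔ ZZ k ρ := by
    intro ρ hρ hlt
    have := cc_nonneg ρ
    exact ihn _ (by omega) ρ hρ rfl
  have hg : II k N 2 f - ev k χ 2 • f ∈ ZZ k χ := by
    refine low_mem k hχ IH _ _ rfl (sub_mem (VV_II k 2 hf) (Submodule.smul_mem _ _ hf)) ?_
    rw [coeff_sub, Finsupp.sub_apply, diag_II hχ k hf, coeff_smul, Finsupp.smul_apply,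
      smul_eq_mul, sub_self]
  obtain ⟨z, hz, hz'⟩ := ZZ_surj hk hχ hg
  have h1 : f - z ∈ Eig k χ := by
    refine ⟨sub_mem hf (ZZ_le k χ hz), ?_⟩
    rw [map_sub, smul_sub]
    have : II k N 2 f - II k N 2 z - (ev k χ 2 • f - ev k χ 2 • z) = 0 := by
      rw [sub_sub_sub_comm, hz', sub_self]
    exact sub_eq_zero.1 this
  have := Submodule.add_mem_sup h1 hz
  rwa [sub_add_cancel] at this

/-- a joint eigenvector is determined by its leading coefficient -/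
theorem eig_zero [CharZero K] {k : K} (hk : ∀ q : ℚ, (q : K) ≠ k) {χ : Fin N → ℤ}
    (hχ : Antitone χ) {g : Lau K N} (hg : g ∈ Eig k χ) (h0 : g.coeff χ = 0) : g = 0 := by
  have h1 : g ∈ ZZ k χ :=
    low_mem k hχ (fun ρ hρ _ => VV_le hk _ ρ hρ rfl) _ g rfl hg.1 h0
  have hind := Module.End.eigenspaces_iSupIndep (II k N 2 : Module.End K (Lau K N))
  have h2 := hind (ev k χ 2)
  rw [Submodule.disjoint_def] at h2
  apply h2
  · rw [Module.End.mem_eigenspace_iff]; exact hg.2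
  · refine (iSup_le fun ρ => ?_ : ZZ k χ ≤ _) h1
    intro f hf
    have hne := ev_ne hk hχ ρ.2.1 ρ.2.2.1 ρ.2.2.2
    have h3 : f ∈ Module.End.eigenspace (II k N 2 : Module.End K (Lau K N)) (ev k ρ.1 2) := by
      rw [Module.End.mem_eigenspace_iff]; exact hf.2
    exact Submodule.mem_iSup_of_mem (ev k ρ.1 2) (Submodule.mem_iSup_of_mem hne h3)

theorem II_eig [CharZero K] {k : K} (hk : ∀ q : ℚ, (q : K) ≠ k) {χ : Fin N → ℤ}
    (hχ : Antitone χ) {f : Lau K N} (hf : f ∈ Eig k χ) (n : ℕ) :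
    II k N n f = ev k χ n • f := by
  rw [← sub_eq_zero]
  apply eig_zero hk hχ
  · refine ⟨sub_mem (VV_II k n hf.1) (Submodule.smul_mem _ _ hf.1), ?_⟩
    rw [map_sub, map_smul, ← II_comm k n hf.1.2, hf.2, map_smul, smul_sub, smul_comm]
  · rw [coeff_sub, Finsupp.sub_apply, diag_II hχ k hf.1, coeff_smul, Finsupp.smul_apply,
      smul_eq_mul, sub_self]

end H83JL
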