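import Pool.Agent.H83JL.Tri

/-! Diagonal coefficients. -/

namespace H83JL

open Finset AddMonoidAlgebra

variable {K : Type*} [Field K] {N : ℕ}

lemma csum_card_Iic (χ : Fin N → ℤ) (a : Fin N) : csum χ (a.val + 1) = ∑ i ∈ Iic a, χ i := by
  unfold csum
  congr 1
  ext i
  simp only [mem_filter, mem_univ, true_and, mem_Iic, Fin.le_def]
  omega

lemma csum_card_Iio (χ : Fin N → ℤ) (a : Fin N) : csum χ (a.val) = ∑ i ∈ Iio a, χ i := by
  unfold csum
  congr 1
  ext i
  simp only [mem_filter, mem_univ, true_and, mem_Iio, Fin.lt_def]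

lemma csum_succ (χ : Fin N → ℤ) (a : Fin N) : csum χ (a.val + 1) = csum χ a.val + χ a := by
  rw [csum_card_Iic, csum_card_Iio, ← Finset.Iio_insert, Finset.sum_insert (by simp), add_comm]

/-- the orbit of an antitone weight is maximal in `W χ` -/
lemma top_orbit {χ : Fin N → ℤ} (hχ : Antitone χ) (σ : Equiv.Perm (Fin N)) {i j : Fin N}
    (hij : i ≠ j) (s : ℤ) (hs : 0 < s) (hs' : χ (σ j) - χ (σ i) < s) :
    stp i j (-s) (fun l => χ (σ l)) ∉ W χ := by
  intro hmem
  have h1 := (clo_W χ).perm σ⁻¹ _ hmem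
  have h2 : (fun l => stp i j (-s) (fun l => χ (σ l)) (σ⁻¹ l)) = stp (σ i) (σ j) (-s) χ := by
    ext l
    simp only [stp_apply]
    have e1 : σ⁻¹ l = i ↔ l = σ i := by
      constructor
      · rintro rfl; simp
      · rintro rfl; simp
    have e2 : σ⁻¹ l = j ↔ l = σ j := by
      constructor
      · rintro rfl; simp
      · rintro rfl; simp
    simp only [e1, e2]
    simp
  rw [h2] at h1
  have hab : σ i ≠ σ j := fun h => hij (σ.injective h)
  set a := σ i
  set b := σ j
  rcases lt_or_gt_of_ne hab with hlt | hlt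
  · have h3 := h1.2 (Iic a)
    rw [sum_stp, if_pos (by simp), if_neg (by simp [hlt]), Fin.card_Iic, csum_card_Iic] at h3
    linarith
  · have h3 := h1.2 (insert a (Iio b))
    have hni : a ∉ Iio b := by simp [hlt.le]
    have hb : b ∉ insert a (Iio b) := by simp [hab.symm]
    rw [sum_stp, if_pos (by simp), if_neg hb, Finset.card_insert_of_notMem hni, Fin.card_Iio,
      csum_succ, csum_card_Iio, Finset.sum_insert hni] at h3
    linarith

/-- the diagonal recursion -/
noncomputable def psi (k : K) (χ : Fin N → ℤ) : ℕ → Fin N → K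
  | 0 => fun _ => 1
  | n + 1 => fun b => (χ b : K) * psi k χ n b -
      k * ∑ c ∈ univ.filter (fun c => χ c < χ b), (psi k χ n b - psi k χ n c)

lemma psi_eq (k : K) (χ : Fin N → ℤ) (n : ℕ) {b c : Fin N} (h : χ b = χ c) :
    psi k χ n b = psi k χ n c := by
  induction n with
  | zero => rfl
  | succ n ih => simp only [psi]; rw [h, ih]

/-- the space of symmetric Laurent polynomials supported on weights dominated by `χ` -/
def VV (K : Type*) [Field K] (χ : Fin N → ℤ) : Submodule K (Lau K N) where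
  carrier := {f | f ∈ supported K K (W χ) ∧ Sym f}
  zero_mem' := ⟨zero_mem _, fun σ => by simp⟩
  add_mem' := by
    rintro f g ⟨h1, h2⟩ ⟨h3, h4⟩
    exact ⟨add_mem h1 h3, fun σ => by rw [map_add, h2 σ, h4 σ]⟩
  smul_mem' := by
    rintro c f ⟨h1, h2⟩
    exact ⟨Submodule.smul_mem _ _ h1, fun σ => by rw [map_smul, h2 σ]⟩

lemma VV_II {χ : Fin N → ℤ} (k : K) (n : ℕ) {f : Lau K N} (hf : f ∈ VV K χ) :
    II k N n f ∈ VV K χ :=
  ⟨II_mem (clo_W χ) k n hf.1, Sym.II_sym hf.2 k n⟩

lemma diag_dun {χ : Fin N → ℤ} (hχ : Antitone χ) (k : K) {f : Lau K N} (hf : f ∈ VV K χ)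
    (n : ℕ) : ∀ (i : Fin N) (σ : Equiv.Perm (Fin N)),
    ((dun k i ^ n) f).coeff (fun l => χ (σ l)) = f.coeff χ * psi k χ n (σ i) := by
  classical
  induction n with
  | zero =>
    intro i σ
    simp only [pow_zero, Module.End.one_apply, psi, mul_one]
    rw [← perm_coeff, hf.2]
  | succ n ih =>
    intro i σ
    set g := (dun k i ^ n) f with hg
    have hgm : g ∈ supported K K (W χ) := dun_pow_mem (clo_W χ) k i n hf.1
    rw [pow_succ', Module.End.mul_apply, ← hg, dun_apply]
    rw [coeff_sub, Finsupp.sub_apply, euler_coeff, coeff_smul, Finsupp.smul_apply, smul_eq_mul,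
      coeff_sum, Finset.sum_apply']
    have hterm : ∀ j ∈ univ.erase i, (DD i j g).coeff (fun l => χ (σ l)) =
        if χ (σ j) < χ (σ i) then f.coeff χ * (psi k χ n (σ i) - psi k χ n (σ j)) else 0 := by
      intro j hj
      simp only [mem_erase, mem_univ, and_true] at hj
      rw [DD_coeff (clo_W χ) (Ne.symm hj) (fun s hs hs' => top_orbit hχ σ (Ne.symm hj) s hs hs')
        hgm]
      split_ifs with h
      · rw [ih i σ]
        have e : swp i j (fun l => χ (σ l)) = fun l => χ ((σ * Equiv.swap i j) l) := rfl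
        rw [e, ih i (σ * Equiv.swap i j)]
        simp only [Equiv.Perm.mul_apply, Equiv.swap_apply_left]
        ring
      · rfl
    rw [Finset.sum_congr rfl hterm, ih i σ]
    have hsum : (∑ j ∈ univ.erase i, if χ (σ j) < χ (σ i) then
        f.coeff χ * (psi k χ n (σ i) - psi k χ n (σ j)) else 0) =
        ∑ c ∈ univ.filter (fun c => χ c < χ (σ i)),
          f.coeff χ * (psi k χ n (σ i) - psi k χ n c) := by
      rw [Finset.sum_filter]
      have : ∀ F : Fin N → K, F (σ i) = 0 → ∑ j ∈ univ.erase i, F (σ j) = ∑ c, F c := by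
        intro F hF
        rw [← Equiv.sum_comp σ F, ← Finset.add_sum_erase univ (fun j => F (σ j)) (mem_univ i),
          hF, zero_add]
      exact this (fun c => if χ c < χ (σ i) then
        f.coeff χ * (psi k χ n (σ i) - psi k χ n c) else 0) (by simp)
    rw [hsum, ← Finset.mul_sum]
    simp only [psi]
    ring

/-- eigenvalues -/
noncomputable def ev (k : K) (χ : Fin N → ℤ) (n : ℕ) : K := ∑ b, psi k χ n b

lemma diag_II {χ : Fin N → ℤ} (hχ : Antitone χ) (k : K) {f : Lau K N} (hf : f ∈ VV K χ)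
    (n : ℕ) : (II k N n f).coeff χ = ev k χ n * f.coeff χ := by
  rw [II, LinearMap.sum_apply, coeff_sum, Finset.sum_apply', ev, Finset.sum_mul]
  refine Finset.sum_congr rfl fun i _ => ?_
  have := diag_dun hχ k hf n i 1
  simp only [Equiv.Perm.coe_one, id_eq] at this
  rw [this, mul_comm]

/-! ### separation of eigenvalues -/

/-- an integer measure of weights -/
def cc (χ : Fin N → ℤ) : ℤ := ∑ b, ∑ c ∈ univ.filter (fun c => χ c < χ b), (χ b - χ c)

lemma ev_two (k : K) (χ : Fin N → ℤ) :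
    ev k χ 2 = ((∑ b, χ b ^ 2 : ℤ) : K) - k * (cc χ : K) := by
  simp only [ev, psi, mul_one, sub_self, Finset.sum_const_zero, mul_zero, sub_zero, cc]
  push_cast
  rw [Finset.sum_sub_distrib, Finset.mul_sum]
  simp only [pow_two]

lemma cc_antitone {χ : Fin N → ℤ} (hχ : Antitone χ) :
    cc χ = 2 * ∑ m ∈ range (N + 1), csum χ m - (N + 1) * ∑ i, χ i := by
  have h1 : cc χ = ∑ b, ∑ c, if b < c then (χ b - χ c) else 0 := by
    unfold cc
    refine Finset.sum_congr rfl fun b _ => ?_
    rw [Finset.sum_filter]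
    refine Finset.sum_congr rfl fun c _ => ?_
    by_cases hbc : b < c
    · have := hχ hbc.le
      by_cases hlt : χ c < χ b
      · simp [hlt, hbc]
      · have : χ b = χ c := le_antisymm (not_lt.1 hlt) this
        simp [this]
    · have := hχ (not_lt.1 hbc)
      simp [hbc, not_lt.2 this]
  have h2 : ∑ b, ∑ c, (if b < c then (χ b - χ c) else 0) =
      (∑ b : Fin N, χ b * (N - 1 - b.val : ℤ)) - ∑ c : Fin N, χ c * (c.val : ℤ) := by
    have e : ∀ b c : Fin N, (if b < c then (χ b - χ c) else 0) =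
        (if b < c then χ b else 0) - (if b < c then χ c else 0) := by
      intro b c; split_ifs <;> simp
    simp only [e, Finset.sum_sub_distrib]
    congr 1
    · refine Finset.sum_congr rfl fun b _ => ?_
      rw [← Finset.sum_filter, Finset.sum_const]
      have : (univ.filter (fun c => b < c)) = Ioi b := by ext; simp
      rw [this, Fin.card_Ioi, nsmul_eq_mul]
      have := b.isLt
      push_cast [Nat.cast_sub (show b.val ≤ N - 1 by omega), Nat.cast_sub (show 1 ≤ N by omega)]
      ring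
    · rw [Finset.sum_comm]
      refine Finset.sum_congr rfl fun c _ => ?_
      rw [← Finset.sum_filter, Finset.sum_const]
      have : (univ.filter (fun b => b < c)) = Iio c := by ext; simp
      rw [this, Fin.card_Iio, nsmul_eq_mul]
      ring
  have h3 : ∑ m ∈ range (N + 1), csum χ m = ∑ i : Fin N, χ i * (N - i.val : ℤ) := by
    unfold csum
    simp only [Finset.sum_filter]
    rw [Finset.sum_comm]
    refine Finset.sum_congr rfl fun i _ => ?_
    rw [← Finset.sum_filter, Finset.sum_const]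
    have : (range (N + 1)).filter (fun m => i.val < m) = Ioc i.val N := by
      ext m; simp only [mem_filter, mem_range, mem_Ioc]; omega
    rw [this, Nat.card_Ioc, nsmul_eq_mul, Nat.cast_sub i.isLt.le]
    ring
  rw [h1, h2, h3, Finset.mul_sum, Finset.mul_sum, ← Finset.sum_sub_distrib,
    ← Finset.sum_sub_distrib]
  refine Finset.sum_congr rfl fun i _ => ?_
  ring

lemma csum_le_of_mem {χ ρ : Fin N → ℤ} (h : ρ ∈ W χ) {m : ℕ} (hm : m ≤ N) :
    csum ρ m ≤ csum χ m := by
  have := h.2 (univ.filter (fun i : Fin N => i.val < m))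
  have hc : (univ.filter (fun i : Fin N => i.val < m)).card = m := by
    rw [Fin.card_filter_val_lt]; exact min_eq_right hm
  rw [hc] at this
  exact this

lemma eq_of_csum {χ ρ : Fin N → ℤ} (h : ∀ m ≤ N, csum ρ m = csum χ m) : ρ = χ := by
  ext i
  have h1 := h (i.val + 1) (by omega)
  have h2 := h i.val (by omega)
  rw [csum_succ, csum_succ] at h1
  linarith

lemma cc_le {χ ρ : Fin N → ℤ} (hχ : Antitone χ) (hρ : Antitone ρ) (h : ρ ∈ W χ) :
    cc ρ ≤ cc χ := by
  rw [cc_antitone hχ, cc_antitone hρ, h.1]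
  have : ∑ m ∈ range (N + 1), csum ρ m ≤ ∑ m ∈ range (N + 1), csum χ m :=
    Finset.sum_le_sum fun m hm => csum_le_of_mem h (by rw [mem_range] at hm; omega)
  linarith

lemma cc_lt {χ ρ : Fin N → ℤ} (hχ : Antitone χ) (hρ : Antitone ρ) (h : ρ ∈ W χ) (hne : ρ ≠ χ) :
    cc ρ < cc χ := by
  rw [cc_antitone hχ, cc_antitone hρ, h.1]
  have : ∑ m ∈ range (N + 1), csum ρ m < ∑ m ∈ range (N + 1), csum χ m := by
    have hle : ∀ m ∈ range (N + 1), csum ρ m ≤ csum χ m := fun m hm =>
      csum_le_of_mem h (by rw [mem_range] at hm; omega)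
    refine Finset.sum_lt_sum hle ?_
    by_contra hcon
    push Not at hcon
    exact hne (eq_of_csum fun m hm => le_antisymm (hle m (by simp; omega))
      (hcon m (by simp; omega)))
  linarith

lemma ev_ne [CharZero K] {k : K} (hk : ∀ q : ℚ, (q : K) ≠ k) {χ ρ : Fin N → ℤ}
    (hχ : Antitone χ) (hρ : Antitone ρ) (h : ρ ∈ W χ) (hne : ρ ≠ χ) :
    ev k ρ 2 ≠ ev k χ 2 := by
  intro he
  rw [ev_two, ev_two] at he
  have hlt := cc_lt hχ hρ h hne
  have hne' : ((cc χ - cc ρ : ℤ) : K) ≠ 0 := by
    rw [Int.cast_ne_zero]; omega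
  apply hk (((∑ b, χ b ^ 2) - (∑ b, ρ b ^ 2) : ℤ) / (cc χ - cc ρ : ℤ))
  rw [Rat.cast_div, Rat.cast_intCast, Rat.cast_intCast, div_eq_iff hne']
  push_cast at he ⊢
  linear_combination -he

end H83JL
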