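import Pool.Agent.H83JL.Rel

/-! The Heckman-Dunkl operators `d_i` and the integrals `I_n = ∑ d_i^n`. -/

namespace H83JL

open Finset AddMonoidAlgebra

variable {K : Type*} [Field K] {N : ℕ}

section ring
variable {R : Type*} [Ring R]

lemma rg1 (a U b V : R) : (a + U) * (b + V) - (b + V) * (a + U) =
    (a * b - b * a) + ((a * V - V * a) + (U * b - b * U) + (U * V - V * U)) := by noncomm_ring

lemma rg2 (a b U V S : R) : -((a - b) * S) + -((U - V) * S) = -((a + U - (b + V)) * S) := by
  noncomm_ring

lemma rg3 (a an b : R) : a * an * b - b * (a * an) =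
    a * (an * b - b * an) + (a * b - b * a) * an := by noncomm_ring

lemma rg4 (a b an bn S : R) : a * ((an - bn) * S) + (a - b) * (bn * S) =
    (a * an - b * bn) * S := by noncomm_ring

lemma rg5 (an b : R) : an * (b * b) - b * b * an =
    (an * b - b * an) * b + b * (an * b - b * an) := by noncomm_ring

lemma rg6 (p q r t S : R) : (p - q) * S + (r - t) * S = (p - t + (r - q)) * S := by
  noncomm_ring

end ring

/-- permutation as an endomorphism -/
noncomputable def SE (K : Type*) [Field K] {N : ℕ} (σ : Equiv.Perm (Fin N)) :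
    Module.End K (Lau K N) := (perm σ).toLinearMap

@[simp] lemma SE_apply (σ : Equiv.Perm (Fin N)) (f : Lau K N) : SE K σ f = perm σ f := rfl

/-- `∑_{j ≠ i} Δ_ij` -/
noncomputable def AA (K : Type*) [Field K] {N : ℕ} (i : Fin N) : Module.End K (Lau K N) :=
  ∑ j ∈ univ.erase i, DD i j

/-- Heckman-Dunkl operator -/
noncomputable def dun (k : K) (i : Fin N) : Module.End K (Lau K N) :=
  euler i - k • AA K i

lemma dun_apply (k : K) (i : Fin N) (f : Lau K N) :
    dun k i f = euler i f - k • ∑ j ∈ univ.erase i, DD i j f := by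
  simp [dun, AA]

lemma perm_AA (σ : Equiv.Perm (Fin N)) (i : Fin N) (f : Lau K N) :
    perm σ (AA K i f) = AA K (σ i) (perm σ f) := by
  simp only [AA, LinearMap.sum_apply, map_sum]
  refine Finset.sum_bij (fun j _ => σ j) ?_ ?_ ?_ ?_
  · intro j hj; simp only [mem_erase, mem_univ, and_true] at hj ⊢
    exact fun h => hj (σ.injective h)
  · intro a _ b _ h; exact σ.injective h
  · intro b hb
    refine ⟨σ⁻¹ b, ?_, by simp⟩
    simp only [mem_erase, mem_univ, and_true] at hb ⊢
    rintro h; apply hb; rw [← h]; simp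
  · intro j hj
    simp only [mem_erase, mem_univ, and_true] at hj
    exact perm_DD σ (Ne.symm hj) f

lemma perm_dun (k : K) (σ : Equiv.Perm (Fin N)) (i : Fin N) (f : Lau K N) :
    perm σ (dun k i f) = dun k (σ i) (perm σ f) := by
  simp only [dun, LinearMap.sub_apply, LinearMap.smul_apply, map_sub, map_smul, perm_AA,
    perm_euler]

lemma SE_dun (k : K) (σ : Equiv.Perm (Fin N)) (i : Fin N) :
    SE K σ * dun k i = dun k (σ i) * SE K σ := by
  apply LinearMap.ext; intro f
  exact perm_dun k σ i f

lemma SE_dun_pow (k : K) (σ : Equiv.Perm (Fin N)) (i : Fin N) (n : ℕ) :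
    SE K σ * dun k i ^ n = dun k (σ i) ^ n * SE K σ := by
  induction n with
  | zero => simp
  | succ n ih => rw [pow_succ, ← mul_assoc, ih, mul_assoc, SE_dun, ← mul_assoc, ← pow_succ]

lemma comm_AA {i j : Fin N} (hij : i ≠ j) :
    AA K i * AA K j - AA K j * AA K i = -((AA K i - AA K j) * SE K (Equiv.swap i j)) := by
  classical
  have split : ∀ (i j : Fin N), i ≠ j →
      AA K i = DD i j + ∑ m ∈ (univ.erase i).erase j, DD i m := by
    intro i j hij
    rw [AA, ← Finset.add_sum_erase (univ.erase i) (fun m => DD (K := K) i m)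
      (a := j) (by simp [hij.symm])]
  have hT : (univ.erase j).erase i = (univ.erase i).erase j := by
    ext x; simp [and_comm]
  set T := (univ.erase i).erase j with hTdef
  have hi := split i j hij
  have hj := split j i hij.symm
  rw [hT] at hj
  rw [← hTdef] at hi
  set U := ∑ m ∈ T, DD (K := K) i m with hU
  set V := ∑ m ∈ T, DD (K := K) j m with hV
  have hmem : ∀ m ∈ T, m ≠ i ∧ m ≠ j := by
    intro m hm; rw [hTdef] at hm; simp at hm; exact ⟨hm.2, hm.1⟩
  have key : (DD i j * V - V * DD i j) + (U * DD j i - DD j i * U) + (U * V - V * U) =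
      -((U - V) * SE K (Equiv.swap i j)) := by
    have hUV : U * V - V * U =
        ∑ m ∈ T, (DD i m * DD j m - DD j m * DD i m : Module.End K (Lau K N)) := by
      rw [hU, hV, Finset.sum_mul_sum, Finset.sum_mul_sum, Finset.sum_comm (s := T) (t := T)
        (f := fun i_1 j_1 => DD j i_1 * DD i j_1), ← Finset.sum_sub_distrib]
      refine Finset.sum_congr rfl fun m hm => ?_
      rw [← Finset.sum_sub_distrib]
      rw [Finset.sum_eq_single m]
      · intro l hl hlm
        rw [sub_eq_zero]
        apply LinearMap.ext; intro f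
        have hl' := hmem l hl
        have hm' := hmem m hm
        exact DD_DD_disj hij (Ne.symm hlm) hm'.1 hm'.2 hl'.1 hl'.2 f
      · intro h; exact absurd hm h
    have h1 : DD i j * V - V * DD i j =
        ∑ m ∈ T, (DD i j * DD j m - DD j m * DD i j : Module.End K (Lau K N)) := by
      rw [hV, Finset.mul_sum, Finset.sum_mul, ← Finset.sum_sub_distrib]
    have h2 : U * DD j i - DD j i * U =
        ∑ m ∈ T, (DD i m * DD j i - DD j i * DD i m : Module.End K (Lau K N)) := by
      rw [hU, Finset.mul_sum, Finset.sum_mul, ← Finset.sum_sub_distrib]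
    have h3 : -((U - V) * SE K (Equiv.swap i j)) =
        ∑ m ∈ T, -((DD i m - DD j m) * SE K (Equiv.swap i j) : Module.End K (Lau K N)) := by
      rw [hU, hV, ← Finset.sum_sub_distrib, Finset.sum_mul, Finset.sum_neg_distrib]
    rw [hUV, h1, h2, h3, ← Finset.sum_add_distrib, ← Finset.sum_add_distrib]
    refine Finset.sum_congr rfl fun m hm => ?_
    have hm' := hmem m hm
    apply LinearMap.ext; intro f
    exact DD_DD_three hij hm'.1.symm hm'.2.symm f
  have key2 : (DD i j * DD j i - DD j i * DD i j : Module.End K (Lau K N)) =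
      -((DD i j - DD j i) * SE K (Equiv.swap i j)) := by
    apply LinearMap.ext; intro f
    exact DD_DD_ij hij f
  rw [hi, hj]
  exact (rg1 _ _ _ _).trans ((congrArg₂ (· + ·) key2 key).trans (rg2 _ _ _ _ _))

lemma comm_euler_AA {i j : Fin N} (hij : i ≠ j) :
    (euler i * AA K j - AA K j * euler i : Module.End K (Lau K N)) =
      euler i * DD j i - DD j i * euler i := by
  have hmem : i ∈ univ.erase j := by simp [hij]
  rw [AA, ← Finset.add_sum_erase _ _ hmem, mul_add, add_mul]
  have : euler i * (∑ m ∈ (univ.erase j).erase i, DD j m) =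
      (∑ m ∈ (univ.erase j).erase i, DD j m) * (euler i : Module.End K (Lau K N)) := by
    rw [Finset.mul_sum, Finset.sum_mul]
    refine Finset.sum_congr rfl fun m hm => ?_
    simp only [mem_erase, mem_univ, and_true] at hm
    apply LinearMap.ext; intro f
    exact euler_DD_ne hm.2.symm hij hm.1.symm f
  rw [this]
  abel

lemma comm_euler {i j : Fin N} :
    (euler i * euler j : Module.End K (Lau K N)) = euler j * euler i := by
  apply lin_ext; intro η
  simp [mul_comm]

/-- The basic relation of the Dunkl operators. -/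
lemma dun_comm (k : K) {i j : Fin N} (hij : i ≠ j) :
    dun k i * dun k j - dun k j * dun k i =
      k • ((dun k i - dun k j) * SE K (Equiv.swap i j)) := by
  have h1 := comm_euler_AA (K := K) hij
  have h2 := comm_euler_AA (K := K) hij.symm
  have h3 := comm_AA (K := K) hij
  have h4 : -((euler i * DD j i - DD j i * euler i : Module.End K (Lau K N))) +
      (euler j * DD i j - DD i j * euler j) =
      (euler i - euler j) * SE K (Equiv.swap i j) := by
    apply LinearMap.ext; intro f
    exact euler_DD_rel hij f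
  rw [← h1, ← h2] at h4
  have h5 : (euler i * euler j : Module.End K (Lau K N)) = euler j * euler i := comm_euler
  unfold dun
  have e : (euler i - k • AA K i) * (euler j - k • AA K j) -
      (euler j - k • AA K j) * (euler i - k • AA K i) =
      (euler i * euler j - euler j * euler i) +
      k • (-((euler i * AA K j - AA K j * euler i : Module.End K (Lau K N))) +
        (euler j * AA K i - AA K i * euler j)) + k • k • (AA K i * AA K j - AA K j * AA K i) := by
    simp only [mul_sub, sub_mul, smul_mul_assoc, mul_smul_comm, smul_sub, smul_add, smul_neg]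
    abel
  rw [e, h3, h4, h5]
  simp only [sub_mul, smul_mul_assoc, smul_sub, smul_neg]
  abel

lemma dun_pow_comm (k : K) {i j : Fin N} (hij : i ≠ j) (n : ℕ) :
    dun k i ^ n * dun k j - dun k j * dun k i ^ n =
      k • ((dun k i ^ n - dun k j ^ n) * SE K (Equiv.swap i j)) := by
  induction n with
  | zero => simp
  | succ n ih =>
    have h1 := dun_comm k hij
    have h2 : SE K (Equiv.swap i j) * dun k i ^ n = dun k j ^ n * SE K (Equiv.swap i j) := by
      rw [SE_dun_pow, Equiv.swap_apply_left]
    have e : dun k i ^ (n + 1) * dun k j - dun k j * dun k i ^ (n + 1) =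
        dun k i * (dun k i ^ n * dun k j - dun k j * dun k i ^ n) +
        (dun k i * dun k j - dun k j * dun k i) * dun k i ^ n := by
      rw [pow_succ']; exact rg3 _ _ _
    rw [e, ih, h1]
    simp only [mul_smul_comm, smul_mul_assoc, ← smul_add]
    congr 1
    rw [mul_assoc (dun k i - dun k j), h2, pow_succ', pow_succ']
    exact rg4 _ _ _ _ _

lemma dun_pow_comm_sq (k : K) {i j : Fin N} (hij : i ≠ j) (n : ℕ) :
    dun k i ^ n * dun k j ^ 2 - dun k j ^ 2 * dun k i ^ n =
      k • ((dun k i ^ (n + 1) - dun k j ^ (n + 1) + (dun k j * dun k i ^ n - dun k j ^ n * dun k i))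
        * SE K (Equiv.swap i j)) := by
  have h1 := dun_pow_comm k hij n
  have h2 : SE K (Equiv.swap i j) * dun k j = dun k i * SE K (Equiv.swap i j) := by
    rw [SE_dun, Equiv.swap_apply_right]
  have e : dun k i ^ n * dun k j ^ 2 - dun k j ^ 2 * dun k i ^ n =
      (dun k i ^ n * dun k j - dun k j * dun k i ^ n) * dun k j +
        dun k j * (dun k i ^ n * dun k j - dun k j * dun k i ^ n) := by
    rw [pow_two]; exact rg5 _ _
  rw [e, h1]
  simp only [mul_smul_comm, smul_mul_assoc, ← smul_add]
  congr 1
  rw [mul_assoc (dun k i ^ n - dun k j ^ n), h2]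
  have e1 : dun k j * ((dun k i ^ n - dun k j ^ n) * SE K (Equiv.swap i j)) =
    (dun k j * dun k i ^ n - dun k j ^ (n + 1)) * SE K (Equiv.swap i j) := by
    rw [← mul_assoc, mul_sub, ← pow_succ']
  have e2 : (dun k i ^ n - dun k j ^ n) * (dun k i * SE K (Equiv.swap i j)) =
    (dun k i ^ (n + 1) - dun k j ^ n * dun k i) * SE K (Equiv.swap i j) := by
    rw [← mul_assoc, sub_mul, ← pow_succ]
  rw [e1, e2]
  exact rg6 _ _ _ _ _

/-- The integrals. -/
noncomputable def II (k : K) (N : ℕ) (n : ℕ) : Module.End K (Lau K N) := ∑ i, dun k i ^ n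

/-- symmetric Laurent polynomials -/
def Sym (f : Lau K N) : Prop := ∀ σ : Equiv.Perm (Fin N), perm σ f = f

lemma SE_II (k : K) (n : ℕ) (σ : Equiv.Perm (Fin N)) :
    SE K σ * II k N n = II k N n * SE K σ := by
  rw [II, Finset.mul_sum, Finset.sum_mul]
  simp only [SE_dun_pow]
  exact Equiv.sum_comp σ (fun i => dun k i ^ n * SE K σ)

lemma Sym.II_sym {f : Lau K N} (hf : Sym f) (k : K) (n : ℕ) : Sym (II k N n f) := by
  intro σ
  have := LinearMap.congr_fun (SE_II k n σ) f
  simp only [Module.End.mul_apply, SE_apply, hf σ] at this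
  exact this

/-- The integrals commute with `I_2` on symmetric functions. -/
lemma II_comm (k : K) (n : ℕ) {f : Lau K N} (hf : Sym f) :
    II k N n (II k N 2 f) = II k N 2 (II k N n f) := by
  have hS : ∀ (i j : Fin N) (A : Module.End K (Lau K N)),
      (A * SE K (Equiv.swap i j)) f = A f := by
    intro i j A
    rw [Module.End.mul_apply, SE_apply, hf]
  rw [← sub_eq_zero, ← Module.End.mul_apply, ← Module.End.mul_apply, ← LinearMap.sub_apply]
  have e : II k N n * II k N 2 - II k N 2 * II k N n =
      ∑ i, ∑ j, (dun k i ^ n * dun k j ^ 2 - dun k j ^ 2 * dun k i ^ n) := by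
    rw [II, II, Finset.sum_mul_sum, Finset.sum_mul_sum,
      Finset.sum_comm (f := fun i j => dun k i ^ 2 * dun k j ^ n), ← Finset.sum_sub_distrib]
    refine Finset.sum_congr rfl fun i _ => ?_
    rw [← Finset.sum_sub_distrib]
  have h1 : ∀ i j : Fin N, (dun k i ^ n * dun k j - dun k j * dun k i ^ n) f =
      k • ((dun k i ^ n) f - (dun k j ^ n) f) := by
    intro i j
    by_cases hij : i = j
    · subst hij
      rw [sub_self, smul_zero, ← pow_succ, ← pow_succ', sub_self]; rfl
    · rw [dun_pow_comm k hij, LinearMap.smul_apply, hS, LinearMap.sub_apply]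
  have h2 : ∀ i j : Fin N, (dun k i ^ n * dun k j ^ 2 - dun k j ^ 2 * dun k i ^ n) f =
      k • ((dun k i ^ (n + 1)) f - (dun k j ^ (n + 1)) f +
        ((dun k j * dun k i ^ n) f - (dun k j ^ n * dun k i) f)) := by
    intro i j
    by_cases hij : i = j
    · subst hij
      rw [sub_self, zero_add, ← pow_succ, ← pow_succ', ← pow_add, ← pow_add, add_comm, sub_self,
        sub_self, smul_zero]; rfl
    · rw [dun_pow_comm_sq k hij, LinearMap.smul_apply, hS]; rfl
  have h3 : ∑ i : Fin N, ∑ j : Fin N, (k • ((dun k i ^ n) f - (dun k j ^ n) f)) = 0 := by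
    simp only [smul_sub, Finset.sum_sub_distrib]
    rw [Finset.sum_comm, sub_self]
  rw [e]
  simp only [LinearMap.sum_apply]
  simp only [h2, ← Finset.smul_sum]
  have h4 : ∑ i : Fin N, ∑ j : Fin N, ((dun k i ^ (n + 1)) f - (dun k j ^ (n + 1)) f +
        ((dun k j * dun k i ^ n) f - (dun k j ^ n * dun k i) f)) = 0 := by
    simp only [Finset.sum_add_distrib, Finset.sum_sub_distrib]
    have a1 : ∑ i : Fin N, ∑ j : Fin N, (dun k i ^ (n + 1)) f =
      ∑ i : Fin N, ∑ j : Fin N, (dun k j ^ (n + 1)) f := Finset.sum_comm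
    have a2 : ∑ i : Fin N, ∑ j : Fin N, (dun k j ^ n * dun k i) f =
      ∑ i : Fin N, ∑ j : Fin N, (dun k i ^ n * dun k j) f := Finset.sum_comm
    rw [a1, a2, sub_self, zero_add, sub_eq_zero]
    have a3 : ∑ i : Fin N, ∑ j : Fin N, (dun k j * dun k i ^ n - dun k i ^ n * dun k j) f = 0 := by
      have : ∀ i j : Fin N, (dun k j * dun k i ^ n - dun k i ^ n * dun k j) f =
          -(k • ((dun k i ^ n) f - (dun k j ^ n) f)) := by
        intro i j
        rw [← h1, ← LinearMap.neg_apply, neg_sub]
      simp only [this, Finset.sum_neg_distrib]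
      rw [h3, neg_zero]
    simp only [LinearMap.sub_apply, Finset.sum_sub_distrib] at a3
    exact sub_eq_zero.1 a3
  rw [h4, smul_zero]

end H83JL
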