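import Pool.Agent.H83JL.Lam
import Pool.Agent.H83JL.Decomp

/-! The eigenvalues through the functional `Lam`. -/

namespace H83JL

open Polynomial

section rows
variable {R : Type*} [CommRing R]

/-- add the rows `(y_j - k, y_j)`, `j < m`, on top of `base` -/
def rowl (k : R) (y : ℕ → R) (base : List (R × R)) : ℕ → List (R × R)
  | 0 => base
  | m + 1 => (y m - k, y m) :: rowl k y base m

@[simp] lemma rowl_zero (k : R) (y : ℕ → R) (base : List (R × R)) : rowl k y base 0 = base := rfl
lemma rowl_succ (k : R) (y : ℕ → R) (base : List (R × R)) (m : ℕ) :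
    rowl k y base (m + 1) = (y m - k, y m) :: rowl k y base m := rfl

lemma rowl_add (k : R) (y : ℕ → R) (base : List (R × R)) (a b : ℕ) :
    rowl k y base (a + b) = rowl k (fun s => y (a + s)) (rowl k y base a) b := by
  induction b with
  | zero => rfl
  | succ b ih => rw [← add_assoc, rowl_succ, ih, rowl_succ]

lemma rowl_congr (k : R) {y y' : ℕ → R} (base : List (R × R)) {m : ℕ} (h : ∀ j < m, y j = y' j) :
    rowl k y base m = rowl k y' base m := by
  induction m with
  | zero => rfl
  | succ m ih =>
    rw [rowl_succ, rowl_succ, ih (fun j hj => h j (by omega)), h m (by omega)]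

lemma Lam_rowl_congr (k : R) (y : ℕ → R) {base base' : List (R × R)}
    (h : ∀ q, Lam base q = Lam base' q) (m : ℕ) :
    ∀ q, Lam (rowl k y base m) q = Lam (rowl k y base' m) q := by
  induction m with
  | zero => exact h
  | succ m ih => intro q; rw [rowl_succ, rowl_succ, Lam_cons, Lam_cons, ih, ih]

lemma Dl_rowl (k : R) (y : ℕ → R) (base : List (R × R)) (m : ℕ) :
    Dl (rowl k y base m) = (∏ j ∈ Finset.range m, (X - C (y j))) * Dl base := by
  induction m with
  | zero => simp
  | succ m ih => rw [rowl_succ, Dl_cons, ih, Finset.prod_range_succ]; ring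

lemma Nl_rowl (k : R) (y : ℕ → R) (base : List (R × R)) (m : ℕ) :
    Nl (rowl k y base m) = (∏ j ∈ Finset.range m, (X - C (y j - k))) * Nl base := by
  induction m with
  | zero => simp
  | succ m ih => rw [rowl_succ, Nl_cons, ih, Finset.prod_range_succ]; ring

lemma rowl_map {S : Type*} [CommRing S] (φ : R →+* S) (k : R) (y : ℕ → R)
    (base : List (R × R)) (m : ℕ) :
    (rowl k y base m).map (Prod.map φ φ) =
      rowl (φ k) (fun j => φ (y j)) (base.map (Prod.map φ φ)) m := by
  induction m with
  | zero => rfl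
  | succ m ih => rw [rowl_succ, List.map_cons, ih, rowl_succ]; simp

/-- a block of equal rows merges into one pair -/
lemma Lam_block (k : R) (a : ℕ) (base : List (R × R)) (r : ℕ) : ∀ q,
    Lam (rowl k (fun s => -(k * ((a + s : ℕ) : R))) base (r + 1)) q =
      Lam ((-(k * ((a + r + 1 : ℕ) : R)), -(k * ((a : ℕ) : R))) :: base) q := by
  induction r with
  | zero =>
    intro q
    rw [rowl_succ, rowl_zero]
    congr 3
    push_cast; ring
  | succ r ih =>
    intro q
    rw [rowl_succ, Lam_cons]
    rw [ih, ih]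
    rw [← Lam_merge (-(k * ((a + (r + 1) + 1 : ℕ) : R))) (-(k * ((a + r + 1 : ℕ) : R))) _ base q,
      Lam_cons (_, _) (_ :: base)]
    simp only [← add_assoc]
    have e : -(k * ((a + r + 1 : ℕ) : R)) - k = -(k * ((a + r + 1 + 1 : ℕ) : R)) := by
      push_cast; ring
    rw [e]

/-- The list of a bipartition. -/
def blist (k t : R) (L L' : ℕ) (nu tau : ℕ → ℕ) : List (R × R) :=
  rowl k (fun s => (nu (L - 1 - s) : R) - k * (t - L + s))
    ((-(k * (t - L)), -(k * L')) :: rowl k (fun j => -(tau j : R) - k * j) [] L') L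

lemma blist_map {S : Type*} [CommRing S] (φ : R →+* S) (k t : R) (L L' : ℕ) (nu tau : ℕ → ℕ) :
    (blist k t L L' nu tau).map (Prod.map φ φ) = blist (φ k) (φ t) L L' nu tau := by
  rw [blist, rowl_map, List.map_cons, rowl_map]
  simp [blist]

lemma Dl_blist (k t : R) (L L' : ℕ) (nu tau : ℕ → ℕ) :
    Dl (blist k t L L' nu tau) =
      (∏ i ∈ Finset.range L, (X - C ((nu i : R) - k * (t - 1 - i)))) *
      ((X - C (-(k * L'))) * ∏ j ∈ Finset.range L', (X - C (-(tau j : R) - k * j))) := by
  rw [blist, Dl_rowl, Dl_cons, Dl_rowl, Dl_nil, mul_one]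
  congr 1
  rw [← Finset.prod_range_reflect]
  refine Finset.prod_congr rfl fun i hi => ?_
  rw [Finset.mem_range] at hi
  congr 3
  · congr 2; omega
  · push_cast [Nat.cast_sub (show i ≤ L - 1 by omega), Nat.cast_sub (show 1 ≤ L by omega)]
    ring

lemma Nl_blist (k t : R) (L L' : ℕ) (nu tau : ℕ → ℕ) :
    Nl (blist k t L L' nu tau) =
      (∏ i ∈ Finset.range L, (X - C ((nu i : R) - k * (t - i)))) *
      ((X - C (-(k * (t - L)))) * ∏ j ∈ Finset.range L', (X - C (-(tau j : R) - k * (j + 1)))) := by
  rw [blist, Nl_rowl, Nl_cons, Nl_rowl, Nl_nil, mul_one]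
  congr 1
  · rw [← Finset.prod_range_reflect]
    refine Finset.prod_congr rfl fun i hi => ?_
    rw [Finset.mem_range] at hi
    congr 2
    have : L - 1 - (L - 1 - i) = i := by omega
    rw [this]
    push_cast [Nat.cast_sub (show i ≤ L - 1 by omega), Nat.cast_sub (show 1 ≤ L by omega)]
    ring
  · congr 1
    refine Finset.prod_congr rfl fun j _ => ?_
    congr 2
    ring

end rows

section psi

variable {K : Type*} [Field K] {N : ℕ}

/-- abstract recursion lemma -/
lemma Lam_rec (k : K) (y : ℕ → K) (P : ℕ → ℕ → K) (M : ℕ) (h0 : ∀ m < M, P m 0 = 1)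
    (hs : ∀ m < M, ∀ n, P m (n + 1) = y m * P m n + k * ∑ j ∈ Finset.range m, P j n) :
    ∀ m ≤ M, ∀ q : K[X],
      k * ∑ j ∈ Finset.range m, q.sum (fun n c => c * P j n) = Lam (rowl k y [] m) q := by
  -- linear functionals
  have hlin : ∀ j, ∃ Φ : K[X] →ₗ[K] K, (∀ q, Φ q = q.sum (fun n c => c * P j n)) := by
    intro j
    refine ⟨Polynomial.lsum (fun n => LinearMap.mulRight K (P j n)), fun q => ?_⟩
    rw [Polynomial.lsum_apply]
    rfl
  choose Φ hΦ using hlin
  have hX : ∀ j n, Φ j (X ^ n) = P j n := by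
    intro j n
    rw [hΦ]
    rw [Polynomial.X_pow_eq_monomial, Polynomial.sum_monomial_index _ _ (by simp)]
    simp
  intro m
  induction m with
  | zero => intro _ q; simp
  | succ m ih =>
    intro hm q
    have ih' := ih (by omega)
    rw [Finset.sum_range_succ, mul_add, ih', rowl_succ, Lam_cons]
    congr 1
    have e : (y m, y m).2 = y m := rfl
    simp only [sub_sub_cancel]
    congr 1
    rw [← hΦ]
    -- Φ m q = q(y) + Lam (dq q)
    set Ψ : K[X] →ₗ[K] K :=
      { toFun := fun q => q.eval (y m) + Lam (rowl k y [] m) (dq (y m) q)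
        map_add' := by intro p q; rw [dq_add, Lam_add, eval_add]; ring
        map_smul' := by
          intro c q
          rw [smul_eq_C_mul, dq_C_mul, Lam_C_mul, eval_mul, eval_C, RingHom.id_apply,
            smul_eq_mul, mul_add] } with hΨ
    have hP : ∀ q, Ψ q = q.eval (y m) + Lam (rowl k y [] m) (dq (y m) q) := fun q => rfl
    rw [← hP]
    have : Φ m = Ψ := by
      apply Polynomial.lhom_ext'
      intro n
      apply LinearMap.ext_ring
      simp only [LinearMap.comp_apply, ← Polynomial.X_pow_eq_monomial]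
      induction n with
      | zero =>
        rw [hX, h0 m (by omega), hP, pow_zero, dq_one, Lam_zero]; simp
      | succ n ihn =>
        have h3 : ∀ j ∈ Finset.range m, (X ^ n : K[X]).sum (fun n c => c * P j n) = P j n := by
          intro j _
          rw [← hΦ, hX]
        have h4 : Lam (rowl k y [] m) (X ^ n) = k * ∑ j ∈ Finset.range m, P j n := by
          rw [← ih', Finset.sum_congr rfl h3]
        rw [hX, hs m (by omega), ← hX m n, ihn, hP, hP, pow_succ', dq_X_mul, Lam_add, Lam_C_mul,
          h4, eval_mul, eval_X]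
        ring
    rw [this]

/-- the weight of a bipartition -/
def chi (N : ℕ) (nu tau : ℕ → ℕ) : Fin N → ℤ := fun i => (nu i : ℤ) - (tau (N - 1 - i) : ℤ)

lemma chi_antitone {nu tau : ℕ → ℕ} (hν : Antitone nu) (hτ : Antitone tau) :
    Antitone (chi N nu tau) := by
  intro a b hab
  unfold chi
  have h1 := hν (show (a : ℕ) ≤ b from hab)
  have h2 := hτ (show N - 1 - (b : ℕ) ≤ N - 1 - (a : ℕ) by
    have : (a : ℕ) ≤ b := hab
    omega)
  omega

lemma psi_succ_antitone (k : K) {χ : Fin N → ℤ} (hχ : Antitone χ) (n : ℕ) (b : Fin N) :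
    psi k χ (n + 1) b = ((χ b : K) - k * ((N - 1 - b.val : ℕ) : K)) * psi k χ n b +
      k * ∑ c ∈ Finset.Ioi b, psi k χ n c := by
  have h1 : ∑ c ∈ Finset.univ.filter (fun c => χ c < χ b), (psi k χ n b - psi k χ n c) =
      ∑ c ∈ Finset.Ioi b, (psi k χ n b - psi k χ n c) := by
    refine Finset.sum_subset_zero_on_sdiff ?_ ?_ (fun _ _ => rfl)
    · intro c hc
      simp only [Finset.mem_filter, Finset.mem_univ, true_and, Finset.mem_Ioi] at hc ⊢
      by_contra h
      exact absurd (hχ (not_lt.1 h)) (not_le.2 hc)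
    · intro c hc
      simp only [Finset.mem_sdiff, Finset.mem_filter, Finset.mem_univ, true_and,
        Finset.mem_Ioi, not_lt] at hc
      rw [psi_eq k χ n (le_antisymm hc.2 (hχ hc.1.le)), sub_self]
  simp only [psi]
  rw [h1, Finset.sum_sub_distrib, Finset.sum_const, Fin.card_Ioi, nsmul_eq_mul]
  ring

lemma ev_Lam (k : K) {χ : Fin N → ℤ} (hχ : Antitone χ) (y : ℕ → K)
    (hy : ∀ j (hj : j < N), y j = (χ ⟨N - 1 - j, by omega⟩ : K) - k * j) (q : K[X]) :
    q.sum (fun n c => c * (k * ev k χ n)) = Lam (rowl k y [] N) q := by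
  set P : ℕ → ℕ → K := fun m n => if h : m < N then psi k χ n ⟨N - 1 - m, by omega⟩ else 0
    with hP
  have h := Lam_rec k y P N ?_ ?_ N le_rfl q
  · rw [← h, Finset.mul_sum]
    rw [Polynomial.sum_def]
    have : ∀ n, ev k χ n = ∑ j ∈ Finset.range N, P j n := by
      intro n
      rw [ev, ← Finset.sum_range_reflect, Finset.sum_range]
      refine Finset.sum_congr rfl fun i _ => ?_
      have hi : N - 1 - (i : ℕ) < N := by omega
      simp only [hP, hi, dif_pos]
      congr 1
      ext
      show (i : ℕ) = N - 1 - (N - 1 - i)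
      omega
    simp only [this]
    simp only [Polynomial.sum_def]
    simp only [Finset.mul_sum]
    rw [Finset.sum_comm]
    refine Finset.sum_congr rfl fun j _ => Finset.sum_congr rfl fun n _ => ?_
    ring
  · intro m hm
    simp [hP, hm, psi]
  · intro m hm n
    have hPm : ∀ n, P m n = psi k χ n ⟨N - 1 - m, by omega⟩ := by intro n; simp [hP, hm]
    rw [hPm, hPm, psi_succ_antitone k hχ, hy m hm]
    congr 1
    · congr 3
      congr 1
      show N - 1 - (N - 1 - m) = m
      omega
    · congr 1
      refine Finset.sum_bij' (fun c _ => N - 1 - c.val) (fun j _ => ⟨N - 1 - j, by omega⟩) ?_ ?_ ?_ ?_ ?_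
      · intro c hc
        simp only [Finset.mem_Ioi, Fin.lt_def, Finset.mem_range] at hc ⊢
        omega
      · intro j hj
        simp only [Finset.mem_Ioi, Fin.lt_def, Finset.mem_range] at hj ⊢
        omega
      · intro c hc
        ext
        show N - 1 - (N - 1 - c.val) = c.val
        omega
      · intro j hj
        simp only [Finset.mem_range] at hj
        show N - 1 - (N - 1 - j) = j
        omega
      · intro c hc
        have hc' : N - 1 - c.val < N := by omega
        simp only [hP, hc', dif_pos]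
        congr 1
        ext
        show c.val = N - 1 - (N - 1 - c.val)
        omega

/-- The eigenvalue functional of a bipartition. -/
theorem ev_blist (k : K) {L L' : ℕ} {nu tau : ℕ → ℕ} (hν : Antitone nu) (hτ : Antitone tau)
    (hνL : ∀ i, L ≤ i → nu i = 0) (hτL : ∀ j, L' ≤ j → tau j = 0) (hN : L + L' + 1 ≤ N)
    (q : K[X]) :
    q.sum (fun n c => c * (k * ev k (chi N nu tau) n)) = Lam (blist k (N : K) L L' nu tau) q := by
  set y : ℕ → K := fun j => ((nu (N - 1 - j) : K) - (tau j : K)) - k * j with hy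
  rw [ev_Lam k (chi_antitone hν hτ) y]
  · obtain ⟨r, hr⟩ : ∃ r, N = L' + (r + 1) + L := ⟨N - L - L' - 1, by omega⟩
    have e1 : rowl k y [] N = rowl k (fun s => y (L' + (r + 1) + s))
        (rowl k (fun s => y (L' + s)) (rowl k y [] L') (r + 1)) L := by
      rw [hr, rowl_add, rowl_add]
    rw [e1, blist]
    have e2 : rowl k (fun s => y (L' + (r + 1) + s))
        (rowl k (fun s => y (L' + s)) (rowl k y [] L') (r + 1)) L =
        rowl k (fun s => (nu (L - 1 - s) : K) - k * ((N : K) - L + s))
        (rowl k (fun s => y (L' + s)) (rowl k y [] L') (r + 1)) L := by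
      apply rowl_congr
      intro s hs
      have a1 : N - 1 - (L' + (r + 1) + s) = L - 1 - s := by omega
      have a2 : tau (L' + (r + 1) + s) = 0 := hτL _ (by omega)
      simp only [hy]
      rw [a1, a2, hr]
      push_cast
      ring
    rw [e2]
    apply Lam_rowl_congr
    intro q
    have e3 : rowl k (fun s => y (L' + s)) (rowl k y [] L') (r + 1) =
        rowl k (fun s => -(k * ((L' + s : ℕ) : K))) (rowl k y [] L') (r + 1) := by
      apply rowl_congr
      intro s hs
      have a1 : nu (N - 1 - (L' + s)) = 0 := hνL _ (by omega)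
      have a2 : tau (L' + s) = 0 := hτL _ (by omega)
      simp only [hy, a1, a2]
      push_cast
      ring
    have e4 : rowl k y [] L' = rowl k (fun j => -(tau j : K) - k * j) [] L' := by
      apply rowl_congr
      intro s hs
      have a1 : nu (N - 1 - s) = 0 := hνL _ (by omega)
      simp only [hy, a1]
      push_cast
      ring
    rw [e3, Lam_block, e4]
    congr 3
    rw [hr]
    push_cast
    ring
  · intro j hj
    simp only [hy, chi]
    have : N - 1 - (N - 1 - j) = j := by omega
    rw [this]
    push_cast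
    ring

end psi

end H83JL
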