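import Pool.Agent.H83JL.Stab
import Pool.Agent.H83JL.Rows

/-! A stable symmetric function with prescribed leading weight. -/

namespace H83JL

open Finset AddMonoidAlgebra

variable {K : Type*} [Field K]

/-- elementary symmetric function of the `x_i^e` -/
noncomputable def elem (K : Type*) [Field K] (N : ℕ) (e : ℤ) (r : ℕ) : Lau K N :=
  MvPolynomial.aeval (fun i => xp K i e) (MvPolynomial.esymm (Fin N) K r)

lemma xp_pow {N : ℕ} (i : Fin N) (a : ℤ) (m : ℕ) : xp K i a ^ m = xp K i (a * m) := by
  induction m with
  | zero => simp [xp_zero]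
  | succ m ih => rw [pow_succ, ih, xp_mul]; congr 1; push_cast; ring

lemma aeval_psum {N : ℕ} (e : ℤ) (m : ℕ) :
    MvPolynomial.aeval (fun i : Fin N => xp K i e) (MvPolynomial.psum (Fin N) K m) =
      psum K N (e * m) := by
  simp only [MvPolynomial.psum, map_sum, map_pow, MvPolynomial.aeval_X, xp_pow, psum]

/-- elementary symmetric functions are stable -/
lemma elem_stable [CharZero K] (e : ℤ) (r : ℕ) :
    ∃ E : MvPolynomial ℤ K, ∀ N, phi K N E = elem K N e r := by
  induction r using Nat.strong_induction_on with
  | _ r ih =>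
  rcases Nat.eq_zero_or_pos r with h0 | hpos
  · subst h0
    exact ⟨1, fun N => by rw [map_one, elem, MvPolynomial.esymm_zero, map_one]⟩
  choose! E hE using ih
  refine ⟨MvPolynomial.C ((r : K)⁻¹) * ((-1) ^ (r + 1) *
    ∑ a ∈ antidiagonal r with a.1 < r, (-1) ^ a.1 * E a.1 * MvPolynomial.X (e * (a.2 : ℤ))),
    fun N => ?_⟩
  have h := congrArg (MvPolynomial.aeval (fun i : Fin N => xp K i e))
    (MvPolynomial.mul_esymm_eq_sum (Fin N) K r)
  simp only [map_mul, map_natCast, map_pow, map_neg, map_one, map_sum, aeval_psum] at h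
  simp only [map_mul, map_natCast, map_pow, map_neg, map_one, map_sum, phi_X]
  have h2 : ∑ a ∈ antidiagonal r with a.1 < r, (-1) ^ a.1 * phi K N (E a.1) *
      psum K N (e * (a.2 : ℤ)) =
    ∑ a ∈ antidiagonal r with a.1 < r, (-1) ^ a.1 *
      (MvPolynomial.aeval (fun i : Fin N => xp K i e)) (MvPolynomial.esymm (Fin N) K a.1) *
        psum K N (e * (a.2 : ℤ)) := by
    refine Finset.sum_congr rfl fun a ha => ?_
    rw [Finset.mem_filter] at ha
    rw [hE a.1 ha.2, elem]
  rw [h2, ← h]
  have h3 : phi K N (MvPolynomial.C ((r : K)⁻¹)) = algebraMap K (Lau K N) ((r : K)⁻¹) := by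
    rw [phi, MvPolynomial.aeval_C]
  rw [h3, ← mul_assoc]
  have h4 : algebraMap K (Lau K N) ((r : K)⁻¹) * (r : Lau K N) = 1 := by
    rw [← map_natCast (algebraMap K (Lau K N)) r, ← map_mul, inv_mul_cancel₀, map_one]
    exact Nat.cast_ne_zero.2 hpos.ne'
  rw [h4, one_mul, elem]

/-- leading weight -/
def Lead {N : ℕ} (χ : Fin N → ℤ) (f : Lau K N) : Prop := f ∈ VV K χ ∧ f.coeff χ = 1

lemma csum_add {N : ℕ} (χ χ' : Fin N → ℤ) (m : ℕ) : csum (χ + χ') m = csum χ m + csum χ' m := by
  simp [csum, Finset.sum_add_distrib]

lemma W_add {N : ℕ} {χ χ' η η' : Fin N → ℤ} (h : η ∈ W χ) (h' : η' ∈ W χ') :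
    η + η' ∈ W (χ + χ') := by
  refine ⟨?_, fun S => ?_⟩
  · simp only [Pi.add_apply, Finset.sum_add_distrib, h.1, h'.1]
  · rw [csum_add]
    simp only [Pi.add_apply, Finset.sum_add_distrib]
    exact add_le_add (h.2 S) (h'.2 S)

lemma W_add_eq {N : ℕ} {χ χ' η η' : Fin N → ℤ} (h : η ∈ W χ) (h' : η' ∈ W χ')
    (e : η + η' = χ + χ') : η = χ ∧ η' = χ' := by
  have key : ∀ m ≤ N, csum η m = csum χ m := by
    intro m hm
    have h1 := csum_le_of_mem h hm
    have h2 := csum_le_of_mem h' hm
    have h3 := congrArg (fun x => csum x m) e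
    simp only [csum_add] at h3
    linarith
  have e1 := eq_of_csum key
  refine ⟨e1, ?_⟩
  rw [e1] at e
  exact add_left_cancel e

lemma Lead.mul {N : ℕ} {χ χ' : Fin N → ℤ} {f g : Lau K N} (hf : Lead χ f) (hg : Lead χ' g) :
    Lead (χ + χ') (f * g) := by
  classical
  refine ⟨⟨?_, fun σ => by rw [map_mul, hf.1.2, hg.1.2]⟩, ?_⟩
  · refine supp_induction (P := fun f => f * g ∈ supported K K (W (χ + χ'))) f hf.1.1 (by simp) ?_ ?_
    · intro f1 f2 h1 h2; rw [add_mul]; exact add_mem h1 h2
    · intro η hη c
      refine supp_induction (P := fun g => single η c * g ∈ supported K K (W (χ + χ')))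
        g hg.1.1 (by simp) ?_ ?_
      · intro f1 f2 h1 h2; rw [mul_add]; exact add_mem h1 h2
      · intro η' hη' c'
        rw [single_mul_single]
        exact single_mem (W_add hη hη') _
  · have key : (f * g).coeff (χ + χ') = f.coeff χ * g.coeff χ' := by
      refine supp_induction (P := fun f => (f * g).coeff (χ + χ') = f.coeff χ * g.coeff χ')
        f hf.1.1 (by simp) ?_ ?_
      · intro f1 f2 h1 h2
        rw [add_mul, coeff_add, Finsupp.add_apply, h1, h2, coeff_add, Finsupp.add_apply, add_mul]
      · intro η hη c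
        refine supp_induction (P := fun g => (single η c * g).coeff (χ + χ') =
          (single η c : Lau K N).coeff χ * g.coeff χ') g hg.1.1 (by simp) ?_ ?_
        · intro f1 f2 h1 h2
          rw [mul_add, coeff_add, Finsupp.add_apply, h1, h2, coeff_add, Finsupp.add_apply, mul_add]
        · intro η' hη' c'
          rw [single_mul_single]
          simp only [coeff_single, Finsupp.single_apply]
          by_cases h : η + η' = χ + χ'
          · obtain ⟨h1, h2⟩ := W_add_eq hη hη' h
            simp [h1, h2]
          · have : ¬ (η = χ ∧ η' = χ') := by rintro ⟨rfl, rfl⟩; exact h rfl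
            rw [if_neg h]
            by_cases h1 : η = χ
            · have h2 : η' ≠ χ' := fun h2 => this ⟨h1, h2⟩
              simp [h2]
            · simp [h1]
    rw [key, hf.2, hg.2, mul_one]

lemma Lead.one {N : ℕ} : Lead (0 : Fin N → ℤ) (1 : Lau K N) := by
  refine ⟨⟨?_, fun σ => by rw [map_one]⟩, ?_⟩
  · rw [one_def]
    apply single_mem
    refine ⟨rfl, fun S => ?_⟩
    simp [csum]
  · simp [one_def, coeff_single]

lemma prod_xp {N : ℕ} (t : Finset (Fin N)) (e : ℤ) :
    ∏ i ∈ t, xp K i e = single (fun l => if l ∈ t then e else 0) 1 := by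
  classical
  induction t using Finset.induction_on with
  | empty => simp; rfl
  | insert a t ha ih =>
    rw [Finset.prod_insert ha, ih, xp, single_mul_single, mul_one]
    congr 1
    ext l
    simp only [Pi.add_apply, Pi.single_apply, Finset.mem_insert]
    by_cases h : l = a
    · subst h; simp [ha]
    · simp [h]

lemma elem_eq {N : ℕ} (e : ℤ) (r : ℕ) :
    elem K N e r = ∑ t ∈ powersetCard r univ, single (fun l => if l ∈ t then e else 0) 1 := by
  rw [elem, MvPolynomial.esymm, map_sum]
  refine Finset.sum_congr rfl fun t _ => ?_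
  rw [map_prod]
  simp only [MvPolynomial.aeval_X]
  exact prod_xp t e

lemma elem_Lead [CharZero K] {N : ℕ} {e : ℤ} (he : e ≠ 0) {r : ℕ} (T : Finset (Fin N))
    (hT : T.card = r)
    (h : ∀ t : Finset (Fin N), t.card = r →
      (fun l => if l ∈ t then e else 0) ∈ W (fun l => if l ∈ T then e else 0)) :
    Lead (fun l => if l ∈ T then e else 0) (elem K N e r) := by
  classical
  refine ⟨⟨?_, ?_⟩, ?_⟩
  · rw [elem_eq]
    refine sum_mem fun t ht => single_mem (h t ?_) _
    exact (mem_powersetCard.1 ht).2
  · obtain ⟨E, hE⟩ := elem_stable (K := K) e r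
    rw [← hE]
    exact phi_sym N E
  · rw [elem_eq, coeff_sum, Finset.sum_apply', Finset.sum_eq_single T]
    · simp [coeff_single]
    · intro t _ htT
      rw [coeff_single, Finsupp.single_apply, if_neg]
      intro hh
      apply htT
      ext l
      have := congrFun hh l
      by_cases h1 : l ∈ t <;> by_cases h2 : l ∈ T <;> simp_all
    · intro hh
      exact absurd (mem_powersetCard.2 ⟨subset_univ _, hT⟩) hh

lemma sum_ind {N : ℕ} (t S : Finset (Fin N)) (e : ℤ) :
    ∑ l ∈ S, (if l ∈ t then e else 0) = (t ∩ S).card * e := by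
  rw [Finset.sum_ite_mem, Finset.sum_const, Finset.inter_comm, nsmul_eq_mul]

lemma Lead_pos [CharZero K] {N r : ℕ} (hr : r ≤ N) :
    Lead (fun l : Fin N => if l.val < r then (1 : ℤ) else 0) (elem K N 1 r) := by
  classical
  set T := univ.filter (fun l : Fin N => l.val < r) with hT
  have hc : T.card = r := by rw [hT, Fin.card_filter_val_lt]; exact min_eq_right hr
  have := elem_Lead (K := K) (e := 1) one_ne_zero T hc ?_
  · simpa [hT] using this
  · intro t ht
    refine ⟨?_, fun S => ?_⟩
    · rw [sum_ind, sum_ind, Finset.inter_univ, Finset.inter_univ, ht, hc]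
    · rw [csum, sum_ind, sum_ind, mul_one, mul_one, Nat.cast_le]
      set U := univ.filter (fun l : Fin N => l.val < S.card) with hU
      have hSN : S.card ≤ N := by simpa using S.card_le_univ
      have hUc : U.card = S.card := by
        rw [hU, Fin.card_filter_val_lt]; exact min_eq_right hSN
      rcases le_total r S.card with h | h
      · have : T ∩ U = T := by
          rw [Finset.inter_eq_left]
          intro l hl
          simp only [hT, hU, mem_filter, mem_univ, true_and] at hl ⊢
          omega
        rw [this, hc, ← ht]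
        exact Finset.card_le_card Finset.inter_subset_left
      · have : T ∩ U = U := by
          rw [Finset.inter_eq_right]
          intro l hl
          simp only [hT, hU, mem_filter, mem_univ, true_and] at hl ⊢
          omega
        rw [this, hUc]
        exact Finset.card_le_card Finset.inter_subset_right

lemma Lead_neg [CharZero K] {N r : ℕ} (hr : r ≤ N) :
    Lead (fun l : Fin N => if N - 1 - l.val < r then (-1 : ℤ) else 0) (elem K N (-1) r) := by
  classical
  set T := univ.filter (fun l : Fin N => N - 1 - l.val < r) with hT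
  have hc : T.card = r := by
    have h1 : (univ.filter (fun l : Fin N => l.val < r)).card = r := by
      rw [Fin.card_filter_val_lt]; exact min_eq_right hr
    conv_rhs => rw [← h1]
    rw [hT]
    refine Finset.card_bij (fun l _ => Fin.rev l) ?_ ?_ ?_
    · intro l hl
      simp only [mem_filter, mem_univ, true_and, Fin.val_rev] at hl ⊢
      omega
    · intro a _ b _ h; exact Fin.rev_injective h
    · intro b hb
      refine ⟨Fin.rev b, ?_, Fin.rev_rev b⟩
      simp only [mem_filter, mem_univ, true_and, Fin.val_rev] at hb ⊢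
      omega
  have := elem_Lead (K := K) (e := -1) (by norm_num) T hc ?_
  · simpa [hT] using this
  · intro t ht
    refine ⟨?_, fun S => ?_⟩
    · rw [sum_ind, sum_ind, Finset.inter_univ, Finset.inter_univ, ht, hc]
    · rw [csum, sum_ind, sum_ind]
      set U := univ.filter (fun l : Fin N => l.val < S.card) with hU
      have hSN : S.card ≤ N := by simpa using S.card_le_univ
      have hUc : U.card = S.card := by
        rw [hU, Fin.card_filter_val_lt]; exact min_eq_right hSN
      have h1 : t.card + S.card ≤ N + (t ∩ S).card := by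
        rw [← Finset.card_union_add_card_inter]
        have : (t ∪ S).card ≤ N := by simpa using (t ∪ S).card_le_univ
        omega
      have h2 : (T ∩ U).card ≤ (t ∩ S).card := by
        rcases le_total (r + S.card) N with h | h
        · have : T ∩ U = ∅ := by
            rw [Finset.eq_empty_iff_forall_notMem]
            intro l hl
            simp only [hT, hU, mem_inter, mem_filter, mem_univ, true_and] at hl
            omega
          rw [this]; simp
        · have h3 : T ∪ U = univ := by
            rw [Finset.eq_univ_iff_forall]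
            intro l
            simp only [hT, hU, mem_union, mem_filter, mem_univ, true_and]
            omega
          have h4 := Finset.card_union_add_card_inter T U
          rw [h3, Finset.card_univ, Fintype.card_fin, hc, hUc] at h4
          omega
      have h3 : ((T ∩ U).card : ℤ) ≤ (t ∩ S).card := by exact_mod_cast h2
      linarith

/-- conjugate of an antitone sequence vanishing from `L` on -/
def conj (L : ℕ) (nu : ℕ → ℕ) (u : ℕ) : ℕ := ((range L).filter (fun i => u < nu i)).card

lemma conj_le (L : ℕ) (nu : ℕ → ℕ) (u : ℕ) : conj L nu u ≤ L := by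
  unfold conj
  refine (Finset.card_filter_le _ _).trans ?_
  simp

lemma lt_conj {L : ℕ} {nu : ℕ → ℕ} (hν : Antitone nu) (hL : ∀ i, L ≤ i → nu i = 0) (i u : ℕ) :
    i < conj L nu u ↔ u < nu i := by
  have hset : ∃ m ≤ L, ∀ i, u < nu i ↔ i < m := by
    classical
    have hex : ∃ m, ¬ (u < nu m) := ⟨L, by rw [hL L le_rfl]; omega⟩
    refine ⟨Nat.find hex, Nat.find_min' hex (by rw [hL L le_rfl]; omega), fun i => ?_⟩
    constructor
    · intro h
      by_contra hcon
      have := hν (not_lt.1 hcon)
      exact (Nat.find_spec hex) (lt_of_lt_of_le h this)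
    · intro h
      exact not_not.1 (Nat.find_min hex h)
  obtain ⟨m, hm, h⟩ := hset
  have : conj L nu u = m := by
    unfold conj
    have : (range L).filter (fun i => u < nu i) = range m := by
      ext i
      simp only [mem_filter, mem_range, h]
      omega
    rw [this, card_range]
  rw [this, h]

lemma sum_conj {L : ℕ} {nu : ℕ → ℕ} (hν : Antitone nu) (hL : ∀ i, L ≤ i → nu i = 0) (i : ℕ) :
    ∑ u ∈ range (nu 0), (if i < conj L nu u then (1 : ℤ) else 0) = nu i := by
  simp only [lt_conj hν hL]
  rw [← Finset.sum_filter, Finset.sum_const]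
  have : (range (nu 0)).filter (fun u => u < nu i) = range (nu i) := by
    ext u
    have := hν (Nat.zero_le i)
    simp only [mem_filter, mem_range]
    omega
  rw [this, card_range]
  simp

lemma Lead.prod {N : ℕ} (χ : ℕ → Fin N → ℤ) (f : ℕ → Lau K N) (m : ℕ)
    (h : ∀ u < m, Lead (χ u) (f u)) :
    Lead (∑ u ∈ range m, χ u) (∏ u ∈ range m, f u) := by
  induction m with
  | zero => exact Lead.one
  | succ m ih =>
    rw [Finset.sum_range_succ, Finset.prod_range_succ]
    exact (ih fun u hu => h u (by omega)).mul (h m (by omega))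

/-- A stable element with leading weight `chi N nu tau`. -/
theorem exists_lead [CharZero K] {L L' : ℕ} {nu tau : ℕ → ℕ} (hν : Antitone nu)
    (hτ : Antitone tau) (hνL : ∀ i, L ≤ i → nu i = 0) (hτL : ∀ j, L' ≤ j → tau j = 0) :
    ∃ u0 : MvPolynomial ℤ K, ∀ N, L ≤ N → L' ≤ N → Lead (chi N nu tau) (phi K N u0) := by
  choose E hE using fun r => elem_stable (K := K) 1 r
  choose E' hE' using fun r => elem_stable (K := K) (-1) r
  refine ⟨(∏ u ∈ range (nu 0), E (conj L nu u)) * ∏ u ∈ range (tau 0), E' (conj L' tau u),
    fun N hN hN' => ?_⟩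
  have h1 := Lead.prod (K := K) (N := N)
    (fun u l => if l.val < conj L nu u then (1 : ℤ) else 0)
    (fun u => elem K N 1 (conj L nu u)) (nu 0) (fun u _ => Lead_pos ((conj_le L nu u).trans hN))
  have h2 := Lead.prod (K := K) (N := N)
    (fun u l => if N - 1 - l.val < conj L' tau u then (-1 : ℤ) else 0)
    (fun u => elem K N (-1) (conj L' tau u)) (tau 0)
    (fun u _ => Lead_neg ((conj_le L' tau u).trans hN'))
  have h3 := h1.mul h2
  have e : chi N nu tau = (∑ u ∈ range (nu 0), fun l : Fin N =>
      if l.val < conj L nu u then (1 : ℤ) else 0) +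
      ∑ u ∈ range (tau 0), fun l : Fin N =>
        if N - 1 - l.val < conj L' tau u then (-1 : ℤ) else 0 := by
    ext l
    rw [Pi.add_apply, Finset.sum_apply, Finset.sum_apply, sum_conj hν hνL]
    have : ∀ u, (if N - 1 - l.val < conj L' tau u then (-1 : ℤ) else 0) =
        -(if N - 1 - l.val < conj L' tau u then (1 : ℤ) else 0) := by
      intro u; split_ifs <;> simp
    simp only [this, Finset.sum_neg_distrib, sum_conj hτ hτL, chi]
    ring
  rw [e, map_mul, map_prod, map_prod]
  simp only [hE, hE']
  exact h3

end H83JL
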