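import Mathlib

/-! The functional attached to a list of pairs (numerator root, denominator root). -/

namespace H83JL

open Polynomial

variable {R : Type*} [CommRing R]

/-- synthetic division by `X - β` -/
noncomputable def dq (β : R) (q : R[X]) : R[X] := q /ₘ (X - C β)

lemma dq_spec (β : R) (q : R[X]) : (X - C β) * dq β q = q - C (q.eval β) := by
  have h := modByMonic_add_div q (X - C β)
  rw [modByMonic_X_sub_C_eq_C_eval] at h
  rw [dq]
  linear_combination h

lemma X_sub_cancel (β : R) {p q : R[X]} (h : (X - C β) * p = (X - C β) * q) : p = q :=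
  (monic_X_sub_C β).isRegular.left h

lemma dq_unique (β : R) {q h : R[X]} {c : R} (e : (X - C β) * h = q - C c) : h = dq β q := by
  apply X_sub_cancel β
  rw [dq_spec, e]
  have := congrArg (eval β) e
  simp at this
  rw [sub_eq_zero.1 this.symm]

lemma dq_add (β : R) (p q : R[X]) : dq β (p + q) = dq β p + dq β q := by
  symm
  apply dq_unique β (c := (p + q).eval β)
  rw [mul_add, dq_spec, dq_spec, eval_add, C_add]
  ring

lemma dq_C_mul (β : R) (c : R) (q : R[X]) : dq β (C c * q) = C c * dq β q := by
  symm
  apply dq_unique β (c := c * q.eval β)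
  rw [mul_left_comm, dq_spec, C_mul]
  ring

lemma dq_one (β : R) : dq β (1 : R[X]) = 0 := by
  symm; apply dq_unique β (c := 1); simp

lemma dq_zero (β : R) : dq β (0 : R[X]) = 0 := by
  symm; apply dq_unique β (c := 0); simp

lemma dq_X_mul (β : R) (q : R[X]) : dq β (X * q) = q + C β * dq β q := by
  symm
  apply dq_unique β (c := β * q.eval β)
  rw [mul_add, mul_left_comm, dq_spec, C_mul]
  ring

lemma dq_map {S : Type*} [CommRing S] (φ : R →+* S) (β : R) (q : R[X]) :
    (dq β q).map φ = dq (φ β) (q.map φ) := by
  apply dq_unique (φ β) (c := φ (q.eval β))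
  have := congrArg (Polynomial.map φ) (dq_spec β q)
  simpa using this

/-- The functional. -/
noncomputable def Lam : List (R × R) → R[X] → R
  | [] => fun _ => 0
  | p :: M => fun q => Lam M q + (p.2 - p.1) * (q.eval p.2 + Lam M (dq p.2 q))

/-- denominator -/
noncomputable def Dl (l : List (R × R)) : R[X] := (l.map fun p => X - C p.2).prod
/-- numerator -/
noncomputable def Nl (l : List (R × R)) : R[X] := (l.map fun p => X - C p.1).prod

@[simp] lemma Lam_nil (q : R[X]) : Lam ([] : List (R × R)) q = 0 := rfl
lemma Lam_cons (p : R × R) (M : List (R × R)) (q : R[X]) :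
    Lam (p :: M) q = Lam M q + (p.2 - p.1) * (q.eval p.2 + Lam M (dq p.2 q)) := rfl
@[simp] lemma Dl_nil : Dl ([] : List (R × R)) = 1 := rfl
@[simp] lemma Nl_nil : Nl ([] : List (R × R)) = 1 := rfl
lemma Dl_cons (p : R × R) (M : List (R × R)) : Dl (p :: M) = (X - C p.2) * Dl M := rfl
lemma Nl_cons (p : R × R) (M : List (R × R)) : Nl (p :: M) = (X - C p.1) * Nl M := rfl

lemma Lam_add (l : List (R × R)) : ∀ p q : R[X], Lam l (p + q) = Lam l p + Lam l q := by
  induction l with
  | nil => intro p q; simp
  | cons a M ih =>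
    intro p q
    simp only [Lam_cons, dq_add, ih, eval_add]
    ring

lemma Lam_C_mul (l : List (R × R)) : ∀ (c : R) (q : R[X]), Lam l (C c * q) = c * Lam l q := by
  induction l with
  | nil => intro p q; simp
  | cons a M ih =>
    intro p q
    simp only [Lam_cons, dq_C_mul, ih, eval_mul, eval_C]
    ring

lemma Lam_zero (l : List (R × R)) : Lam l (0 : R[X]) = 0 := by
  have := Lam_C_mul l 0 0
  simpa using this

/-- `Lam` as a linear map -/
noncomputable def LamL (l : List (R × R)) : R[X] →ₗ[R] R where
  toFun := Lam l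
  map_add' := Lam_add l
  map_smul' c q := by rw [smul_eq_C_mul, Lam_C_mul]; rfl

lemma Lam_sub (l : List (R × R)) (p q : R[X]) : Lam l (p - q) = Lam l p - Lam l q :=
  map_sub (LamL l) p q

lemma Lam_eq_sum (l : List (R × R)) (q : R[X]) :
    Lam l q = q.sum (fun n c => c * Lam l (X ^ n)) := by
  have h : q = q.sum (fun n c => C c * X ^ n) := by
    rw [Polynomial.sum_C_mul_X_pow_eq]
  have h2 : LamL l q = LamL l (q.sum (fun n c => C c * X ^ n)) := by rw [← h]
  rw [Polynomial.sum_def, map_sum] at h2
  rw [Polynomial.sum_def]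
  refine h2.trans (Finset.sum_congr rfl fun n _ => ?_)
  exact Lam_C_mul l _ _

lemma Lam_map {S : Type*} [CommRing S] (φ : R →+* S) (l : List (R × R)) : ∀ q : R[X],
    Lam (l.map (Prod.map φ φ)) (q.map φ) = φ (Lam l q) := by
  induction l with
  | nil => intro q; simp
  | cons a M ih =>
    intro q
    rw [List.map_cons, Lam_cons, Lam_cons, ih]
    simp only [Prod.map_snd, Prod.map_fst]
    rw [← dq_map, ih, eval_map_apply]
    simp

/-- the key evaluation formula -/
lemma Lam_of_mul (l : List (R × R)) : ∀ (h g : R[X]) (y c : R),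
    (X - C y) * h = Dl l * g - C c → Lam l h = (Nl l * g).eval y - c := by
  induction l with
  | nil =>
    intro h g y c e
    rw [Dl_nil, one_mul] at e
    have := congrArg (eval y) e
    simp at this
    rw [Lam_nil, Nl_nil, one_mul]
    exact this
  | cons p M ih =>
    intro h g y c e
    rw [Dl_cons] at e
    have hc : (p.2 - y) * h.eval p.2 = - c := by
      have := congrArg (eval p.2) e
      simpa using this
    have e1 : (X - C y) * h = Dl M * ((X - C p.2) * g) - C c := by rw [e]; ring
    have h1 := ih h ((X - C p.2) * g) y c e1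
    have e2 : (X - C y) * dq p.2 h = Dl M * g - C (h.eval p.2) := by
      apply X_sub_cancel p.2
      have hd := dq_spec p.2 h
      have hc' : C ((p.2 - y) * h.eval p.2) = C (-c) := by rw [hc]
      simp only [C_mul, C_sub, C_neg] at hc'
      linear_combination (X - C y) * hd + e1 - hc'
    have h2 := ih (dq p.2 h) g y _ e2
    rw [Lam_cons, h1, h2, Nl_cons]
    simp only [eval_mul, eval_sub, eval_X, eval_C]
    ring

/-- divisibility by the denominator kills -/
lemma Lam_kill (l : List (R × R)) {q : R[X]} (h : Dl l ∣ q) : Lam l q = 0 := by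
  obtain ⟨g, rfl⟩ := h
  have := Lam_of_mul l (Dl l * g) ((X - C 0) * g) 0 0 (by simp; ring)
  rw [this]
  simp

lemma Lam_top (l : List (R × R)) {q g : R[X]} {y : R} (h : (X - C y) * q = Dl l * g) :
    Lam l q = (Nl l * g).eval y := by
  have := Lam_of_mul l q g y 0 (by simpa using h)
  simpa using this

/-- equal functionals have equal generating functions -/
lemma Lam_eq_imp [IsDomain R] [Infinite R] (l m : List (R × R)) (h : ∀ q, Lam l q = Lam m q) :
    Nl l * Dl m = Nl m * Dl l := by
  apply Polynomial.funext
  intro y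
  have e := dq_spec y (Dl l * Dl m)
  have h1 := Lam_of_mul l _ (Dl m) y _ e
  have h2 := Lam_of_mul m (dq y (Dl l * Dl m)) (Dl l) y _ (by rw [e]; ring)
  rw [h] at h1
  rw [h1] at h2
  linear_combination h2

/-- merging of adjacent pairs -/
lemma Lam_merge (α β γ : R) (M : List (R × R)) (q : R[X]) :
    Lam ((α, β) :: (β, γ) :: M) q = Lam ((α, γ) :: M) q := by
  have key : C (γ - β) * dq γ (dq β q) = dq γ q - dq β q := by
    apply X_sub_cancel β
    apply X_sub_cancel γ
    have h1 := dq_spec β q
    have h2 := dq_spec γ q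
    have h3 := dq_spec γ (dq β q)
    have h4 : (γ - β) * (dq β q).eval γ = q.eval γ - q.eval β := by
      have := congrArg (eval γ) h1
      simpa using this
    have h5 := congrArg C h4
    simp only [C_mul, C_sub] at h5 ⊢
    linear_combination (C γ - C β) * (X - C β) * h3 - (X - C β) * h2 + (X - C β) * h1 - (X - C β) * h5
  have h4 : (γ - β) * (dq β q).eval γ = q.eval γ - q.eval β := by
    have := congrArg (eval γ) (dq_spec β q)
    simpa using this
  have h6 : (γ - β) * Lam M (dq γ (dq β q)) = Lam M (dq γ q) - Lam M (dq β q) := by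
    rw [← Lam_C_mul, key, Lam_sub]
  simp only [Lam_cons]
  linear_combination (β - α) * h4 + (β - α) * h6

end H83JL
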