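import Pool.Agent.H83JL.Basic

/-! Relations between the Dunkl operators. -/

namespace H83JL

open Finset AddMonoidAlgebra

variable {K : Type*} [Field K] {N : ℕ}

/-- the swap of two variables -/
noncomputable def S (i j : Fin N) (f : Lau K N) : Lau K N := perm (Equiv.swap i j) f

lemma S_S (i j : Fin N) (f : Lau K N) : S i j (S i j f) = f := perm_swap_swap i j f

lemma S_comm (i j : Fin N) (f : Lau K N) : S i j f = S j i f := by
  rw [S, S, Equiv.swap_comm]

lemma perm_S (σ : Equiv.Perm (Fin N)) (i j : Fin N) (f : Lau K N) :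
    perm σ (S i j f) = S (σ i) (σ j) (perm σ f) := by
  rw [S, S, ← perm_mul, ← perm_mul, Equiv.mul_swap_eq_swap_mul]

lemma perm_DD (σ : Equiv.Perm (Fin N)) {i j : Fin N} (hij : i ≠ j) (f : Lau K N) :
    perm σ (DD i j f) = DD (σ i) (σ j) (perm σ f) := by
  have hσ : σ i ≠ σ j := fun h => hij (σ.injective h)
  apply cancel hσ
  rw [DD_spec hσ]
  have h := congrArg (perm σ) (DD_spec hij f)
  rw [map_mul, map_mul, map_sub, map_sub, perm_xp, perm_xp] at h
  rw [h]
  congr 2
  exact perm_S σ i j f

lemma S_euler_left {i j : Fin N} (f : Lau K N) : S i j (euler i f) = euler j (S i j f) := by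
  rw [S, perm_euler, Equiv.swap_apply_left]; rfl

lemma S_euler_right {i j : Fin N} (f : Lau K N) : S i j (euler j f) = euler i (S i j f) := by
  rw [S, perm_euler, Equiv.swap_apply_right]; rfl

lemma S_euler_ne {i j l : Fin N} (hi : l ≠ i) (hj : l ≠ j) (f : Lau K N) :
    S i j (euler l f) = euler l (S i j f) := by
  rw [S, perm_euler, Equiv.swap_apply_of_ne_of_ne hi hj]; rfl

lemma euler_xp (i j : Fin N) (a : ℤ) :
    euler i (xp K j a) = if i = j then (a : K) • xp K j a else 0 := by
  rw [xp, euler_single]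
  split_ifs with h
  · subst h; simp
  · simp [h]

lemma euler_DD_ne {i j l : Fin N} (hij : i ≠ j) (hi : l ≠ i) (hj : l ≠ j) (f : Lau K N) :
    euler l (DD i j f) = DD i j (euler l f) := by
  apply cancel hij
  have h := congrArg (euler l) (DD_spec hij f)
  rw [euler_mul, euler_mul, map_sub, map_sub, euler_xp, euler_xp, if_neg hi, if_neg hj] at h
  simp only [sub_self, zero_mul, zero_add] at h
  rw [h, DD_spec hij]
  congr 2
  rw [perm_euler, Equiv.swap_apply_of_ne_of_ne hi hj]

lemma DD_add_zero {i j : Fin N} (hij : i ≠ j) (f : Lau K N) :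
    xp K j 1 * DD i j f + xp K i 1 * DD j i f = 0 := by
  apply cancel hij
  have h1 := DD_spec hij f
  have h2 := DD_spec hij.symm f
  rw [Equiv.swap_comm] at h2
  rw [mul_zero]
  linear_combination xp K j 1 * h1 - xp K i 1 * h2

lemma euler_DD_rel {i j : Fin N} (hij : i ≠ j) (f : Lau K N) :
    -(euler i (DD j i f) - DD j i (euler i f)) + (euler j (DD i j f) - DD i j (euler j f)) =
      euler i (S i j f) - euler j (S i j f) := by
  apply cancel hij
  have h1 := congrArg (euler j) (DD_spec hij f)
  have h2 := congrArg (euler i) (DD_spec hij.symm f)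
  have h3 := DD_spec hij (euler j f)
  have h4 := DD_spec hij.symm (euler i f)
  have h5 := DD_add_zero hij f
  rw [perm_euler, Equiv.swap_apply_right] at h3
  rw [perm_euler, Equiv.swap_apply_right, Equiv.swap_comm] at h4
  rw [euler_mul, euler_mul, map_sub, map_sub, euler_xp, euler_xp, if_neg hij.symm, if_pos rfl]
    at h1
  rw [euler_mul, euler_mul, map_sub, map_sub, euler_xp, euler_xp, if_neg hij, if_pos rfl,
    Equiv.swap_comm] at h2
  simp only [Int.cast_one, one_smul] at h1 h2
  unfold S
  linear_combination h1 + h2 - h3 - h4 + h5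

section frac


lemma frac_DD {i j : Fin N} (hij : i ≠ j) (f : Lau K N) :
    algebraMap (Lau K N) (FractionRing (Lau K N)) (DD i j f) =
      algebraMap (Lau K N) (FractionRing (Lau K N)) (xp K i 1) *
        (algebraMap (Lau K N) (FractionRing (Lau K N)) f -
          algebraMap (Lau K N) (FractionRing (Lau K N)) (S i j f)) /
        (algebraMap (Lau K N) (FractionRing (Lau K N)) (xp K i 1) -
          algebraMap (Lau K N) (FractionRing (Lau K N)) (xp K j 1)) := by
  have h := congrArg (algebraMap (Lau K N) (FractionRing (Lau K N))) (DD_spec hij f)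
  simp only [map_mul, map_sub] at h
  have hne : algebraMap (Lau K N) (FractionRing (Lau K N)) (xp K i 1) -
          algebraMap (Lau K N) (FractionRing (Lau K N)) (xp K j 1) ≠ 0 := by
    rw [← map_sub]
    intro h0
    exact xp_sub_ne hij ((FaithfulSMul.algebraMap_eq_zero_iff _ _).1 h0)
  rw [eq_div_iff hne]
  rw [mul_comm, h]
  rfl

lemma frac_ne {i j : Fin N} (hij : i ≠ j) :
    algebraMap (Lau K N) (FractionRing (Lau K N)) (xp K i 1) -
      algebraMap (Lau K N) (FractionRing (Lau K N)) (xp K j 1) ≠ 0 := by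
  rw [← map_sub]
  intro h0
  exact xp_sub_ne hij ((FaithfulSMul.algebraMap_eq_zero_iff _ _).1 h0)

lemma frac_inj {f g : Lau K N}
    (h : algebraMap (Lau K N) (FractionRing (Lau K N)) f =
      algebraMap (Lau K N) (FractionRing (Lau K N)) g) : f = g :=
  FaithfulSMul.algebraMap_injective (Lau K N) (FractionRing (Lau K N)) h

lemma S_DD_1 {i j m : Fin N} (hij : i ≠ j) (him : i ≠ m) (hjm : j ≠ m) (f : Lau K N) :
    S i j (DD j m f) = DD i m (S i j f) := by
  rw [S, perm_DD _ hjm, Equiv.swap_apply_right, Equiv.swap_apply_of_ne_of_ne him.symm hjm.symm]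
  rfl

lemma DD_DD_ij {i j : Fin N} (hij : i ≠ j) (f : Lau K N) :
    DD i j (DD j i f) - DD j i (DD i j f) = - (DD i j (S i j f) - DD j i (S i j f)) := by
  have e1 : S i j (DD j i f) = DD i j (S i j f) := by
    rw [S, perm_DD _ hij.symm, Equiv.swap_apply_right, Equiv.swap_apply_left]; rfl
  have e2 : S j i (DD i j f) = DD j i (S i j f) := by
    rw [S_comm, S, perm_DD _ hij, Equiv.swap_apply_right, Equiv.swap_apply_left]; rfl
  apply frac_inj
  simp only [map_sub, map_neg]
  rw [frac_DD hij, frac_DD hij.symm (DD i j f), e1, e2]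
  simp only [frac_DD hij, frac_DD hij.symm, S_S, S_comm j i]
  have h := frac_ne (K := K) hij
  have h' := frac_ne (K := K) hij.symm
  generalize algebraMap (Lau K N) (FractionRing (Lau K N)) (xp K i 1) = a at *
  generalize algebraMap (Lau K N) (FractionRing (Lau K N)) (xp K j 1) = b at *
  generalize algebraMap (Lau K N) (FractionRing (Lau K N)) f = u at *
  generalize algebraMap (Lau K N) (FractionRing (Lau K N)) (S i j f) = v at *
  have hb : b - a = -(a - b) := by ring
  rw [hb]
  field_simp
  ring

lemma S_S3 {i j m : Fin N} (hij : i ≠ j) (him : i ≠ m) (hjm : j ≠ m) (f : Lau K N) :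
    S i m (S i j f) = S i j (S j m f) := by
  have := perm_S (Equiv.swap i j) j m f
  rw [Equiv.swap_apply_right, Equiv.swap_apply_of_ne_of_ne him.symm hjm.symm] at this
  exact this.symm

lemma S_ne_DD {i j l m : Fin N} (hli : l ≠ i) (hlj : l ≠ j) (hmi : m ≠ i) (hmj : m ≠ j)
    (hlm : l ≠ m) (f : Lau K N) :
    S i j (DD l m f) = DD l m (S i j f) := by
  rw [S, perm_DD _ hlm, Equiv.swap_apply_of_ne_of_ne hli hlj,
    Equiv.swap_apply_of_ne_of_ne hmi hmj]; rfl

lemma S_ne_S {i j l m : Fin N} (hli : l ≠ i) (hlj : l ≠ j) (hmi : m ≠ i) (hmj : m ≠ j)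
    (f : Lau K N) :
    S i j (S l m f) = S l m (S i j f) := by
  rw [S, perm_S _, Equiv.swap_apply_of_ne_of_ne hli hlj,
    Equiv.swap_apply_of_ne_of_ne hmi hmj]; rfl

/-- disjoint divided differences commute -/
lemma DD_DD_disj {i j l m : Fin N} (hij : i ≠ j) (hlm : l ≠ m) (hli : l ≠ i) (hlj : l ≠ j)
    (hmi : m ≠ i) (hmj : m ≠ j) (f : Lau K N) :
    DD i l (DD j m f) = DD j m (DD i l f) := by
  apply frac_inj
  have e1 : S i l (DD j m f) = DD j m (S i l f) :=
    S_ne_DD hij.symm hlj.symm hmi hlm.symm hmj.symm f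
  have e2 : S j m (DD i l f) = DD i l (S j m f) :=
    S_ne_DD hij hmi.symm hlj hlm hli.symm f
  have e3 : S j m (S i l f) = S i l (S j m f) :=
    S_ne_S hij hmi.symm hlj hlm f
  rw [frac_DD hli.symm, frac_DD hmj.symm (DD i l f), e1, e2]
  simp only [frac_DD hli.symm, frac_DD hmj.symm, e3]
  ring

/-- the three-index relation -/
lemma DD_DD_three {i j m : Fin N} (hij : i ≠ j) (him : i ≠ m) (hjm : j ≠ m) (f : Lau K N) :
    (DD i j (DD j m f) - DD j m (DD i j f)) + (DD i m (DD j i f) - DD j i (DD i m f)) +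
      (DD i m (DD j m f) - DD j m (DD i m f)) =
      - (DD i m (S i j f) - DD j m (S i j f)) := by
  have p1 : S i m (S i j f) = S i j (S j m f) := S_S3 hij him hjm f
  have p2 : S j m (S i m f) = S i j (S j m f) := by
    have h := S_S3 him.symm hjm.symm hij f
    rw [S_comm m j, S_comm m i, S_comm m i] at h
    rw [h, p1]
  have q1 : S j m (S i j f) = S i m (S j m f) := by
    have h := S_S3 hjm.symm him.symm hij.symm f
    rw [S_comm m j, S_comm m i, S_comm m j, S_comm j i] at h
    exact h.symm
  have q2 : S i j (S i m f) = S i m (S j m f) := by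
    have h := S_S3 hij.symm hjm him f
    rw [S_comm j i, S_comm j i] at h
    rw [← h, q1]
  have e1 : S i j (DD j m f) = DD i m (S i j f) := S_DD_1 hij him hjm f
  have e2 : S j m (DD i j f) = DD i m (S j m f) := by
    rw [S, perm_DD _ hij, Equiv.swap_apply_left, Equiv.swap_apply_of_ne_of_ne hij him]; rfl
  have e3 : S i m (DD j i f) = DD j m (S i m f) := by
    rw [S, perm_DD _ hij.symm, Equiv.swap_apply_left,
      Equiv.swap_apply_of_ne_of_ne hij.symm hjm]; rfl
  have e4 : S j i (DD i m f) = DD j m (S i j f) := by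
    rw [S_comm, S, perm_DD _ him, Equiv.swap_apply_left,
      Equiv.swap_apply_of_ne_of_ne him.symm hjm.symm]; rfl
  have e5 : S i m (DD j m f) = DD j i (S i m f) := by
    rw [S, perm_DD _ hjm, Equiv.swap_apply_right,
      Equiv.swap_apply_of_ne_of_ne hij.symm hjm]; rfl
  have e6 : S j m (DD i m f) = DD i j (S j m f) := by
    rw [S, perm_DD _ him, Equiv.swap_apply_right,
      Equiv.swap_apply_of_ne_of_ne hij him]; rfl
  have h1 := frac_ne (K := K) hij
  have h2 := frac_ne (K := K) him
  have h3 := frac_ne (K := K) hjm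
  apply frac_inj
  simp only [map_sub, map_neg, map_add]
  rw [frac_DD hij, frac_DD hjm (DD i j f), frac_DD him (DD j i f), frac_DD hij.symm (DD i m f),
    frac_DD him (DD j m f), frac_DD hjm (DD i m f), e1, e2, e3, e4, e5, e6]
  simp only [frac_DD hij, frac_DD hij.symm, frac_DD him, frac_DD hjm, S_comm j i]
  rw [p1, p2, q1, q2]
  generalize algebraMap (Lau K N) (FractionRing (Lau K N)) (xp K i 1) = a at *
  generalize algebraMap (Lau K N) (FractionRing (Lau K N)) (xp K j 1) = b at *
  generalize algebraMap (Lau K N) (FractionRing (Lau K N)) (xp K m 1) = c at *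
  generalize algebraMap (Lau K N) (FractionRing (Lau K N)) f = u at *
  generalize algebraMap (Lau K N) (FractionRing (Lau K N)) (S i j f) = v at *
  generalize algebraMap (Lau K N) (FractionRing (Lau K N)) (S i m f) = w at *
  generalize algebraMap (Lau K N) (FractionRing (Lau K N)) (S j m f) = z at *
  generalize algebraMap (Lau K N) (FractionRing (Lau K N)) (S i j (S j m f)) = p at *
  generalize algebraMap (Lau K N) (FractionRing (Lau K N)) (S i m (S j m f)) = q at *
  have hb : b - a = -(a - b) := by ring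
  rw [hb]
  field_simp
  ring

end frac

end H83JL
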