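import Pool.Agent.H83JL.Dunkl

/-! Stability of the integrals. -/

namespace H83JL

open Finset AddMonoidAlgebra

variable {K : Type*} [Field K]

/-- power sums -/
noncomputable def psum (K : Type*) [Field K] (N : ℕ) (a : ℤ) : Lau K N := ∑ i, xp K i a

/-- specialisation `p_a ↦ ∑ x_i^a` (in particular `p_0 ↦ N`) -/
noncomputable def phi (K : Type*) [Field K] (N : ℕ) : MvPolynomial ℤ K →ₐ[K] Lau K N :=
  MvPolynomial.aeval (psum K N)

lemma xp_zero {N : ℕ} (i : Fin N) : xp K i 0 = 1 := by
  rw [xp, Pi.single_zero]; rfl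

lemma xp_mul {N : ℕ} (i : Fin N) (a b : ℤ) : xp K i a * xp K i b = xp K i (a + b) := by
  rw [xp, xp, single_mul_single, xp, mul_one, Pi.single_add]

lemma psum_zero (N : ℕ) : psum K N 0 = (N : Lau K N) := by
  simp [psum, xp_zero]

lemma phi_X (N : ℕ) (a : ℤ) : phi K N (MvPolynomial.X a) = psum K N a := by
  simp [phi]

lemma perm_psum {N : ℕ} (σ : Equiv.Perm (Fin N)) (a : ℤ) :
    perm σ (psum K N a) = psum K N a := by
  rw [psum, map_sum]
  simp only [perm_xp]
  exact Equiv.sum_comp σ (fun i => xp K i a)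

lemma phi_sym (N : ℕ) (f : MvPolynomial ℤ K) : Sym (phi K N f) := by
  intro σ
  have : (perm σ).comp (phi K N) = phi K N := by
    apply MvPolynomial.algHom_ext
    intro a
    rw [AlgHom.comp_apply, phi_X, perm_psum]
  exact DFunLike.congr_fun this f

/-- stable families -/
inductive Good (K : Type*) [Field K] : (∀ N : ℕ, Fin N → Lau K N) → Prop
  | zero : Good K (fun _ _ => 0)
  | add {F G : ∀ N : ℕ, Fin N → Lau K N} : Good K F → Good K G → Good K (fun N i => F N i + G N i)
  | base (l : ℤ) (f : MvPolynomial ℤ K) : Good K (fun N i => xp K i l * phi K N f)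

lemma Good.congr {F G : ∀ N : ℕ, Fin N → Lau K N} (hF : Good K F) (h : ∀ N i, F N i = G N i) :
    Good K G := by
  have : F = G := by funext N i; exact h N i
  rwa [← this]

lemma Good.mul_phi {F : ∀ N : ℕ, Fin N → Lau K N} (hF : Good K F) (f : MvPolynomial ℤ K) :
    Good K (fun N i => F N i * phi K N f) := by
  induction hF with
  | zero => exact Good.zero.congr (by simp)
  | add _ _ h1 h2 => exact (h1.add h2).congr (fun N i => by ring)
  | base l g => exact (Good.base l (g * f)).congr (fun N i => by rw [map_mul]; ring)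

lemma Good.mul_xp {F : ∀ N : ℕ, Fin N → Lau K N} (hF : Good K F) (l : ℤ) :
    Good K (fun N i => xp K i l * F N i) := by
  induction hF with
  | zero => exact Good.zero.congr (by simp)
  | add _ _ h1 h2 => exact (h1.add h2).congr (fun N i => by ring)
  | base l' g => exact (Good.base (l + l') g).congr (fun N i => by rw [← xp_mul]; ring)

lemma Good.smul {F : ∀ N : ℕ, Fin N → Lau K N} (hF : Good K F) (c : K) :
    Good K (fun N i => c • F N i) := by
  refine (hF.mul_phi (MvPolynomial.C c)).congr (fun N i => ?_)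
  have : phi K N (MvPolynomial.C c) = algebraMap K (Lau K N) c := by
    rw [phi, MvPolynomial.aeval_C]
  rw [this, Algebra.smul_def, mul_comm]

lemma Good.phi (f : MvPolynomial ℤ K) : Good K (fun N _ => phi K N f) :=
  (Good.base 0 f).congr (fun N i => by rw [xp_zero, one_mul])

lemma Good.xp (l : ℤ) : Good K (fun _ i => xp K i l) :=
  (Good.base l 1).congr (fun N i => by rw [map_one, mul_one])

lemma Good.sum {ι : Type*} (s : Finset ι) {F : ι → ∀ N : ℕ, Fin N → Lau K N}
    (h : ∀ a ∈ s, Good K (F a)) : Good K (fun N i => ∑ a ∈ s, F a N i) := by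
  classical
  induction s using Finset.induction_on with
  | empty => exact Good.zero.congr (by simp)
  | insert a s ha ih =>
    refine ((h a (by simp)).add (ih fun b hb => h b (by simp [hb]))).congr (fun N i => ?_)
    rw [Finset.sum_insert ha]

lemma Good.total {F : ∀ N : ℕ, Fin N → Lau K N} (hF : Good K F) :
    ∃ g : MvPolynomial ℤ K, ∀ N, ∑ i, F N i = H83JL.phi K N g := by
  induction hF with
  | zero => exact ⟨0, fun N => by simp⟩
  | add _ _ h1 h2 =>
    obtain ⟨g1, h1⟩ := h1
    obtain ⟨g2, h2⟩ := h2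
    exact ⟨g1 + g2, fun N => by rw [Finset.sum_add_distrib, h1, h2, map_add]⟩
  | base l g =>
    exact ⟨MvPolynomial.X l * g, fun N => by rw [← Finset.sum_mul, map_mul, phi_X]; rfl⟩

lemma DD_mul_sym {N : ℕ} {i j : Fin N} (hij : i ≠ j) (f g : Lau K N) (hg : Sym g) :
    DD i j (f * g) = DD i j f * g := by
  apply cancel hij
  rw [DD_spec hij, ← mul_assoc, DD_spec hij, map_mul, hg]
  ring

lemma DD_xp_nat {N : ℕ} {i j : Fin N} (hij : i ≠ j) (l : ℕ) :
    DD i j (xp K i l) = ∑ s ∈ range l, xp K i (l - s : ℤ) * xp K j s := by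
  rw [xp, DD_single, DDmon]
  have h1 : (Pi.single i (l : ℤ) : Fin N → ℤ) j = 0 := Pi.single_eq_of_ne hij.symm _
  have h2 : (Pi.single i (l : ℤ) : Fin N → ℤ) i = l := Pi.single_eq_same _ _
  rw [h1, h2, if_pos (by positivity), sub_zero, Int.toNat_natCast]
  refine Finset.sum_congr rfl fun s _ => ?_
  rw [xp, xp, single_mul_single, mul_one]
  congr 1
  rw [stp, Pi.single_sub]

lemma DD_xp_neg {N : ℕ} {i j : Fin N} (hij : i ≠ j) (b : ℕ) :
    DD i j (xp K i (-(b : ℤ))) = -∑ s ∈ range b, xp K i (-s : ℤ) * xp K j (s - b : ℤ) := by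
  rcases Nat.eq_zero_or_pos b with hb | hb
  · subst hb
    have := DD_xp_nat (K := K) hij 0
    simpa using this
  rw [xp, DD_single, DDmon]
  have h1 : (Pi.single i (-(b : ℤ)) : Fin N → ℤ) j = 0 := Pi.single_eq_of_ne hij.symm _
  have h2 : (Pi.single i (-(b : ℤ)) : Fin N → ℤ) i = -b := Pi.single_eq_same _ _
  rw [h1, h2, if_neg (by omega), zero_sub, neg_neg, Int.toNat_natCast]
  congr 1
  refine Finset.sum_congr rfl fun s _ => ?_
  rw [xp, xp, single_mul_single, mul_one]
  congr 1
  ext l
  simp only [stp_apply, swp, Pi.add_apply, Pi.single_apply, Equiv.swap_apply_def]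
  split_ifs <;> simp_all <;> ring

lemma Good.DD_xp (l : ℤ) : Good K (fun _ i => ∑ j ∈ univ.erase i, DD i j (H83JL.xp K i l)) := by
  have key : ∀ (N : ℕ) (i : Fin N) (a b : ℤ),
      ∑ j ∈ univ.erase i, H83JL.xp K i a * H83JL.xp K j b =
        H83JL.xp K i a * H83JL.phi K N (MvPolynomial.X b) + (-1 : K) • H83JL.xp K i (a + b) := by
    intro N i a b
    rw [← Finset.mul_sum, phi_X, psum, ← Finset.add_sum_erase _ _ (mem_univ i), mul_add, xp_mul]
    simp
  rcases Int.le_total 0 l with hl | hl
  · obtain ⟨l, rfl⟩ := Int.eq_ofNat_of_zero_le hl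
    refine (Good.sum (range l) (F := fun s N i =>
      H83JL.xp K i (l - s : ℤ) * H83JL.phi K N (MvPolynomial.X (s : ℤ)) +
        (-1 : K) • H83JL.xp K i ((l - s : ℤ) + s)) ?_).congr ?_
    · intro s _
      exact (Good.base _ _).add ((Good.xp _).smul _)
    · intro N i
      have : ∀ j ∈ univ.erase i, DD i j (H83JL.xp K i (l : ℤ)) =
          ∑ s ∈ range l, H83JL.xp K i (l - s : ℤ) * H83JL.xp K j s := by
        intro j hj
        simp only [mem_erase, mem_univ, and_true] at hj
        exact DD_xp_nat (Ne.symm hj) l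
      rw [Finset.sum_congr rfl this, Finset.sum_comm]
      exact Finset.sum_congr rfl fun s _ => (key N i _ _).symm
  · obtain ⟨b, hb⟩ := Int.eq_ofNat_of_zero_le (neg_nonneg.2 hl)
    have hl' : l = -(b : ℤ) := by omega
    subst hl'
    refine ((Good.sum (range b) (F := fun s N i =>
      H83JL.xp K i (-s : ℤ) * H83JL.phi K N (MvPolynomial.X (s - b : ℤ)) +
        (-1 : K) • H83JL.xp K i ((-s : ℤ) + (s - b))) ?_).smul (-1)).congr ?_
    · intro s _
      exact (Good.base _ _).add ((Good.xp _).smul _)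
    · intro N i
      have : ∀ j ∈ univ.erase i, DD i j (H83JL.xp K i (-(b : ℤ))) =
          -∑ s ∈ range b, H83JL.xp K i (-s : ℤ) * H83JL.xp K j (s - b : ℤ) := by
        intro j hj
        simp only [mem_erase, mem_univ, and_true] at hj
        exact DD_xp_neg (Ne.symm hj) b
      rw [Finset.sum_congr rfl this, Finset.sum_neg_distrib, Finset.sum_comm, neg_one_smul]
      congr 1
      exact Finset.sum_congr rfl fun s _ => (key N i _ _).symm

lemma euler_psum {N : ℕ} (i : Fin N) (a : ℤ) : euler i (psum K N a) = (a : K) • xp K i a := by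
  rw [psum, map_sum]
  simp only [euler_xp]
  rw [Finset.sum_ite_eq]
  simp

lemma Good.euler_phi (f : MvPolynomial ℤ K) : Good K (fun N i => euler i (H83JL.phi K N f)) := by
  induction f using MvPolynomial.induction_on with
  | C a =>
    refine Good.zero.congr (fun N i => ?_)
    rw [H83JL.phi, MvPolynomial.aeval_C]
    show 0 = euler i (single 0 a)
    rw [euler_single]; simp
  | add f g hf hg =>
    exact (hf.add hg).congr (fun N i => by rw [map_add, map_add])
  | mul_X f a hf =>
    refine ((hf.mul_phi (MvPolynomial.X a)).add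
      (((Good.xp a).mul_phi f).smul (a : K))).congr (fun N i => ?_)
    rw [map_mul, euler_mul, phi_X, euler_psum, mul_smul_comm, mul_comm (H83JL.phi K N f)]

lemma Good.dun {F : ∀ N : ℕ, Fin N → Lau K N} (hF : Good K F) (k : K) :
    Good K (fun N i => dun k i (F N i)) := by
  induction hF with
  | zero => exact Good.zero.congr (by simp)
  | add _ _ h1 h2 => exact (h1.add h2).congr (fun N i => by rw [map_add])
  | base l f =>
    refine ((((Good.xp l).mul_phi f).smul (l : K)).add (((Good.euler_phi f).mul_xp l).add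
      (((Good.DD_xp l).mul_phi f).smul (-k)))).congr (fun N i => ?_)
    have h1 : ∑ j ∈ univ.erase i, DD i j (H83JL.xp K i l * H83JL.phi K N f) =
        (∑ j ∈ univ.erase i, DD i j (H83JL.xp K i l)) * H83JL.phi K N f := by
      rw [Finset.sum_mul]
      refine Finset.sum_congr rfl fun j hj => ?_
      simp only [mem_erase, mem_univ, and_true] at hj
      exact DD_mul_sym (Ne.symm hj) _ _ (phi_sym N f)
    rw [dun_apply, h1, euler_mul, euler_xp, if_pos rfl, smul_mul_assoc, neg_smul]
    ring

lemma Good.dun_pow {F : ∀ N : ℕ, Fin N → Lau K N} (hF : Good K F) (k : K) (n : ℕ) :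
    Good K (fun N i => (H83JL.dun k i ^ n) (F N i)) := by
  induction n with
  | zero => simpa using hF
  | succ n ih =>
    refine (ih.dun k).congr (fun N i => ?_)
    rw [pow_succ', Module.End.mul_apply]

/-- stability of the integrals -/
theorem II_stable (k : K) (n : ℕ) (f : MvPolynomial ℤ K) :
    ∃ g : MvPolynomial ℤ K, ∀ N, II k N n (phi K N f) = phi K N g := by
  obtain ⟨g, hg⟩ := ((Good.phi f).dun_pow k n).total
  refine ⟨g, fun N => ?_⟩
  rw [← hg, II, LinearMap.sum_apply]

/-- the action of `a(p_0)` -/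
noncomputable def sc (K : Type*) [Field K] : Polynomial K →ₐ[K] MvPolynomial ℤ K :=
  Polynomial.aeval (MvPolynomial.X 0)

lemma phi_sc (N : ℕ) (a : Polynomial K) (f : MvPolynomial ℤ K) :
    phi K N (sc K a * f) = a.eval (N : K) • phi K N f := by
  rw [map_mul]
  have : (phi K N).comp (sc K) = (Algebra.ofId K (Lau K N)).comp (Polynomial.aeval (N : K)) := by
    apply Polynomial.algHom_ext
    rw [AlgHom.comp_apply, AlgHom.comp_apply, sc, Polynomial.aeval_X, Polynomial.aeval_X, phi_X,
      psum_zero]
    simp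
  have h := DFunLike.congr_fun this a
  simp only [AlgHom.comp_apply, Polynomial.coe_aeval_eq_eval] at h
  rw [h, Algebra.smul_def]
  rfl

/-- the operators `k ∑ q_n I_n + c` -/
noncomputable def TT (k : K) (N : ℕ) (q : Polynomial K) (c : K) : Module.End K (Lau K N) :=
  q.sum (fun n a => (k * a) • II k N n) + c • LinearMap.id

lemma TT_apply (k : K) (N : ℕ) (q : Polynomial K) (c : K) (f : Lau K N) :
    TT k N q c f = ∑ n ∈ q.support, (k * q.coeff n) • II k N n f + c • f := by
  rw [TT, Polynomial.sum_def]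
  simp [LinearMap.sum_apply]

lemma TT_apply' (k : K) (N : ℕ) (q : Polynomial K) (c : K) (f : Lau K N) (s : Finset ℕ)
    (hs : q.support ⊆ s) :
    TT k N q c f = ∑ n ∈ s, (k * q.coeff n) • II k N n f + c • f := by
  rw [TT_apply]
  congr 1
  refine Finset.sum_subset hs fun n _ hn => ?_
  rw [Polynomial.notMem_support_iff.1 hn]; simp

/-- stability of the operators with coefficients polynomial in `p_0` -/
theorem TT_stable (k : K) (q : Polynomial (Polynomial K)) (c : Polynomial K)
    (f : MvPolynomial ℤ K) :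
    ∃ g : MvPolynomial ℤ K, ∀ N : ℕ,
      TT k N (q.map (Polynomial.evalRingHom (N : K))) (c.eval (N : K)) (phi K N f) =
        phi K N g := by
  choose G hG using fun n => II_stable k n f
  refine ⟨∑ n ∈ q.support, sc K (Polynomial.C k * q.coeff n) * G n + sc K c * f, fun N => ?_⟩
  rw [TT_apply' k N _ _ _ q.support (Polynomial.support_map_subset _ _), map_add, map_sum, phi_sc]
  congr 1
  refine Finset.sum_congr rfl fun n _ => ?_
  rw [phi_sc, hG, Polynomial.coeff_map, Polynomial.eval_mul, Polynomial.eval_C,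
    Polynomial.coe_evalRingHom]

end H83JL
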