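import Pool.Agent.H83JL.Dunkl

/-! Triangularity. -/

namespace H83JL

open Finset AddMonoidAlgebra

variable {K : Type*} [Field K] {N : ℕ}

/-- partial sums -/
def csum (χ : Fin N → ℤ) (m : ℕ) : ℤ := ∑ i ∈ univ.filter (fun i : Fin N => i.val < m), χ i

/-- the weights dominated by `χ` -/
def W (χ : Fin N → ℤ) : Set (Fin N → ℤ) :=
  {η | ∑ i, η i = ∑ i, χ i ∧ ∀ S : Finset (Fin N), ∑ i ∈ S, η i ≤ csum χ S.card}

/-- closed sets of weights -/
structure Clo (W : Set (Fin N → ℤ)) : Prop where
  perm : ∀ (σ : Equiv.Perm (Fin N)) (η), η ∈ W → (fun i => η (σ i)) ∈ W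
  stp : ∀ (i j : Fin N) (s : ℤ) (η), i ≠ j → η ∈ W → 0 ≤ s → s ≤ η i - η j → stp i j s η ∈ W

lemma sum_stp {i j : Fin N} (s : ℤ) (η : Fin N → ℤ) (S : Finset (Fin N)) :
    ∑ l ∈ S, stp i j s η l = ∑ l ∈ S, η l - (if i ∈ S then s else 0) + (if j ∈ S then s else 0) := by
  simp only [stp_apply, Finset.sum_add_distrib, Finset.sum_sub_distrib, Finset.sum_ite_eq']

lemma clo_W (χ : Fin N → ℤ) : Clo (W χ) where
  perm := by
    rintro σ η ⟨h1, h2⟩
    refine ⟨?_, fun S => ?_⟩
    · rw [← h1]; exact Equiv.sum_comp σ η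
    · have := h2 (S.map σ.toEmbedding)
      rw [Finset.sum_map, Finset.card_map] at this
      exact this
  stp := by
    rintro i j s η hij ⟨h1, h2⟩ hs0 hs
    refine ⟨?_, fun S => ?_⟩
    · rw [sum_stp]; simp [h1]
    · rw [sum_stp]
      have hS := h2 S
      by_cases hi : i ∈ S
      · by_cases hj : j ∈ S
        · simp only [hi, hj, if_true]; linarith
        · simp only [hi, hj, if_true, if_false]; linarith
      · by_cases hj : j ∈ S
        · simp only [hi, hj, if_true, if_false]
          have h3 := h2 (insert i (S.erase j))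
          have hi' : i ∉ S.erase j := fun h => hi (Finset.mem_of_mem_erase h)
          rw [Finset.sum_insert hi', Finset.card_insert_of_notMem hi',
            Finset.card_erase_of_mem hj] at h3
          have hc : S.card - 1 + 1 = S.card := Nat.sub_add_cancel (Finset.card_pos.2 ⟨j, hj⟩)
          rw [hc] at h3
          have h4 := Finset.add_sum_erase S η hj
          linarith
        · simp only [hi, hj, if_false]; linarith

lemma supp_induction {W : Set (Fin N → ℤ)} {P : Lau K N → Prop} (f : Lau K N)
    (hf : f ∈ supported K K W) (h0 : P 0) (hadd : ∀ f g, P f → P g → P (f + g))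
    (hs : ∀ η ∈ W, ∀ c : K, P (single η c)) : P f := by
  have e : f = ∑ η ∈ f.coeff.support, single η (f.coeff η) := by
    conv_lhs => rw [← sum_coeff_single f]
    rfl
  rw [e]
  refine Finset.sum_induction _ P hadd h0 ?_
  intro η hη
  exact hs η (mem_supported.1 hf hη) _

lemma single_mem {W : Set (Fin N → ℤ)} {η : Fin N → ℤ} (h : η ∈ W) (c : K) :
    (single η c : Lau K N) ∈ supported K K W := by
  rw [mem_supported']
  intro m hm
  have : η ≠ m := fun h' => hm (h' ▸ h)
  simp [coeff_single, this]

lemma single_eq_smul (η : Fin N → ℤ) (c : K) : (single η c : Lau K N) = c • single η 1 := by simp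

lemma DD_mem {W : Set (Fin N → ℤ)} (hW : Clo W) {i j : Fin N} (hij : i ≠ j) {f : Lau K N}
    (hf : f ∈ supported K K W) : DD i j f ∈ supported K K W := by
  refine supp_induction (P := fun f => DD i j f ∈ supported K K W) f hf (by simp) ?_ ?_
  · intro f g hf hg; rw [map_add]; exact add_mem hf hg
  · intro η hη c
    rw [single_eq_smul, map_smul, DD_single]
    apply Submodule.smul_mem
    unfold DDmon
    split_ifs with h
    · refine sum_mem fun s hs => single_mem ?_ _
      rw [mem_range] at hs
      exact hW.stp i j s η hij hη (by positivity) (by omega)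
    · rw [neg_mem_iff]
      refine sum_mem fun s hs => single_mem ?_ _
      rw [mem_range] at hs
      refine hW.stp i j s _ hij (hW.perm _ _ hη) (by positivity) ?_
      show (s : ℤ) ≤ η (Equiv.swap i j i) - η (Equiv.swap i j j)
      rw [Equiv.swap_apply_left, Equiv.swap_apply_right]
      omega

lemma euler_mem {W : Set (Fin N → ℤ)} (i : Fin N) {f : Lau K N}
    (hf : f ∈ supported K K W) : euler i f ∈ supported K K W := by
  rw [mem_supported'] at hf ⊢
  intro m hm
  rw [euler_coeff, hf m hm, mul_zero]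

lemma dun_mem {W : Set (Fin N → ℤ)} (hW : Clo W) (k : K) (i : Fin N) {f : Lau K N}
    (hf : f ∈ supported K K W) : dun k i f ∈ supported K K W := by
  rw [dun_apply]
  refine sub_mem (euler_mem i hf) (Submodule.smul_mem _ _ (sum_mem fun j hj => ?_))
  simp only [mem_erase, mem_univ, and_true] at hj
  exact DD_mem hW (Ne.symm hj) hf

lemma dun_pow_mem {W : Set (Fin N → ℤ)} (hW : Clo W) (k : K) (i : Fin N) (n : ℕ) {f : Lau K N}
    (hf : f ∈ supported K K W) : (dun k i ^ n) f ∈ supported K K W := by
  induction n with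
  | zero => simpa using hf
  | succ n ih => rw [pow_succ', Module.End.mul_apply]; exact dun_mem hW k i ih

lemma II_mem {W : Set (Fin N → ℤ)} (hW : Clo W) (k : K) (n : ℕ) {f : Lau K N}
    (hf : f ∈ supported K K W) : II k N n f ∈ supported K K W := by
  rw [II, LinearMap.sum_apply]
  exact sum_mem fun i _ => dun_pow_mem hW k i n hf

lemma stp_stp (i j : Fin N) (s t : ℤ) (η : Fin N → ℤ) :
    stp i j s (stp i j t η) = stp i j (s + t) η := by
  ext l; simp only [stp_apply]; split_ifs <;> ring

lemma stp_zero (i j : Fin N) (η : Fin N → ℤ) : stp i j 0 η = η := by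
  ext l; simp [stp_apply]

lemma stp_eq_iff (i j : Fin N) (s : ℤ) (η ζ : Fin N → ℤ) :
    stp i j s ζ = η ↔ ζ = stp i j (-s) η := by
  constructor
  · rintro rfl; rw [stp_stp]; simp [stp_zero]
  · rintro rfl; rw [stp_stp]; simp [stp_zero]

lemma coeff_aux {W : Set (Fin N → ℤ)} {i j : Fin N} (hij : i ≠ j)
    {η : Fin N → ℤ} (hmax : ∀ s : ℤ, 0 < s → η j - η i < s → stp i j (-s) η ∉ W)
    {ζ : Fin N → ℤ} (hζ : ζ ∈ W) [Decidable (ζ = η ∧ η j < η i)] :
    (∑ s ∈ range (ζ i - ζ j).toNat, (single (stp i j s ζ) 1 : Lau K N)).coeff η =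
      if ζ = η ∧ η j < η i then 1 else 0 := by
  classical
  rw [coeff_sum, Finset.sum_apply']
  have hterm : ∀ s ∈ range (ζ i - ζ j).toNat, (single (stp i j s ζ) 1 : Lau K N).coeff η =
      if (s = 0 ∧ ζ = η) then 1 else 0 := by
    intro s hs
    rw [mem_range] at hs
    rw [coeff_single, Finsupp.single_apply]
    by_cases h0 : s = 0
    · subst h0; simp [stp_zero]
    · have : ¬ (stp i j s ζ = η) := by
        intro h
        rw [stp_eq_iff] at h
        refine hmax s (by omega) ?_ (h ▸ hζ)
        have h1 : ζ i = η i + s := by rw [h, stp_apply]; simp [hij]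
        have h2 : ζ j = η j - s := by rw [h, stp_apply]; simp [hij.symm]; ring
        omega
      simp [this, h0]
  rw [Finset.sum_congr rfl hterm]
  by_cases hz : ζ = η
  · subst hz
    by_cases hlt : ζ j < ζ i
    · simp only [and_true, hlt, if_true]
      rw [Finset.sum_ite_eq' (range (ζ i - ζ j).toNat) 0 (fun _ => (1 : K))]
      rw [if_pos]
      rw [mem_range]; omega
    · have : (ζ i - ζ j).toNat = 0 := by omega
      simp [this, hlt]
  · simp [hz]

/-- Coefficient of a divided difference at a maximal weight. -/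
lemma DD_coeff {W : Set (Fin N → ℤ)} (hW : Clo W) {i j : Fin N} (hij : i ≠ j)
    {η : Fin N → ℤ} (hmax : ∀ s : ℤ, 0 < s → η j - η i < s → stp i j (-s) η ∉ W)
    {g : Lau K N} (hg : g ∈ supported K K W) :
    (DD i j g).coeff η = if η j < η i then g.coeff η - g.coeff (swp i j η) else 0 := by
  classical
  refine supp_induction (P := fun g => (DD i j g).coeff η =
    if η j < η i then g.coeff η - g.coeff (swp i j η) else 0) g hg (by simp) ?_ ?_
  · intro f g hf hg
    rw [map_add, coeff_add, Finsupp.add_apply, hf, hg]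
    split_ifs
    · simp only [coeff_add, Finsupp.add_apply]; ring
    · simp
  · intro ζ hζ c
    rw [single_eq_smul, map_smul, DD_single]
    simp only [coeff_smul, Finsupp.smul_apply, smul_eq_mul]
    rw [← mul_sub, ← mul_ite_zero]
    congr 1
    unfold DDmon
    have hswp : ∀ ζ : Fin N → ℤ, swp i j (swp i j ζ) = ζ := by
      intro ζ; ext l; simp [swp]
    have hsi : ∀ ζ : Fin N → ℤ, swp i j ζ i = ζ j := by intro ζ; simp [swp]
    have hsj : ∀ ζ : Fin N → ℤ, swp i j ζ j = ζ i := by intro ζ; simp [swp]
    split_ifs with h1 h2 h2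
    · rw [coeff_aux hij hmax hζ]
      have : ζ ≠ swp i j η := by
        rintro rfl
        rw [hsi, hsj] at h1; omega
      simp [coeff_single, Finsupp.single_apply, this, h2]
    · rw [coeff_aux hij hmax hζ]
      simp [h2]
    · have hc := coeff_aux (K := K) hij hmax (hW.perm (Equiv.swap i j) ζ hζ)
      have e1 : (fun l => ζ ((Equiv.swap i j) l)) = swp i j ζ := rfl
      rw [e1, Equiv.swap_apply_left, Equiv.swap_apply_right] at hc
      rw [coeff_neg, Finsupp.neg_apply, hc]
      have h3 : ζ ≠ η := by rintro rfl; omega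
      have h4 : swp i j ζ = η ↔ ζ = swp i j η := by
        constructor
        · rintro rfl; rw [hswp]
        · rintro rfl; rw [hswp]
      simp [coeff_single, Finsupp.single_apply, h3, h2, h4]
    · have hc := coeff_aux (K := K) hij hmax (hW.perm (Equiv.swap i j) ζ hζ)
      have e1 : (fun l => ζ ((Equiv.swap i j) l)) = swp i j ζ := rfl
      rw [e1, Equiv.swap_apply_left, Equiv.swap_apply_right] at hc
      rw [coeff_neg, Finsupp.neg_apply, hc]
      simp [h2]

end H83JL
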